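import Mathlib
import Pool.Agent.Lib.MP_60829e_nt.SE.Defs

/-! # Number fields and linear forms in logarithms -/

open Module

namespace MP60829e.ST

/-- The field of algebraic numbers. -/
noncomputable abbrev Qa : IntermediateField ℚ ℂ := algebraicClosure ℚ ℂ

/-- Linear forms with algebraic coefficients in logarithms of algebraic numbers. -/
noncomputable def Lsp : Submodule Qa ℂ := Submodule.span Qa {z | IsAlgebraic ℚ (Complex.exp z)}

/-- The same with constant term. -/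
noncomputable def Lt : Submodule Qa ℂ :=
  Submodule.span Qa ({1} ∪ {z | IsAlgebraic ℚ (Complex.exp z)})

/-- PROOF. `K = ℚ(A)` is a number field of some degree `k + 1`; take a `ℚ`-basis and multiply it by a
common denominator of its structure constants. -/
theorem numfield (A : Finset ℂ) (hA : ∀ a ∈ A, IsAlgebraic ℚ a) :
    ∃ (k : ℕ) (om : Fin (k + 1) → ℂ) (mult : Fin (k + 1) → Fin (k + 1) → Fin (k + 1) → ℤ),
      (∀ i, IsAlgebraic ℚ (om i)) ∧ LinearIndependent ℚ om ∧
      (∀ a b, om a * om b = ∑ i, (mult a b i : ℂ) * om i) ∧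
      ∀ a ∈ A, ∃ r : Fin (k + 1) → ℚ, a = ∑ i, (r i : ℂ) * om i := by
  classical
  set K : IntermediateField ℚ ℂ := IntermediateField.adjoin ℚ (A : Set ℂ) with hK
  have hfin : FiniteDimensional ℚ K := by
    rw [hK]
    exact IntermediateField.finiteDimensional_adjoin fun x hx => (hA x hx).isIntegral
  obtain ⟨k, hk⟩ : ∃ k, finrank ℚ K = k + 1 := by
    have : 0 < finrank ℚ K := finrank_pos
    exact ⟨finrank ℚ K - 1, by omega⟩
  let b : Basis (Fin (k + 1)) ℚ K := (finBasisOfFinrankEq ℚ K hk)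
  obtain ⟨⟨d, hd⟩, hint⟩ := IsLocalization.exist_integer_multiples (nonZeroDivisors ℤ)
    (Finset.univ : Finset (Fin (k + 1) × Fin (k + 1) × Fin (k + 1)))
    (fun p => b.repr (b p.1 * b p.2.1) p.2.2)
  have hd0 : d ≠ 0 := nonZeroDivisors.ne_zero hd
  have hint' : ∀ p q i, ∃ m : ℤ, (m : ℚ) = d * b.repr (b p * b q) i := by
    intro p q i
    obtain ⟨m, hm⟩ := hint (p, q, i) (Finset.mem_univ _)
    refine ⟨m, ?_⟩
    have h2 : (algebraMap ℤ ℚ) m = (d : ℤ) • b.repr (b p * b q) i := hm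
    rw [zsmul_eq_mul] at h2
    exact h2
  choose mult hmult using hint'
  have hdC : (d : ℂ) ≠ 0 := by exact_mod_cast hd0
  have hrepr : ∀ x : K, (x : ℂ) = ∑ i, ((b.repr x i : ℚ) : ℂ) * ((b i : K) : ℂ) := by
    intro x
    have h1 := congrArg K.val (b.sum_repr x)
    rw [map_sum] at h1
    have h2 : K.val x = (x : ℂ) := rfl
    rw [← h2, ← h1]
    refine Finset.sum_congr rfl fun i _ => ?_
    have h3 : K.val (b.repr x i • b i) = (b.repr x i : ℚ) • ((b i : K) : ℂ) := rfl
    rw [h3, Rat.smul_def]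
  refine ⟨k, fun i => (d : ℂ) * (b i : ℂ), mult, ?_, ?_, ?_, ?_⟩
  · intro i
    have h1 : IsAlgebraic ℚ ((b i : K) : ℂ) := by
      have : IsAlgebraic ℚ (b i) := Algebra.IsAlgebraic.isAlgebraic _
      exact this.algebraMap
    exact (isAlgebraic_intCast d).mul h1
  · have h1 : LinearIndependent ℚ fun i => ((b i : K) : ℂ) :=
      b.linearIndependent.map' K.val.toLinearMap (LinearMap.ker_eq_bot.2 K.val.injective)
    have hdQ : (d : ℚ) ≠ 0 := by exact_mod_cast hd0
    have h2 := h1.units_smul (fun _ : Fin (k + 1) => Units.mk0 (d : ℚ) hdQ)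
    have h3 : (fun i => (d : ℂ) * (b i : ℂ)) =
        (fun _ : Fin (k + 1) => Units.mk0 (d : ℚ) hdQ) • fun i => ((b i : K) : ℂ) := by
      funext i
      rw [Pi.smul_apply', Units.smul_def, Units.val_mk0, Rat.smul_def]
      push_cast
      rfl
    rw [h3]
    exact h2
  · intro p q
    have h2 := hrepr (b p * b q)
    have h3 : ((b p * b q : K) : ℂ) = (b p : ℂ) * (b q : ℂ) := rfl
    rw [h3] at h2
    have h4 : ∀ i, (mult p q i : ℂ) = d * ((b.repr (b p * b q) i : ℚ) : ℂ) := by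
      intro i
      have := hmult p q i
      exact_mod_cast congrArg (fun x : ℚ => (x : ℂ)) this
    calc (d : ℂ) * (b p : ℂ) * ((d : ℂ) * (b q : ℂ)) = d * d * ((b p : ℂ) * (b q : ℂ)) := by ring
      _ = ∑ i, (mult p q i : ℂ) * ((d : ℂ) * (b i : ℂ)) := by
          rw [h2, Finset.mul_sum]
          refine Finset.sum_congr rfl fun i _ => ?_
          rw [h4 i]
          ring
  · intro a ha
    have haK : a ∈ K := by
      rw [hK]
      exact IntermediateField.subset_adjoin ℚ _ ha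
    refine ⟨fun i => b.repr ⟨a, haK⟩ i / d, ?_⟩
    have h2 := hrepr ⟨a, haK⟩
    have h3 : ((⟨a, haK⟩ : K) : ℂ) = a := rfl
    rw [h3] at h2
    conv_lhs => rw [h2]
    refine Finset.sum_congr rfl fun i _ => ?_
    push_cast
    field_simp

/-- PROOF. `z = ∑ a_t * μ_t`, `a_t ∈ Qa`, `exp (μ_t)` algebraic (`Submodule.mem_span_set'` or
`Finsupp.mem_span_iff_linearCombination`); `A` = the set of the `a_t`.  If `a_t = ∑ r_t i * om i` then
`z = ∑ om i * lam i`, `lam i = ∑_t r_t i * μ_t`, in the `ℚ`-space `SE.Lg` of logarithms. -/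
theorem mem_log_span (z : ℂ) (hz : z ∈ Lsp) :
    ∃ A : Finset ℂ, (∀ a ∈ A, IsAlgebraic ℚ a) ∧ ∀ (k : ℕ) (om : Fin (k + 1) → ℂ),
      (∀ a ∈ A, ∃ r : Fin (k + 1) → ℚ, a = ∑ i, (r i : ℂ) * om i) →
      ∃ lam : Fin (k + 1) → ℂ, (∀ i, IsAlgebraic ℚ (Complex.exp (lam i))) ∧
        z = ∑ i, om i * lam i := by
  classical
  rw [Lsp, Submodule.mem_span_set'] at hz
  obtain ⟨n, f, g, hfg⟩ := hz
  refine ⟨Finset.univ.image fun t => ((f t : Qa) : ℂ), ?_, ?_⟩
  · intro a ha
    obtain ⟨t, -, rfl⟩ := Finset.mem_image.1 ha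
    exact mem_algebraicClosure_iff.1 (f t).2
  · intro k om hom
    have h1 : ∀ t, ∃ r : Fin (k + 1) → ℚ, ((f t : Qa) : ℂ) = ∑ i, (r i : ℂ) * om i :=
      fun t => hom _ (Finset.mem_image_of_mem _ (Finset.mem_univ t))
    choose r hr using h1
    refine ⟨fun i => ∑ t, r t i • (g t : ℂ), fun i => ?_, ?_⟩
    · exact SE.mem_Lg.1 (SE.Lg.sum_mem fun t _ => SE.Lg.smul_mem _ (SE.mem_Lg.2 (g t).2))
    · rw [← hfg]
      simp only [Finset.mul_sum]
      rw [Finset.sum_comm]
      refine Finset.sum_congr rfl fun t _ => ?_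
      have h2 : f t • (g t : ℂ) = ((f t : Qa) : ℂ) * (g t : ℂ) := rfl
      rw [h2, hr t, Finset.sum_mul]
      refine Finset.sum_congr rfl fun i _ => ?_
      rw [Rat.smul_def]
      ring

end MP60829e.ST
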