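import Mathlib

/-! # Exponential evaluations of polynomials, diagonal operators

Points of the torus are written `exp y`, `y : σ → ℂ`.  `tau y` is the translation by `exp y`,
`der w` the invariant derivation in the direction `w`; both are diagonal on monomials. -/

open MvPolynomial Module

namespace MP60829e.ST

set_option linter.unusedSectionVars false

variable {σ : Type} [Fintype σ]

/-- The pairing of a complex vector with an exponent vector. -/
noncomputable def pr (w : σ → ℂ) (a : σ →₀ ℕ) : ℂ := ∑ i, w i * (a i : ℂ)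

/-- The operator which multiplies the coefficient of the monomial `a` by `φ a`. -/
noncomputable def diag (φ : (σ →₀ ℕ) → ℂ) : MvPolynomial σ ℂ →ₗ[ℂ] MvPolynomial σ ℂ :=
  (basisMonomials σ ℂ).constr ℂ fun a => monomial a (φ a)

/-- Translation by `exp y`. -/
noncomputable def tau (y : σ → ℂ) : MvPolynomial σ ℂ →ₗ[ℂ] MvPolynomial σ ℂ :=
  diag fun a => Complex.exp (pr y a)

/-- The invariant derivation in the direction `w`. -/
noncomputable def der (w : σ → ℂ) : MvPolynomial σ ℂ →ₗ[ℂ] MvPolynomial σ ℂ := diag (pr w)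

/-- Iterated derivation. -/
noncomputable def ders (ws : List (σ → ℂ)) (f : MvPolynomial σ ℂ) : MvPolynomial σ ℂ :=
  ws.foldr (fun w g => der w g) f

/-- Evaluation at `exp y`. -/
noncomputable def ev (y : σ → ℂ) (f : MvPolynomial σ ℂ) : ℂ := eval (fun i => Complex.exp (y i)) f

/-- Polynomials of degree at most `D` in each variable. -/
def Bx (σ : Type) (D : ℕ) : Submodule ℂ (MvPolynomial σ ℂ) where
  carrier := {f | ∀ a, coeff a f ≠ 0 → ∀ i, a i ≤ D}
  add_mem' := by
    intro f g hf hg a ha i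
    rw [coeff_add] at ha
    by_cases h : coeff a f = 0
    · exact hg a (fun h' => ha (by rw [h, h', add_zero])) i
    · exact hf a h i
  zero_mem' := by
    intro a ha
    exact absurd (coeff_zero a) ha
  smul_mem' := by
    intro c f hf a ha i
    rw [coeff_smul] at ha
    exact hf a (fun h => ha (by rw [h, smul_zero])) i

theorem mem_Bx {D : ℕ} {f : MvPolynomial σ ℂ} :
    f ∈ Bx σ D ↔ ∀ a, coeff a f ≠ 0 → ∀ i, a i ≤ D := Iff.rfl

theorem diag_monomial (φ : (σ →₀ ℕ) → ℂ) (a : σ →₀ ℕ) (c : ℂ) :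
    diag φ (monomial a c) = monomial a (φ a * c) := by
  have h1 : (monomial a c : MvPolynomial σ ℂ) = c • basisMonomials σ ℂ a := by
    rw [coe_basisMonomials, smul_monomial, smul_eq_mul, mul_one]
  rw [h1, map_smul, diag, Basis.constr_basis, smul_monomial, smul_eq_mul, mul_comm]

theorem coeff_diag (φ : (σ →₀ ℕ) → ℂ) (f : MvPolynomial σ ℂ) (a : σ →₀ ℕ) :
    coeff a (diag φ f) = φ a * coeff a f := by
  classical
  induction f using MvPolynomial.induction_on' with
  | monomial b c =>
    rw [diag_monomial, coeff_monomial, coeff_monomial]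
    split_ifs with h
    · rw [h]
    · rw [mul_zero]
  | add p q hp hq => rw [map_add, coeff_add, coeff_add, hp, hq, mul_add]

theorem diag_comp (φ ψ : (σ →₀ ℕ) → ℂ) (f : MvPolynomial σ ℂ) :
    diag φ (diag ψ f) = diag (fun a => φ a * ψ a) f := by
  ext a
  rw [coeff_diag, coeff_diag, coeff_diag, mul_assoc]

theorem diag_comm (φ ψ : (σ →₀ ℕ) → ℂ) (f : MvPolynomial σ ℂ) :
    diag φ (diag ψ f) = diag ψ (diag φ f) := by
  rw [diag_comp, diag_comp]
  congr 1
  exact congrArg diag (funext fun a => mul_comm _ _)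

theorem diag_mem_Bx {D : ℕ} (φ : (σ →₀ ℕ) → ℂ) {f : MvPolynomial σ ℂ} (hf : f ∈ Bx σ D) :
    diag φ f ∈ Bx σ D := by
  intro a ha i
  rw [coeff_diag] at ha
  exact hf a (fun h => ha (by rw [h, mul_zero])) i

theorem pr_add_right (w : σ → ℂ) (a b : σ →₀ ℕ) : pr w (a + b) = pr w a + pr w b := by
  unfold pr
  rw [← Finset.sum_add_distrib]
  apply Finset.sum_congr rfl
  intro i _
  rw [Finsupp.add_apply]
  push_cast
  ring

theorem pr_add_left (w v : σ → ℂ) (a : σ →₀ ℕ) : pr (w + v) a = pr w a + pr v a := by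
  unfold pr
  rw [← Finset.sum_add_distrib]
  apply Finset.sum_congr rfl
  intro i _
  rw [Pi.add_apply]
  ring

theorem pr_smul_left (c : ℂ) (w : σ → ℂ) (a : σ →₀ ℕ) : pr (c • w) a = c * pr w a := by
  unfold pr
  rw [Finset.mul_sum]
  apply Finset.sum_congr rfl
  intro i _
  rw [Pi.smul_apply, smul_eq_mul]
  ring

theorem pr_zero_left (a : σ →₀ ℕ) : pr (0 : σ → ℂ) a = 0 := by
  unfold pr
  simp

theorem pr_zero_right (w : σ → ℂ) : pr w 0 = 0 := by
  unfold pr
  simp

theorem tau_zero (f : MvPolynomial σ ℂ) : tau 0 f = f := by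
  ext a
  rw [tau, coeff_diag, pr_zero_left, Complex.exp_zero, one_mul]

theorem tau_add (y z : σ → ℂ) (f : MvPolynomial σ ℂ) : tau (y + z) f = tau y (tau z f) := by
  ext a
  rw [tau, tau, tau, coeff_diag, coeff_diag, coeff_diag, pr_add_left, Complex.exp_add, mul_assoc]

theorem tau_mul (y : σ → ℂ) (f g : MvPolynomial σ ℂ) : tau y (f * g) = tau y f * tau y g := by
  classical
  ext a
  rw [tau, coeff_diag, coeff_mul, coeff_mul, Finset.mul_sum]
  apply Finset.sum_congr rfl
  rintro ⟨b, c⟩ hbc
  rw [Finset.HasAntidiagonal.mem_antidiagonal] at hbc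
  simp only at hbc ⊢
  rw [coeff_diag, coeff_diag, ← hbc, pr_add_right, Complex.exp_add]
  ring

theorem tau_one (y : σ → ℂ) : tau y (1 : MvPolynomial σ ℂ) = 1 := by
  have h : (1 : MvPolynomial σ ℂ) = monomial 0 1 := rfl
  rw [h, tau, diag_monomial, pr_zero_right, Complex.exp_zero, mul_one]

theorem tau_X (y : σ → ℂ) (i : σ) : tau y (X i : MvPolynomial σ ℂ) =
    C (Complex.exp (y i)) * X i := by
  classical
  have h : (X i : MvPolynomial σ ℂ) = monomial (Finsupp.single i 1) 1 := rfl
  rw [h, tau, diag_monomial, C_mul_monomial, mul_one, mul_one]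
  congr 2
  unfold pr
  rw [Finset.sum_eq_single i]
  · simp
  · intro j _ hj
    rw [Finsupp.single_apply, if_neg (Ne.symm hj)]
    simp
  · intro h'
    exact absurd (Finset.mem_univ i) h'

/-- Leibniz rule. -/
theorem der_mul (w : σ → ℂ) (f g : MvPolynomial σ ℂ) :
    der w (f * g) = der w f * g + f * der w g := by
  classical
  ext a
  rw [der, coeff_diag, coeff_add, coeff_mul, coeff_mul, coeff_mul, Finset.mul_sum,
    ← Finset.sum_add_distrib]
  apply Finset.sum_congr rfl
  rintro ⟨b, c⟩ hbc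
  rw [Finset.HasAntidiagonal.mem_antidiagonal] at hbc
  simp only at hbc ⊢
  rw [coeff_diag, coeff_diag, ← hbc, pr_add_right]
  ring

theorem ders_nil (f : MvPolynomial σ ℂ) : ders [] f = f := rfl

theorem ders_cons (w : σ → ℂ) (ws : List (σ → ℂ)) (f : MvPolynomial σ ℂ) :
    ders (w :: ws) f = der w (ders ws f) := rfl

/-- Iterated derivation is a diagonal operator. -/
theorem ders_eq_diag (ws : List (σ → ℂ)) (f : MvPolynomial σ ℂ) :
    ders ws f = diag (fun a => (ws.map fun w => pr w a).prod) f := by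
  induction ws with
  | nil =>
    ext a
    rw [ders_nil, coeff_diag]
    simp
  | cons w ws ih =>
    ext a
    rw [ders_cons, ih, der, coeff_diag, coeff_diag, coeff_diag]
    simp only [List.map_cons, List.prod_cons]
    ring

theorem ders_add (ws : List (σ → ℂ)) (f g : MvPolynomial σ ℂ) :
    ders ws (f + g) = ders ws f + ders ws g := by
  rw [ders_eq_diag, ders_eq_diag, ders_eq_diag, map_add]

theorem ders_smul (ws : List (σ → ℂ)) (c : ℂ) (f : MvPolynomial σ ℂ) :
    ders ws (c • f) = c • ders ws f := by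
  rw [ders_eq_diag, ders_eq_diag, map_smul]

theorem ders_append (ws vs : List (σ → ℂ)) (f : MvPolynomial σ ℂ) :
    ders (ws ++ vs) f = ders ws (ders vs f) := by
  rw [ders_eq_diag, ders_eq_diag ws, ders_eq_diag vs, diag_comp]
  congr 1
  exact congrArg diag (funext fun a => by rw [List.map_append, List.prod_append])

theorem ders_tau (ws : List (σ → ℂ)) (y : σ → ℂ) (f : MvPolynomial σ ℂ) :
    ders ws (tau y f) = tau y (ders ws f) := by
  rw [ders_eq_diag, ders_eq_diag, tau, diag_comm]

theorem ders_diag (ws : List (σ → ℂ)) (φ : (σ →₀ ℕ) → ℂ) (f : MvPolynomial σ ℂ) :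
    ders ws (diag φ f) = diag φ (ders ws f) := by
  rw [ders_eq_diag, ders_eq_diag, diag_comm]

theorem ev_eq_sum (y : σ → ℂ) (f : MvPolynomial σ ℂ) :
    ev y f = ∑ a ∈ f.support, coeff a f * Complex.exp (pr y a) := by
  unfold ev
  rw [eval_eq']
  apply Finset.sum_congr rfl
  intro a _
  congr 1
  unfold pr
  rw [Complex.exp_sum]
  apply Finset.prod_congr rfl
  intro i _
  rw [← Complex.exp_nat_mul]
  congr 1
  ring

theorem ev_add_right (y : σ → ℂ) (f g : MvPolynomial σ ℂ) : ev y (f + g) = ev y f + ev y g :=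
  map_add _ _ _

theorem ev_mul (y : σ → ℂ) (f g : MvPolynomial σ ℂ) : ev y (f * g) = ev y f * ev y g :=
  map_mul _ _ _

theorem ev_smul (y : σ → ℂ) (c : ℂ) (f : MvPolynomial σ ℂ) : ev y (c • f) = c * ev y f := by
  unfold ev
  rw [smul_eval]

theorem ev_monomial (y : σ → ℂ) (a : σ →₀ ℕ) (c : ℂ) :
    ev y (monomial a c) = c * Complex.exp (pr y a) := by
  classical
  by_cases hc : c = 0
  · subst hc
    simp [ev]
  · rw [ev_eq_sum, support_monomial, if_neg hc, Finset.sum_singleton, coeff_monomial, if_pos rfl]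

theorem ev_tau (y z : σ → ℂ) (f : MvPolynomial σ ℂ) : ev y (tau z f) = ev (y + z) f := by
  induction f using MvPolynomial.induction_on' with
  | monomial b c =>
    rw [tau, diag_monomial, ev_monomial, ev_monomial, pr_add_left, Complex.exp_add]
    ring
  | add p q hp hq => rw [map_add, ev_add_right, ev_add_right, hp, hq]

/-- The value of `ders ws f` at `exp y`. -/
theorem ev_diag (y : σ → ℂ) (φ : (σ →₀ ℕ) → ℂ) (f : MvPolynomial σ ℂ) :
    ev y (diag φ f) = ∑ a ∈ f.support, φ a * coeff a f * Complex.exp (pr y a) := by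
  classical
  rw [ev_eq_sum]
  apply Finset.sum_subset_zero_on_sdiff
  · intro a ha
    rw [MvPolynomial.mem_support_iff, coeff_diag] at ha
    rw [MvPolynomial.mem_support_iff]
    exact fun h => ha (by rw [h, mul_zero])
  · intro a ha
    rw [Finset.mem_sdiff, MvPolynomial.notMem_support_iff, coeff_diag] at ha
    rw [ha.2, zero_mul]
  · intro a _
    rw [coeff_diag]

end MP60829e.ST
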