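import Mathlib
import Pool.Agent.Lib.MP_60829e_nt.ST.Defs

/-! # Definitions for the zero estimate -/

open MvPolynomial Module

namespace MP60829e.ST

set_option linter.unusedSectionVars false

variable {σ : Type} [Fintype σ]

/-- Translation as an algebra homomorphism. -/
noncomputable def tauHom (y : σ → ℂ) : MvPolynomial σ ℂ →ₐ[ℂ] MvPolynomial σ ℂ :=
  AlgHom.ofLinearMap (tau y) (tau_one y) (tau_mul y)

theorem tauHom_apply (y : σ → ℂ) (f : MvPolynomial σ ℂ) : tauHom y f = tau y f := rfl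

/-- Derivatives of order at most `r T` along `W` of the translates of `P` by the `r`-fold sums of
elements of `S`. -/
def Gen (S : Finset (σ → ℂ)) (W : Submodule ℂ (σ → ℂ)) (T : ℕ) (P : MvPolynomial σ ℂ) (r : ℕ) :
    Set (MvPolynomial σ ℂ) :=
  {f | ∃ y : Fin r → σ → ℂ, (∀ i, y i ∈ S) ∧ ∃ ws : List (σ → ℂ), (∀ w ∈ ws, w ∈ W) ∧
    ws.length ≤ r * T ∧ f = ders ws (tau (∑ i, y i) P)}

theorem Gen_step {S : Finset (σ → ℂ)} {W : Submodule ℂ (σ → ℂ)} {T : ℕ} {P : MvPolynomial σ ℂ}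
    {r : ℕ} {f : MvPolynomial σ ℂ} (hf : f ∈ Gen S W T P r) {y : σ → ℂ} (hy : y ∈ S)
    {ws : List (σ → ℂ)} (hws : ∀ w ∈ ws, w ∈ W) (hl : ws.length ≤ T) :
    ders ws (tau y f) ∈ Gen S W T P (r + 1) := by
  obtain ⟨z, hz, vs, hvs, hvl, rfl⟩ := hf
  refine ⟨Fin.cons y z, ?_, ws ++ vs, ?_, ?_, ?_⟩
  · intro i
    refine Fin.cases ?_ (fun j => ?_) i
    · exact hy
    · exact hz j
  · intro w hw
    rcases List.mem_append.1 hw with h | h
    · exact hws w h
    · exact hvs w h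
  · rw [List.length_append, Nat.succ_mul]
    omega
  · rw [Fin.sum_univ_succ, Fin.cons_zero, tau_add, ders_append]
    simp only [Fin.cons_succ]
    rw [ders_tau vs y]

theorem Gen_mono {S : Finset (σ → ℂ)} (h0 : 0 ∈ S) (W : Submodule ℂ (σ → ℂ)) (T : ℕ)
    (P : MvPolynomial σ ℂ) (r : ℕ) : Gen S W T P r ⊆ Gen S W T P (r + 1) := by
  intro f hf
  have h := Gen_step hf h0 (ws := []) (by simp) (by simp)
  rwa [ders_nil, tau_zero] at h

theorem Gen_Bx {S : Finset (σ → ℂ)} {W : Submodule ℂ (σ → ℂ)} {T D : ℕ} {P : MvPolynomial σ ℂ}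
    (hP : P ∈ Bx σ D) (r : ℕ) : Gen S W T P r ⊆ (Bx σ D : Set (MvPolynomial σ ℂ)) := by
  rintro f ⟨z, _, vs, _, _, rfl⟩
  rw [ders_eq_diag]
  exact diag_mem_Bx _ (diag_mem_Bx _ hP)

/-- The stabiliser of an ideal. -/
def Stab (p : Ideal (MvPolynomial σ ℂ)) : AddSubgroup (σ → ℂ) where
  carrier := {h | ∀ f, tau h f ∈ p ↔ f ∈ p}
  add_mem' := by
    intro a b ha hb f
    rw [tau_add, ha, hb]
  zero_mem' := by
    intro f
    rw [tau_zero]
  neg_mem' := by
    intro a ha f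
    rw [← ha (tau (-a) f), ← tau_add, add_neg_cancel, tau_zero]

theorem mem_Stab {p : Ideal (MvPolynomial σ ℂ)} {h : σ → ℂ} :
    h ∈ Stab p ↔ ∀ f, tau h f ∈ p ↔ f ∈ p := Iff.rfl

/-- The vectors orthogonal to a lattice. -/
def perp (Λ : AddSubgroup (σ → ℤ)) : Submodule ℂ (σ → ℂ) where
  carrier := {v | ∀ l ∈ Λ, ∑ i, (l i : ℂ) * v i = 0}
  add_mem' := by
    intro a b ha hb l hl
    simp only [Pi.add_apply, mul_add, Finset.sum_add_distrib]
    rw [ha l hl, hb l hl, add_zero]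
  zero_mem' := by
    intro l _
    simp
  smul_mem' := by
    intro c a ha l hl
    have h := ha l hl
    simp only [Pi.smul_apply, smul_eq_mul]
    calc ∑ i, (l i : ℂ) * (c * a i) = c * ∑ i, (l i : ℂ) * a i := by
          rw [Finset.mul_sum]
          exact Finset.sum_congr rfl fun i _ => by ring
      _ = 0 := by rw [h, mul_zero]

theorem mem_perp {Λ : AddSubgroup (σ → ℤ)} {v : σ → ℂ} :
    v ∈ perp Λ ↔ ∀ l ∈ Λ, ∑ i, (l i : ℂ) * v i = 0 := Iff.rfl

/-- The integer characters which are trivial on `H`. -/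
noncomputable def Lat (H : AddSubgroup (σ → ℂ)) : AddSubgroup (σ → ℤ) where
  carrier := {l | ∀ h ∈ H, Complex.exp (∑ i, (l i : ℂ) * h i) = 1}
  add_mem' := by
    intro a b ha hb h hh
    have e : ∑ i, (((a + b) i : ℤ) : ℂ) * h i = ∑ i, (a i : ℂ) * h i + ∑ i, (b i : ℂ) * h i := by
      rw [← Finset.sum_add_distrib]
      refine Finset.sum_congr rfl fun i _ => ?_
      rw [Pi.add_apply]
      push_cast
      ring
    rw [e, Complex.exp_add, ha h hh, hb h hh, one_mul]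
  zero_mem' := by
    intro h _
    simp
  neg_mem' := by
    intro a ha h hh
    have e : ∑ i, (((-a) i : ℤ) : ℂ) * h i = -∑ i, (a i : ℂ) * h i := by
      rw [← Finset.sum_neg_distrib]
      refine Finset.sum_congr rfl fun i _ => ?_
      rw [Pi.neg_apply]
      push_cast
      ring
    rw [e, Complex.exp_neg, ha h hh, inv_one]

/-- The points on which the characters of `Λ` are trivial. -/
noncomputable def Hull (Λ : AddSubgroup (σ → ℤ)) : AddSubgroup (σ → ℂ) where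
  carrier := {h | ∀ l ∈ Λ, Complex.exp (∑ i, (l i : ℂ) * h i) = 1}
  add_mem' := by
    intro a b ha hb l hl
    have e : ∑ i, (l i : ℂ) * (a + b) i = ∑ i, (l i : ℂ) * a i + ∑ i, (l i : ℂ) * b i := by
      rw [← Finset.sum_add_distrib]
      exact Finset.sum_congr rfl fun i _ => by rw [Pi.add_apply, mul_add]
    rw [e, Complex.exp_add, ha l hl, hb l hl, one_mul]
  zero_mem' := by
    intro l _
    simp
  neg_mem' := by
    intro a ha l hl
    have e : ∑ i, (l i : ℂ) * (-a) i = -∑ i, (l i : ℂ) * a i := by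
      rw [← Finset.sum_neg_distrib]
      exact Finset.sum_congr rfl fun i _ => by rw [Pi.neg_apply, mul_neg]
    rw [e, Complex.exp_neg, ha l hl, inv_one]

theorem mem_Hull {Λ : AddSubgroup (σ → ℤ)} {h : σ → ℂ} :
    h ∈ Hull Λ ↔ ∀ l ∈ Λ, Complex.exp (∑ i, (l i : ℂ) * h i) = 1 := Iff.rfl

/-- Congruence modulo `perp Λ` and `2 π i ℤ ^ σ`. -/
def Cong (Λ : AddSubgroup (σ → ℤ)) (y z : σ → ℂ) : Prop :=
  ∃ v ∈ perp Λ, ∃ n : σ → ℤ, ∀ i, y i - z i = v i + 2 * Real.pi * Complex.I * n i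

/-- Extension by zero. -/
noncomputable def ext0 (I : Finset σ) (x : {i // i ∈ I} → ℂ) : σ → ℂ := by
  classical
  exact fun i => if h : i ∈ I then x ⟨i, h⟩ else 0

/-- Restriction of polynomials to the coordinate torus `I`: the other variables are `1`. -/
noncomputable def rho (I : Finset σ) : MvPolynomial σ ℂ →ₐ[ℂ] MvPolynomial {i // i ∈ I} ℂ := by
  classical
  exact aeval fun i => if h : i ∈ I then X ⟨i, h⟩ else 1

theorem ext0_mem (I : Finset σ) (x : {i // i ∈ I} → ℂ) (i : σ) (h : i ∈ I) :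
    ext0 I x i = x ⟨i, h⟩ := by
  unfold ext0
  rw [dif_pos h]

theorem ext0_notMem (I : Finset σ) (x : {i // i ∈ I} → ℂ) (i : σ) (h : i ∉ I) :
    ext0 I x i = 0 := by
  unfold ext0
  rw [dif_neg h]

end MP60829e.ST
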