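import Mathlib
import Pool.Agent.Lib.MP_60829e_nt.ST.Defs

/-! # The auxiliary polynomial as a function of its coefficients; reduction to a generating
family of directions -/

open MvPolynomial

namespace MP60829e.ST

set_option linter.unusedSectionVars false

variable {σ : Type} [Fintype σ] [DecidableEq σ]

/-- The exponent vector of an index. -/
noncomputable def ex {D : ℕ} (a : σ → Fin (D + 1)) : σ →₀ ℕ :=
  Finsupp.equivFunOnFinite.symm fun i => (a i : ℕ)

theorem ex_apply {D : ℕ} (a : σ → Fin (D + 1)) (i : σ) : ex a i = (a i : ℕ) := rfl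

theorem ex_injective {D : ℕ} : Function.Injective (ex : (σ → Fin (D + 1)) → σ →₀ ℕ) := by
  intro a b h
  funext i
  exact Fin.ext (DFunLike.congr_fun h i)

theorem pr_ex {D : ℕ} (w : σ → ℂ) (a : σ → Fin (D + 1)) :
    pr w (ex a) = ∑ i, w i * ((a i : ℕ) : ℂ) := rfl

theorem pr_sum_left {ι : Type} [Fintype ι] (c : ι → ℂ) (w : ι → σ → ℂ) (a : σ →₀ ℕ) :
    pr (∑ i, c i • w i) a = ∑ i, c i * pr (w i) a := by
  unfold pr
  simp only [Finset.sum_apply, Pi.smul_apply, smul_eq_mul, Finset.sum_mul, Finset.mul_sum]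
  rw [Finset.sum_comm]
  exact Finset.sum_congr rfl fun i _ => Finset.sum_congr rfl fun j _ => by ring

theorem pr_ex_norm {D : ℕ} (w : σ → ℂ) (a : σ → Fin (D + 1)) :
    ‖pr w (ex a)‖ ≤ (∑ i, ‖w i‖) * D := by
  rw [pr_ex, Finset.sum_mul]
  refine (norm_sum_le _ _).trans (Finset.sum_le_sum fun i _ => ?_)
  rw [norm_mul, Complex.norm_natCast]
  refine mul_le_mul_of_nonneg_left ?_ (norm_nonneg _)
  have := (a i).2
  exact_mod_cast (by omega : (a i : ℕ) ≤ D)

/-- The polynomial with given coefficients. -/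
noncomputable def auxP {D : ℕ} (p : (σ → Fin (D + 1)) → ℤ) : MvPolynomial σ ℂ :=
  ∑ a, monomial (ex a) (p a : ℂ)

theorem coeff_auxP {D : ℕ} (p : (σ → Fin (D + 1)) → ℤ) (a : σ → Fin (D + 1)) :
    coeff (ex a) (auxP p) = (p a : ℂ) := by
  unfold auxP
  rw [coeff_sum, Finset.sum_eq_single a]
  · rw [coeff_monomial, if_pos rfl]
  · intro b _ hb
    rw [coeff_monomial, if_neg fun h => hb (ex_injective h)]
  · intro h
    exact absurd (Finset.mem_univ a) h

theorem auxP_ne {D : ℕ} (p : (σ → Fin (D + 1)) → ℤ) (hp : p ≠ 0) : auxP p ≠ 0 := by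
  intro h
  apply hp
  funext a
  have h1 := coeff_auxP p a
  rw [h, coeff_zero] at h1
  exact_mod_cast h1.symm

theorem auxP_mem {D : ℕ} (p : (σ → Fin (D + 1)) → ℤ) : auxP p ∈ Bx σ D := by
  unfold auxP
  refine Submodule.sum_mem _ fun a _ => ?_
  rw [mem_Bx]
  intro b hb i
  rw [coeff_monomial] at hb
  by_cases h : ex a = b
  · rw [← h, ex_apply]
    have := (a i).2
    omega
  · rw [if_neg h] at hb
    exact absurd rfl hb

theorem ev_ders_auxP {D : ℕ} (p : (σ → Fin (D + 1)) → ℤ) (y : σ → ℂ) (ws : List (σ → ℂ)) :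
    ev y (ders ws (auxP p)) = ∑ a, (p a : ℂ) * (ws.map fun w => pr w (ex a)).prod *
      Complex.exp (pr y (ex a)) := by
  rw [ders_eq_diag]
  unfold auxP
  rw [map_sum]
  have h : ∀ g : (σ → Fin (D + 1)) → MvPolynomial σ ℂ, ev y (∑ a, g a) = ∑ a, ev y (g a) :=
    fun g => map_sum (eval fun i => Complex.exp (y i)) g _
  rw [h]
  apply Finset.sum_congr rfl
  intro a _
  rw [diag_monomial, ev_monomial]
  ring

theorem der_add_left (w v : σ → ℂ) (f : MvPolynomial σ ℂ) :
    der (w + v) f = der w f + der v f := by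
  ext a
  rw [coeff_add, der, der, der, coeff_diag, coeff_diag, coeff_diag, pr_add_left, add_mul]

theorem der_smul_left (c : ℂ) (w : σ → ℂ) (f : MvPolynomial σ ℂ) :
    der (c • w) f = c • der w f := by
  ext a
  rw [coeff_smul, der, der, coeff_diag, coeff_diag, pr_smul_left, smul_eq_mul, mul_assoc]

theorem der_zero_left (f : MvPolynomial σ ℂ) : der 0 f = 0 := by
  ext a
  rw [der, coeff_diag, pr_zero_left, zero_mul, coeff_zero]

theorem ders_zero (ws : List (σ → ℂ)) : ders ws (0 : MvPolynomial σ ℂ) = 0 := by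
  rw [ders_eq_diag, map_zero]

theorem ders_der (ws : List (σ → ℂ)) (w : σ → ℂ) (f : MvPolynomial σ ℂ) :
    ders ws (der w f) = der w (ders ws f) := by
  rw [der, ders_diag]

/-- It is enough to know the vanishing of the derivatives along a generating family. -/
theorem ev_ders_span {n : ℕ} (q : Fin n → σ → ℂ) (f : MvPolynomial σ ℂ) (y : σ → ℂ) (T : ℕ)
    (h : ∀ js : List (Fin n), js.length ≤ T → ev y (ders (js.map q) f) = 0) :
    ∀ ws : List (σ → ℂ), (∀ w ∈ ws, w ∈ Submodule.span ℂ (Set.range q)) → ws.length ≤ T →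
      ev y (ders ws f) = 0 := by
  have key : ∀ ws : List (σ → ℂ), (∀ w ∈ ws, w ∈ Submodule.span ℂ (Set.range q)) →
      ∀ js : List (Fin n), ws.length + js.length ≤ T →
        ev y (ders ws (ders (js.map q) f)) = 0 := by
    intro ws
    induction ws with
    | nil =>
      intro _ js hjs
      rw [ders_nil]
      exact h js (by simpa using hjs)
    | cons w ws ih =>
      intro hws js hjs
      have ih' := ih fun v hv => hws v (List.mem_cons_of_mem _ hv)
      rw [List.length_cons] at hjs
      have hw := hws w List.mem_cons_self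
      rw [ders_cons]
      refine Submodule.span_induction (p := fun v _ => ev y (der v (ders ws (ders (js.map q) f)))
        = 0) ?_ ?_ ?_ ?_ hw
      · rintro v ⟨j, rfl⟩
        have h1 := ih' (j :: js) (by rw [List.length_cons]; omega)
        rwa [List.map_cons, ders_cons, ders_der] at h1
      · rw [der_zero_left]
        exact map_zero _
      · intro v v' _ _ hv hv'
        rw [der_add_left, ev_add_right, hv, hv', add_zero]
      · intro c v _ hv
        rw [der_smul_left, ev_smul, hv, mul_zero]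
  intro ws hws hT
  have h1 := key ws hws [] (by simpa using hT)
  rwa [List.map_nil, ders_nil] at h1

theorem list_prod {n : ℕ} (js : List (Fin n)) : ∃ μ : Fin n → ℕ, ∑ j, μ j = js.length ∧
    ∀ f : Fin n → ℂ, (js.map f).prod = ∏ j, f j ^ μ j := by
  induction js with
  | nil => exact ⟨fun _ => 0, by simp, by simp⟩
  | cons j js ih =>
    obtain ⟨μ, h1, h2⟩ := ih
    refine ⟨μ + Pi.single j 1, ?_, ?_⟩
    · simp only [Pi.add_apply, Finset.sum_add_distrib, h1, List.length_cons]
      rw [Finset.sum_pi_single' j 1 Finset.univ, if_pos (Finset.mem_univ j)]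
    · intro f
      rw [List.map_cons, List.prod_cons, h2]
      simp only [Pi.add_apply, pow_add, Finset.prod_mul_distrib]
      rw [mul_comm]
      congr 1
      rw [Finset.prod_eq_single j]
      · rw [Pi.single_eq_same, pow_one]
      · intro i _ hi
        rw [Pi.single_eq_of_ne hi, pow_zero]
      · intro h
        exact absurd (Finset.mem_univ j) h

end MP60829e.ST
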