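import Mathlib

/-! # Exponential sums whose Taylor coefficients are small -/

open Finset

namespace MP60829e.ST

/-- The tail of the exponential series. -/
theorem exp_tail_real (u ρ : ℝ) (hu : 0 ≤ u) (hρ : 1 ≤ ρ) (R : ℕ) :
    Real.exp u - ∑ r ∈ range R, u ^ r / r.factorial ≤ (ρ ^ R)⁻¹ * Real.exp (ρ * u) := by
  have hρ0 : 0 < ρ := lt_of_lt_of_le one_pos hρ
  have hs : HasSum (fun r : ℕ => u ^ r / r.factorial) (Real.exp u) := by
    have := NormedSpace.expSeries_div_hasSum_exp (𝔸 := ℝ) u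
    rwa [← Real.exp_eq_exp_ℝ] at this
  have hlim := hs.tendsto_sum_nat
  have h1 : ∀ᶠ M in Filter.atTop, ∑ r ∈ range M, u ^ r / r.factorial ≤
      ∑ r ∈ range R, u ^ r / r.factorial + (ρ ^ R)⁻¹ * Real.exp (ρ * u) := by
    filter_upwards [Filter.eventually_ge_atTop R] with M hM
    rw [← sum_range_add_sum_Ico _ hM]
    refine add_le_add le_rfl ?_
    calc ∑ r ∈ Ico R M, u ^ r / r.factorial
        ≤ ∑ r ∈ Ico R M, (ρ ^ R)⁻¹ * ((ρ * u) ^ r / r.factorial) := by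
          apply sum_le_sum
          intro r hr
          rw [mem_Ico] at hr
          rw [mul_pow, ← mul_div_assoc, ← mul_assoc]
          refine div_le_div_of_nonneg_right ?_ (Nat.cast_nonneg _)
          refine le_mul_of_one_le_left (pow_nonneg hu _) ?_
          rw [← inv_pow]
          calc (1 : ℝ) = ρ⁻¹ ^ R * ρ ^ R := by
                rw [← mul_pow, inv_mul_cancel₀ hρ0.ne', one_pow]
            _ ≤ ρ⁻¹ ^ R * ρ ^ r :=
                mul_le_mul_of_nonneg_left (pow_le_pow_right₀ hρ hr.1) (by positivity)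
      _ = (ρ ^ R)⁻¹ * ∑ r ∈ Ico R M, (ρ * u) ^ r / r.factorial := by rw [mul_sum]
      _ ≤ (ρ ^ R)⁻¹ * ∑ r ∈ range M, (ρ * u) ^ r / r.factorial := by
          refine mul_le_mul_of_nonneg_left ?_ (by positivity)
          refine sum_le_sum_of_subset_of_nonneg ?_ fun r _ _ => by positivity
          intro r hr
          rw [mem_Ico] at hr
          exact mem_range.2 hr.2
      _ ≤ (ρ ^ R)⁻¹ * Real.exp (ρ * u) := by
          refine mul_le_mul_of_nonneg_left ?_ (by positivity)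
          exact Real.sum_le_exp_of_nonneg (by positivity) _
  have h2 := le_of_tendsto hlim h1
  linarith

theorem exp_tail (x : ℂ) (Y ρ : ℝ) (hx : ‖x‖ ≤ Y) (hρ : 1 ≤ ρ) (R : ℕ) :
    ‖Complex.exp x - ∑ r ∈ range R, x ^ r / r.factorial‖ ≤ (ρ ^ R)⁻¹ * Real.exp (ρ * Y) := by
  refine (Complex.norm_exp_sub_sum_le_exp_norm_sub_sum x R).trans ?_
  refine (exp_tail_real _ ρ (norm_nonneg _) hρ R).trans ?_
  refine mul_le_mul_of_nonneg_left ?_ (by positivity)
  exact Real.exp_le_exp.2 (mul_le_mul_of_nonneg_left hx (by linarith))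

/-- The truncated part. -/
theorem exp_head {ι β : Type} [Fintype ι] [DecidableEq ι] [Fintype β] (l : ι → β → ℂ)
    (p : β → ℂ) (N : ℕ) (ε : ℝ) (hε : 0 ≤ ε)
    (h0 : ∀ κ : ι → ℕ, (∀ i, κ i < N) → ‖∑ b, p b * ∏ i, l i b ^ κ i‖ ≤ ε) (c : ι → ℂ)
    (μ : ι → ℕ) (R T : ℕ) (hμ : ∑ i, μ i ≤ T) (hRT : R + T ≤ N) :
    ‖∑ b, p b * (∏ i, l i b ^ μ i) * ∑ r ∈ range R, (∑ i, c i * l i b) ^ r / r.factorial‖ ≤
      ε * Real.exp (∑ i, ‖c i‖) := by
  have h1 : ∑ b, p b * (∏ i, l i b ^ μ i) * ∑ r ∈ range R, (∑ i, c i * l i b) ^ r / r.factorial =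
      ∑ r ∈ range R, (r.factorial : ℂ)⁻¹ * ∑ κ ∈ piAntidiag univ r,
        ((Nat.multinomial univ κ : ℂ) * ∏ i, c i ^ κ i) *
          ∑ b, p b * ∏ i, l i b ^ (κ i + μ i) := by
    simp only [mul_sum]
    rw [sum_comm]
    apply sum_congr rfl
    intro r _
    rw [sum_comm]
    apply sum_congr rfl
    intro b _
    rw [sum_pow_eq_sum_piAntidiag, sum_div, mul_sum]
    apply sum_congr rfl
    intro κ _
    simp only [mul_pow, prod_mul_distrib, pow_add]
    ring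
  rw [h1]
  calc ‖∑ r ∈ range R, (r.factorial : ℂ)⁻¹ * ∑ κ ∈ piAntidiag univ r,
        ((Nat.multinomial univ κ : ℂ) * ∏ i, c i ^ κ i) *
          ∑ b, p b * ∏ i, l i b ^ (κ i + μ i)‖
      ≤ ∑ r ∈ range R, ((r.factorial : ℝ)⁻¹ * ∑ κ ∈ piAntidiag univ r,
        ((Nat.multinomial univ κ : ℝ) * ∏ i, ‖c i‖ ^ κ i) * ε) := by
        refine (norm_sum_le _ _).trans (sum_le_sum fun r hr => ?_)
        rw [norm_mul, norm_inv, Complex.norm_natCast]
        refine mul_le_mul_of_nonneg_left ?_ (by positivity)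
        refine (norm_sum_le _ _).trans (sum_le_sum fun κ hκ => ?_)
        rw [norm_mul, norm_mul, Complex.norm_natCast, norm_prod]
        simp only [norm_pow]
        refine mul_le_mul_of_nonneg_left (h0 _ ?_) (by positivity)
        intro i
        rw [mem_piAntidiag] at hκ
        have h2 : κ i ≤ r := by
          rw [← hκ.1]
          exact single_le_sum (f := κ) (fun _ _ => Nat.zero_le _) (mem_univ i)
        have h3 : μ i ≤ T := le_trans (single_le_sum (f := μ) (fun _ _ => Nat.zero_le _)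
          (mem_univ i)) hμ
        have h4 := mem_range.1 hr
        omega
    _ = ε * ∑ r ∈ range R, (∑ i, ‖c i‖) ^ r / r.factorial := by
        rw [mul_sum]
        apply sum_congr rfl
        intro r _
        rw [sum_pow_eq_sum_piAntidiag, ← sum_mul]
        ring
    _ ≤ ε * Real.exp (∑ i, ‖c i‖) :=
        mul_le_mul_of_nonneg_left (Real.sum_le_exp_of_nonneg (by positivity) _) hε

/-- The values of the exponential sum are small. -/
theorem exp_small {ι β : Type} [Fintype ι] [DecidableEq ι] [Fintype β] (l : ι → β → ℂ)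
    (p : β → ℂ) (N : ℕ) (ε : ℝ) (hε : 0 ≤ ε)
    (h0 : ∀ κ : ι → ℕ, (∀ i, κ i < N) → ‖∑ b, p b * ∏ i, l i b ^ κ i‖ ≤ ε) (c : ι → ℂ)
    (μ : ι → ℕ) (R T : ℕ) (hμ : ∑ i, μ i ≤ T) (hRT : R + T ≤ N) (B Y ρ : ℝ) (hB : 1 ≤ B)
    (hl : ∀ i b, ‖l i b‖ ≤ B) (hY : ∀ b, ‖∑ i, c i * l i b‖ ≤ Y) (hρ : 1 ≤ ρ) :
    ‖∑ b, p b * (∏ i, l i b ^ μ i) * Complex.exp (∑ i, c i * l i b)‖ ≤
      ε * Real.exp (∑ i, ‖c i‖) + (∑ b, ‖p b‖) * (B ^ T * ((ρ ^ R)⁻¹ * Real.exp (ρ * Y))) := by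
  have h1 : ∑ b, p b * (∏ i, l i b ^ μ i) * Complex.exp (∑ i, c i * l i b) =
      (∑ b, p b * (∏ i, l i b ^ μ i) * ∑ r ∈ range R, (∑ i, c i * l i b) ^ r / r.factorial) +
      ∑ b, p b * (∏ i, l i b ^ μ i) * (Complex.exp (∑ i, c i * l i b) -
        ∑ r ∈ range R, (∑ i, c i * l i b) ^ r / r.factorial) := by
    rw [← sum_add_distrib]
    apply sum_congr rfl
    intro b _
    ring
  rw [h1]
  refine (norm_add_le _ _).trans (add_le_add (exp_head l p N ε hε h0 c μ R T hμ hRT) ?_)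
  rw [sum_mul]
  refine (norm_sum_le _ _).trans (sum_le_sum fun b _ => ?_)
  rw [norm_mul, norm_mul, mul_assoc]
  refine mul_le_mul_of_nonneg_left ?_ (norm_nonneg _)
  refine mul_le_mul ?_ (exp_tail _ Y ρ (hY b) hρ R) (norm_nonneg _) (by positivity)
  rw [norm_prod]
  calc ∏ i, ‖l i b ^ μ i‖ ≤ ∏ i, B ^ μ i := by
        apply prod_le_prod (fun i _ => norm_nonneg _)
        intro i _
        rw [norm_pow]
        exact pow_le_pow_left₀ (norm_nonneg _) (hl i b) _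
    _ = B ^ (∑ i, μ i) := by rw [prod_pow_eq_pow_sum]
    _ ≤ B ^ T := pow_le_pow_right₀ hB hμ

end MP60829e.ST
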