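import Mathlib
import Pool.Agent.Lib.MP_60829e_nt.BAlg

/-! # Lower bound for the values of the auxiliary polynomial -/

open Finset NumberField Pool.Agent.Lib.MP_60829e_nt.Bk

namespace MP60829e.ST

set_option linter.unusedSectionVars false

variable {K : Type} [Field K] [NumberField K]

theorem isIntegral_natK (n : ℕ) : IsIntegral ℤ (n : K) := by
  have : IsIntegral ℤ (algebraMap ℤ K (n : ℤ)) := isIntegral_algebraMap
  simpa using this

theorem isIntegral_intK (n : ℤ) : IsIntegral ℤ (n : K) := by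
  have : IsIntegral ℤ (algebraMap ℤ K n) := isIntegral_algebraMap
  simpa using this

theorem prod_pow_int {I : Type} [Fintype I] (α : I → K) (Q : ℕ)
    (hQ : ∀ i, IsIntegral ℤ ((Q : K) * α i)) (k : I → ℕ) (E : ℕ) (hk : ∑ i, k i ≤ E) :
    IsIntegral ℤ ((Q : K) ^ E * ∏ i, α i ^ k i) := by
  have h1 : (Q : K) ^ E * ∏ i, α i ^ k i =
      (Q : K) ^ (E - ∑ i, k i) * ∏ i, ((Q : K) * α i) ^ k i := by
    simp only [mul_pow, prod_mul_distrib]
    rw [prod_pow_eq_pow_sum, ← mul_assoc, ← pow_add, Nat.sub_add_cancel hk]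
  rw [h1]
  exact ((isIntegral_natK Q).pow _).mul (IsIntegral.prod _ fun i _ => (hQ i).pow _)

theorem prod_pow_norm {I : Type} [Fintype I] (z : I → ℂ) (B : ℝ) (hB : 1 ≤ B)
    (hz : ∀ i, ‖z i‖ ≤ B) (k : I → ℕ) (E : ℕ) (hk : ∑ i, k i ≤ E) :
    ‖∏ i, z i ^ k i‖ ≤ B ^ E := by
  rw [norm_prod]
  calc ∏ i, ‖z i ^ k i‖ ≤ ∏ i, B ^ k i := by
        apply prod_le_prod (fun i _ => norm_nonneg _)
        intro i _
        rw [norm_pow]
        exact pow_le_pow_left₀ (norm_nonneg _) (hz i) _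
    _ = B ^ (∑ i, k i) := by rw [prod_pow_eq_pow_sum]
    _ ≤ B ^ E := pow_le_pow_right₀ hB hk

/-- The value in the field. -/
noncomputable def xi {σ J : Type} [Fintype σ] [DecidableEq σ] [Fintype J] {n : ℕ} (q : Fin n → σ → K)
    (e : J × σ → K) {D : ℕ} (p : (σ → Fin (D + 1)) → ℤ) (μ : Fin n → ℕ) (s : J → ℕ) : K :=
  ∑ a, (p a : K) * (∏ j, (∑ i, q j i * ((a i : ℕ) : K)) ^ μ j) *
    ∏ x, e x ^ (s x.1 * (a x.2 : ℕ))

theorem liou {σ J : Type} [Fintype σ] [DecidableEq σ] [Fintype J] {n : ℕ} (φ0 : K →+* ℂ) (q : Fin n → σ → K)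
    (e : J × σ → K) : ∃ C1 : ℝ, 1 ≤ C1 ∧ ∀ D S T : ℕ, 1 ≤ D →
    ∀ (p : (σ → Fin (D + 1)) → ℤ) (μ : Fin n → ℕ) (s : J → ℕ), ∑ j, μ j ≤ T →
      (∀ j, s j < S) → xi q e p μ s ≠ 0 →
      1 ≤ ‖φ0 (xi q e p μ s)‖ * ((∑ a, |((p a : ℤ) : ℝ)| + 1) * (C1 * D) ^ (T + D * S)) ^
        (2 * Module.finrank ℚ K) := by
  obtain ⟨Q1, hQ1, hQ1i⟩ := exists_den (fun x : Fin n × σ => q x.1 x.2)
  obtain ⟨Q2, hQ2, hQ2i⟩ := exists_den e
  obtain ⟨B1, hB1⟩ := exists_bd (fun x : Fin n × σ => q x.1 x.2)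
  obtain ⟨B2, hB2⟩ := exists_bd e
  obtain ⟨Q, hQ⟩ : ∃ Q : ℕ, Q = Q1 * Q2 := ⟨_, rfl⟩
  have hQpos : 1 ≤ Q := by
    rw [hQ]
    exact Nat.mul_pos hQ1 hQ2
  have hQq : ∀ j i, IsIntegral ℤ ((Q : K) * q j i) := by
    intro j i
    have h : (Q : K) * q j i = (Q2 : K) * ((Q1 : K) * q j i) := by
      rw [hQ]; push_cast; ring
    rw [h]
    exact (isIntegral_natK Q2).mul (hQ1i (j, i))
  have hQe : ∀ x, IsIntegral ℤ ((Q : K) * e x) := by
    intro x
    have h : (Q : K) * e x = (Q1 : K) * ((Q2 : K) * e x) := by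
      rw [hQ]; push_cast; ring
    rw [h]
    exact (isIntegral_natK Q1).mul (hQ2i x)
  obtain ⟨c, hc⟩ : ∃ c : ℕ, c = Fintype.card (J × σ) := ⟨_, rfl⟩
  obtain ⟨C, hC⟩ : ∃ C : ℝ, C = (B1 : ℝ) + B2 + 1 := ⟨_, rfl⟩
  have hB10 : (0 : ℝ) ≤ B1 := Nat.cast_nonneg _
  have hB20 : (0 : ℝ) ≤ B2 := Nat.cast_nonneg _
  have hC1 : 1 ≤ C := by rw [hC]; linarith
  have hC0 : 0 ≤ C := by linarith
  obtain ⟨m, hm⟩ : ∃ m : ℕ, m = Fintype.card σ := ⟨_, rfl⟩
  have hQr : (1 : ℝ) ≤ Q := by exact_mod_cast hQpos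
  have hm0 : (0 : ℝ) ≤ m := Nat.cast_nonneg _
  obtain ⟨C1, hC1'⟩ : ∃ C1 : ℝ, C1 = (m + 1) * C * C ^ c * (Q : ℝ) ^ (1 + c) := ⟨_, rfl⟩
  have h1a : (1 : ℝ) ≤ (m + 1) * C := one_le_mul_of_one_le_of_one_le (by linarith) hC1
  have h1b : (1 : ℝ) ≤ C ^ c := one_le_pow₀ hC1
  have h1c : (1 : ℝ) ≤ (Q : ℝ) ^ (1 + c) := one_le_pow₀ hQr
  have hC1a : (m + 1) * C ≤ C1 := by
    rw [hC1', mul_assoc]
    exact le_mul_of_one_le_right (by positivity) (one_le_mul_of_one_le_of_one_le h1b h1c)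
  have hC1b : C ^ c ≤ C1 := by
    rw [hC1', mul_comm ((m + 1) * C), mul_assoc]
    exact le_mul_of_one_le_right (by positivity) (one_le_mul_of_one_le_of_one_le h1a h1c)
  have hC1c : (Q : ℝ) ^ (1 + c) ≤ C1 := by
    rw [hC1', mul_comm]
    exact le_mul_of_one_le_right (by positivity) (one_le_mul_of_one_le_of_one_le h1a h1b)
  refine ⟨C1, h1a.trans hC1a, ?_⟩
  intro D S T hD p μ s hμ hs hne
  have hDr : (1 : ℝ) ≤ D := by exact_mod_cast hD
  have hCD : (1 : ℝ) ≤ C1 * D := one_le_mul_of_one_le_of_one_le (h1a.trans hC1a) hDr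
  have hC1D : C1 ≤ C1 * D := le_mul_of_one_le_right (by linarith) hDr
  have hsum0 : 0 ≤ ∑ a, |((p a : ℤ) : ℝ)| := sum_nonneg fun a _ => abs_nonneg _
  -- exponents of `e`
  have hexp : ∀ a : σ → Fin (D + 1), ∑ x : J × σ, s x.1 * (a x.2 : ℕ) ≤ c * (D * S) := by
    intro a
    calc ∑ x : J × σ, s x.1 * (a x.2 : ℕ) ≤ ∑ _x : J × σ, D * S := by
          apply sum_le_sum
          intro x _
          have h1 := hs x.1
          have h2 := (a x.2).2
          calc s x.1 * (a x.2 : ℕ) ≤ S * D := Nat.mul_le_mul h1.le (by omega)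
            _ = D * S := Nat.mul_comm _ _
      _ = c * (D * S) := by
          rw [sum_const, smul_eq_mul, card_univ, ← hc]
  -- integrality
  have hint : IsIntegral ℤ (((Q ^ (T + c * (D * S)) : ℕ) : K) * xi q e p μ s) := by
    unfold xi
    rw [mul_sum]
    apply IsIntegral.sum
    intro a _
    have h1 : ((Q ^ (T + c * (D * S)) : ℕ) : K) * ((p a : K) *
        (∏ j, (∑ i, q j i * ((a i : ℕ) : K)) ^ μ j) * ∏ x, e x ^ (s x.1 * (a x.2 : ℕ))) =
        (p a : K) * (((Q : K) ^ T * ∏ j, (∑ i, q j i * ((a i : ℕ) : K)) ^ μ j) *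
        ((Q : K) ^ (c * (D * S)) * ∏ x, e x ^ (s x.1 * (a x.2 : ℕ)))) := by
      push_cast
      rw [pow_add]
      ring
    rw [h1]
    refine (isIntegral_intK _).mul (IsIntegral.mul ?_ ?_)
    · refine prod_pow_int _ Q (fun j => ?_) μ T hμ
      rw [mul_sum]
      apply IsIntegral.sum
      intro i _
      rw [← mul_assoc]
      exact (hQq j i).mul (isIntegral_natK _)
    · exact prod_pow_int e Q hQe (fun x => s x.1 * (a x.2 : ℕ)) _ (hexp a)
  -- conjugates
  have hconj : ∀ φ : K →+* ℂ, ‖φ (xi q e p μ s)‖ ≤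
      (∑ a, |((p a : ℤ) : ℝ)| + 1) * (C1 * D) ^ (T + D * S) := by
    intro φ
    unfold xi
    rw [map_sum]
    refine (norm_sum_le _ _).trans ?_
    calc ∑ a, ‖φ ((p a : K) * (∏ j, (∑ i, q j i * ((a i : ℕ) : K)) ^ μ j) *
          ∏ x, e x ^ (s x.1 * (a x.2 : ℕ)))‖
        ≤ ∑ a, |((p a : ℤ) : ℝ)| * (C1 * D) ^ (T + D * S) := by
          apply sum_le_sum
          intro a _
          rw [map_mul, map_mul, map_intCast, norm_mul, norm_mul, Complex.norm_intCast, mul_assoc]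
          refine mul_le_mul_of_nonneg_left ?_ (abs_nonneg _)
          rw [pow_add]
          refine mul_le_mul ?_ ?_ (norm_nonneg _) (by positivity)
          · rw [map_prod]
            simp only [map_pow]
            refine prod_pow_norm _ _ hCD (fun j => ?_) μ T hμ
            rw [map_sum]
            refine (norm_sum_le _ _).trans ?_
            calc ∑ i, ‖φ (q j i * ((a i : ℕ) : K))‖ ≤ ∑ _i : σ, C * D := by
                  apply sum_le_sum
                  intro i _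
                  rw [map_mul, map_natCast, norm_mul, Complex.norm_natCast]
                  refine mul_le_mul ?_ ?_ (Nat.cast_nonneg _) hC0
                  · refine (hB1 (j, i) φ).trans ?_
                    rw [hC]
                    linarith
                  · have := (a i).2
                    exact_mod_cast (by omega : (a i : ℕ) ≤ D)
              _ = m * (C * D) := by
                  rw [sum_const, card_univ, nsmul_eq_mul, hm]
              _ ≤ (m + 1) * (C * D) :=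
                  mul_le_mul_of_nonneg_right (by linarith) (by positivity)
              _ = ((m + 1) * C) * D := by ring
              _ ≤ C1 * D := mul_le_mul_of_nonneg_right hC1a (by linarith)
          · rw [map_prod]
            simp only [map_pow]
            have h2 := prod_pow_norm (fun x => φ (e x)) C hC1 (fun x => by
              refine (hB2 x φ).trans ?_
              rw [hC]
              linarith) (fun x => s x.1 * (a x.2 : ℕ)) _ (hexp a)
            refine h2.trans ?_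
            rw [pow_mul]
            exact pow_le_pow_left₀ (by positivity) (hC1b.trans hC1D) _
      _ = (∑ a, |((p a : ℤ) : ℝ)|) * (C1 * D) ^ (T + D * S) := by rw [sum_mul]
      _ ≤ (∑ a, |((p a : ℤ) : ℝ)| + 1) * (C1 * D) ^ (T + D * S) :=
          mul_le_mul_of_nonneg_right (by linarith) (by positivity)
  have h3 := liouville φ0 _ hne (Q ^ (T + c * (D * S))) (Nat.one_le_pow _ _ hQpos) hint hconj
  obtain ⟨X, hX⟩ : ∃ X : ℝ, X = (∑ a, |((p a : ℤ) : ℝ)| + 1) * (C1 * D) ^ (T + D * S) := ⟨_, rfl⟩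
  rw [← hX] at h3 ⊢
  have hX1 : 1 ≤ X := by
    rw [hX]
    exact one_le_mul_of_one_le_of_one_le (by linarith) (one_le_pow₀ hCD)
  have hden : (((Q ^ (T + c * (D * S)) : ℕ) : ℝ)) ≤ X := by
    push_cast
    calc (Q : ℝ) ^ (T + c * (D * S)) ≤ (Q : ℝ) ^ ((1 + c) * (T + D * S)) := by
          refine pow_le_pow_right₀ hQr ?_
          nlinarith [Nat.zero_le (c * T), Nat.zero_le (D * S)]
      _ = ((Q : ℝ) ^ (1 + c)) ^ (T + D * S) := by rw [pow_mul]
      _ ≤ (C1 * D) ^ (T + D * S) := pow_le_pow_left₀ (by positivity) (hC1c.trans hC1D) _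
      _ ≤ X := by
          rw [hX]
          exact le_mul_of_one_le_left (by positivity) (by linarith)
  have hfr : 0 < Module.finrank ℚ K := Module.finrank_pos
  calc (1 : ℝ) ≤ ((Q ^ (T + c * (D * S)) : ℕ) : ℝ) ^ Module.finrank ℚ K *
        ‖φ0 (xi q e p μ s)‖ * X ^ (Module.finrank ℚ K - 1) := h3
    _ ≤ X ^ Module.finrank ℚ K * ‖φ0 (xi q e p μ s)‖ * X ^ Module.finrank ℚ K := by
        refine mul_le_mul ?_ ?_ (by positivity) (by positivity)
        · exact mul_le_mul_of_nonneg_right (pow_le_pow_left₀ (by positivity) hden _)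
            (norm_nonneg _)
        · exact pow_le_pow_right₀ hX1 (Nat.sub_le _ _)
    _ = ‖φ0 (xi q e p μ s)‖ * X ^ (2 * Module.finrank ℚ K) := by
        rw [two_mul, pow_add]
        ring

end MP60829e.ST
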