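import Mathlib

/-! # The numerical comparison for the auxiliary polynomial -/

namespace MP60829e.ST

/-- Size of the parameter: all inequalities which are needed for `t`. -/
structure Big (A C1 : ℝ) (C0 G : ℕ) (t : ℕ) : Prop where
  h18 : 18 ≤ t
  hC0 : C0 ≤ t
  hA : A ≤ t
  hC1 : C1 ≤ t
  hexp : Real.exp (81 * A) ≤ t
  hG : (t : ℝ) ^ G < 9 ^ t

theorem exists_big (A C1 : ℝ) (C0 G : ℕ) : ∃ t0 : ℕ, ∀ t, t0 ≤ t → Big A C1 C0 G t := by
  have h1 := (isLittleO_pow_const_const_pow_of_one_lt (R := ℝ) G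
    (by norm_num : (1 : ℝ) < 9)).def (by norm_num : (0 : ℝ) < 1 / 2)
  obtain ⟨t1, ht1⟩ := Filter.eventually_atTop.1 h1
  refine ⟨t1 + 18 + C0 + ⌈|A|⌉₊ + ⌈|C1|⌉₊ + ⌈Real.exp (81 * A)⌉₊, ?_⟩
  intro t ht
  have c1 : ∀ x : ℝ, ⌈|x|⌉₊ ≤ t → x ≤ t := by
    intro x hx
    exact (le_abs_self x).trans ((Nat.le_ceil _).trans (by exact_mod_cast hx))
  refine ⟨by omega, by omega, c1 _ (by omega), c1 _ (by omega), ?_, ?_⟩
  · exact (Nat.le_ceil _).trans (by exact_mod_cast (by omega : ⌈Real.exp (81 * A)⌉₊ ≤ t))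
  · have h2 := ht1 t (by omega)
    rw [Real.norm_of_nonneg (by positivity), Real.norm_of_nonneg (by positivity)] at h2
    have h3 : (0 : ℝ) < 9 ^ t := by positivity
    linarith

variable {n m D S N t g C0 d T : ℕ} {A C1 : ℝ}

/-- The counting inequality. -/
theorem num_count (hm : m = n + 2) (hD : D = t ^ (4 * m * (n + 1))) (hN : N = t ^ (4 * m * (n + 1) + 4 * (n + 1) + 1))
    (ht : 18 ≤ t) : (t + 1) * (2 * N ^ (n + 1)) ≤ (D + 1) ^ m := by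
  have h1 : t ^ (3 * (n + 1)) * N ^ (n + 1) = D ^ m := by
    rw [hD, hN, ← pow_mul, ← pow_mul, ← pow_add]
    congr 1
    subst hm
    ring
  have h2 : (t + 1) * 2 ≤ t ^ (3 * (n + 1)) := by
    have h3 : t ^ 2 ≤ t ^ (3 * (n + 1)) := Nat.pow_le_pow_right (by omega) (by omega)
    nlinarith
  calc (t + 1) * (2 * N ^ (n + 1)) = (t + 1) * 2 * N ^ (n + 1) := by ring
    _ ≤ t ^ (3 * (n + 1)) * N ^ (n + 1) := Nat.mul_le_mul_right _ h2
    _ = D ^ m := h1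
    _ ≤ (D + 1) ^ m := Nat.pow_le_pow_left (by omega) _

theorem num_N (hD : D = t ^ (4 * m * (n + 1))) (hS : S = t ^ (4 * (n + 1)))
    (hN : N = t ^ (4 * m * (n + 1) + 4 * (n + 1) + 1)) : N = t * (D * S) := by
  rw [hD, hS, hN, ← pow_add, ← pow_succ']

theorem num_T (hS : S = t ^ (4 * (n + 1)))
    (hC0 : C0 ≤ t) : C0 * D ≤ D * S := by
  have h1 : t ≤ S := by
    rw [hS]
    exact Nat.le_self_pow (by omega) t
  calc C0 * D ≤ t * D := Nat.mul_le_mul_right _ hC0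
    _ = D * t := Nat.mul_comm _ _
    _ ≤ D * S := Nat.mul_le_mul_left _ h1

/-- the exponent -/
def ga (n m : ℕ) : ℕ := 4 * m * (n + 1) + 1

/-- the exponent of the size of the coefficients -/
def gg (n m : ℕ) : ℕ := ga n m * m + 1 + ga n m * (n + 1)

/-- the total exponent -/
def gG (n m d : ℕ) : ℕ :=
  (ga n m * m + gg n m) + (ga n m + 2) + ((ga n m * m + gg n m + 1) + ga n m * 2) * d

theorem num_D1 (hD : D = t ^ (4 * m * (n + 1))) (ht : 18 ≤ t) :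
    ((D : ℝ) + 1) ≤ (t : ℝ) ^ (ga n m) := by
  have ht' : (18 : ℝ) ≤ t := by exact_mod_cast ht
  have hD1 : (1 : ℝ) ≤ D := by
    rw [hD]
    push_cast
    exact one_le_pow₀ (by linarith)
  unfold ga
  rw [pow_succ]
  have h1 : (t : ℝ) ^ (4 * m * (n + 1)) = D := by rw [hD]; push_cast; rfl
  rw [h1]
  nlinarith

theorem num_AD (hD : D = t ^ (4 * m * (n + 1))) (hA : A ≤ t) :
    A * D ≤ (t : ℝ) ^ (ga n m) := by
  unfold ga
  rw [pow_succ, mul_comm]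
  have h1 : (t : ℝ) ^ (4 * m * (n + 1)) = D := by rw [hD]; push_cast; rfl
  rw [h1]
  exact mul_le_mul_of_nonneg_left hA (Nat.cast_nonneg _)

/-- Size of the coefficients. -/
theorem num_coef (hD : D = t ^ (4 * m * (n + 1))) (hS : S = t ^ (4 * (n + 1)))
    (hN : N = t ^ (4 * m * (n + 1) + 4 * (n + 1) + 1)) (hA1 : 1 ≤ A) (ht : 18 ≤ t) (hA : A ≤ t) (x : ℝ)
    (hx : x ^ t ≤ ((D : ℝ) + 1) ^ m * (9 ^ N * (A * D) ^ ((n + 1) * N) + 1)) :
    x ≤ ((t : ℝ) ^ (gg n m)) ^ (D * S) := by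
  have ht' : (18 : ℝ) ≤ t := by exact_mod_cast ht
  have ht1 : (1 : ℝ) ≤ t := by linarith
  have hN1 : 1 ≤ N := by
    rw [hN]
    exact Nat.one_le_pow _ _ (by omega)
  have h1 := num_D1 (n := n) (m := m) hD ht
  have h2 := num_AD (n := n) (m := m) hD hA
  have hD0 : (0 : ℝ) ≤ D := Nat.cast_nonneg _
  have h3 : (9 : ℝ) ^ N * (A * D) ^ ((n + 1) * N) + 1 ≤ (t : ℝ) ^ N *
      ((t : ℝ) ^ (ga n m)) ^ ((n + 1) * N) := by
    have h4 : (A * D) ^ ((n + 1) * N) ≤ ((t : ℝ) ^ (ga n m)) ^ ((n + 1) * N) :=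
      pow_le_pow_left₀ (by positivity) h2 _
    have h5 : (1 : ℝ) ≤ ((t : ℝ) ^ (ga n m)) ^ ((n + 1) * N) := one_le_pow₀ (one_le_pow₀ ht1)
    have h6 : (9 : ℝ) ^ N + 1 ≤ (t : ℝ) ^ N := by
      have h7 : (2 : ℝ) ≤ 2 ^ N := by
        calc (2 : ℝ) = 2 ^ 1 := by norm_num
          _ ≤ 2 ^ N := pow_le_pow_right₀ (by norm_num) hN1
      have h8 : (1 : ℝ) ≤ 9 ^ N := one_le_pow₀ (by norm_num)
      calc (9 : ℝ) ^ N + 1 ≤ 2 ^ N * 9 ^ N := by nlinarith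
        _ = 18 ^ N := by rw [← mul_pow]; norm_num
        _ ≤ (t : ℝ) ^ N := pow_le_pow_left₀ (by norm_num) ht' _
    calc (9 : ℝ) ^ N * (A * D) ^ ((n + 1) * N) + 1
        ≤ 9 ^ N * ((t : ℝ) ^ (ga n m)) ^ ((n + 1) * N) +
            1 * ((t : ℝ) ^ (ga n m)) ^ ((n + 1) * N) := by
          rw [one_mul]
          exact add_le_add (mul_le_mul_of_nonneg_left h4 (by positivity)) h5
      _ = (9 ^ N + 1) * ((t : ℝ) ^ (ga n m)) ^ ((n + 1) * N) := by ring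
      _ ≤ _ := mul_le_mul_of_nonneg_right h6 (by positivity)
  have h4 : x ^ t ≤ (((t : ℝ) ^ (gg n m)) ^ (D * S)) ^ t := by
    calc x ^ t ≤ ((D : ℝ) + 1) ^ m * (9 ^ N * (A * D) ^ ((n + 1) * N) + 1) := hx
      _ ≤ ((t : ℝ) ^ (ga n m)) ^ m * ((t : ℝ) ^ N * ((t : ℝ) ^ (ga n m)) ^ ((n + 1) * N)) := by
          refine mul_le_mul (pow_le_pow_left₀ (by positivity) h1 _) h3 (by positivity)
            (by positivity)
      _ = (t : ℝ) ^ (ga n m * m + (N + ga n m * ((n + 1) * N))) := by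
          rw [← pow_mul, ← pow_mul, ← pow_add, ← pow_add]
      _ ≤ (t : ℝ) ^ (gg n m * N) := by
          refine pow_le_pow_right₀ ht1 ?_
          unfold gg
          have h5 : ga n m * m ≤ ga n m * m * N := Nat.le_mul_of_pos_right _ hN1
          calc ga n m * m + (N + ga n m * ((n + 1) * N))
              ≤ ga n m * m * N + (N + ga n m * ((n + 1) * N)) := Nat.add_le_add_right h5 _
            _ = (ga n m * m + 1 + ga n m * (n + 1)) * N := by ring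
      _ = (((t : ℝ) ^ (gg n m)) ^ (D * S)) ^ t := by
          rw [← pow_mul, ← pow_mul, num_N hD hS hN]
          congr 1
          ring
  exact le_of_pow_le_pow_left₀ (by omega) (by positivity) h4

/-- The contradiction. -/
theorem num_final (hD : D = t ^ (4 * m * (n + 1))) (hS : S = t ^ (4 * (n + 1)))
    (hN : N = t ^ (4 * m * (n + 1) + 4 * (n + 1) + 1)) (hA1 : 1 ≤ A) (hC1 : 1 ≤ C1)
    (ht : Big A C1 C0 (gG n m d) t) (hT : T ≤ C0 * D) (P : ℝ)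
    (hP0 : 0 ≤ P) (hP : P ≤ ((D : ℝ) + 1) ^ m * ((t : ℝ) ^ (gg n m)) ^ (D * S)) :
    (P / 9 ^ N * Real.exp (A * (D * S)) +
      P * ((A * D) ^ T * (((81 : ℝ) ^ (N - T))⁻¹ * Real.exp (81 * (A * (D * S)))))) *
      ((P + 1) * (C1 * D) ^ (T + D * S)) ^ d < 1 := by
  have ht' : (18 : ℝ) ≤ t := by exact_mod_cast ht.h18
  have ht1 : (1 : ℝ) ≤ t := by linarith
  have h18 := ht.h18
  have hD1' : 1 ≤ D := by
    rw [hD]
    exact Nat.one_le_pow _ _ (by omega)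
  have hS1' : 1 ≤ S := by
    rw [hS]
    exact Nat.one_le_pow _ _ (by omega)
  have hNt := num_N hD hS hN
  have hTU := hT.trans (num_T (C0 := C0) (D := D) hS ht.hC0)
  have h1 := num_D1 (n := n) (m := m) hD ht.h18
  have h2 := num_AD (n := n) (m := m) hD ht.hA
  have h2' := num_AD (n := n) (m := m) hD ht.hC1
  obtain ⟨U, hU⟩ : ∃ U : ℕ, U = D * S := ⟨_, rfl⟩
  have hUr : (D : ℝ) * S = U := by rw [hU]; push_cast; rfl
  rw [← hU] at hP hTU hNt ⊢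
  rw [hUr]
  have hU1 : 1 ≤ U := by
    rw [hU]
    exact Nat.mul_pos hD1' hS1'
  obtain ⟨a, ha⟩ : ∃ a : ℕ, a = ga n m := ⟨_, rfl⟩
  obtain ⟨g, hg⟩ : ∃ g : ℕ, g = gg n m := ⟨_, rfl⟩
  rw [← ha] at h1 h2 h2'
  rw [← hg] at hP
  have hG : gG n m d = (a * m + g) + (a + 2) + ((a * m + g + 1) + a * 2) * d := by
    rw [gG, ha, hg]
  have hDr : (0 : ℝ) ≤ D := Nat.cast_nonneg _
  have htU : (2 : ℝ) ≤ (t : ℝ) ^ U := by
    calc (2 : ℝ) ≤ (t : ℝ) ^ 1 := by rw [pow_one]; linarith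
      _ ≤ (t : ℝ) ^ U := pow_le_pow_right₀ ht1 hU1
  -- size of P
  have hP1 : P ≤ ((t : ℝ) ^ U) ^ (a * m + g) := by
    calc P ≤ ((D : ℝ) + 1) ^ m * ((t : ℝ) ^ g) ^ U := hP
      _ ≤ ((t : ℝ) ^ a) ^ m * ((t : ℝ) ^ g) ^ U :=
          mul_le_mul_of_nonneg_right (pow_le_pow_left₀ (by positivity) h1 _) (by positivity)
      _ ≤ (((t : ℝ) ^ a) ^ m) ^ U * ((t : ℝ) ^ g) ^ U := by
          refine mul_le_mul_of_nonneg_right ?_ (by positivity)
          exact le_self_pow₀ (one_le_pow₀ (one_le_pow₀ ht1)) (by omega)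
      _ = ((t : ℝ) ^ U) ^ (a * m + g) := by
          rw [← pow_mul, ← pow_mul, ← pow_mul, ← pow_mul, ← pow_add]
          congr 1
          ring
  have hP2 : P + 1 ≤ ((t : ℝ) ^ U) ^ (a * m + g + 1) := by
    have h3 : (1 : ℝ) ≤ ((t : ℝ) ^ U) ^ (a * m + g) := one_le_pow₀ (one_le_pow₀ ht1)
    calc P + 1 ≤ ((t : ℝ) ^ U) ^ (a * m + g) + ((t : ℝ) ^ U) ^ (a * m + g) := add_le_add hP1 h3
      _ = ((t : ℝ) ^ U) ^ (a * m + g) * 2 := by ring
      _ ≤ ((t : ℝ) ^ U) ^ (a * m + g) * (t : ℝ) ^ U :=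
          mul_le_mul_of_nonneg_left htU (by positivity)
      _ = ((t : ℝ) ^ U) ^ (a * m + g + 1) := by rw [pow_succ]
  -- exponentials
  have hE : Real.exp (81 * (A * U)) ≤ (t : ℝ) ^ U := by
    have h3 : 81 * (A * (U : ℝ)) = (U : ℝ) * (81 * A) := by ring
    rw [h3, Real.exp_nat_mul]
    exact pow_le_pow_left₀ (Real.exp_pos _).le ht.hexp _
  have hE1 : Real.exp (A * U) ≤ (t : ℝ) ^ U := by
    refine le_trans (Real.exp_le_exp.2 ?_) hE
    have : 0 ≤ A * (U : ℝ) := by positivity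
    linarith
  have hAT : (A * D) ^ T ≤ ((t : ℝ) ^ U) ^ a := by
    calc (A * D) ^ T ≤ ((t : ℝ) ^ a) ^ T := pow_le_pow_left₀ (by positivity) h2 _
      _ ≤ ((t : ℝ) ^ a) ^ U := pow_le_pow_right₀ (one_le_pow₀ ht1) hTU
      _ = ((t : ℝ) ^ U) ^ a := by rw [← pow_mul, ← pow_mul, Nat.mul_comm]
  have h81 : ((81 : ℝ) ^ (N - T))⁻¹ ≤ (9 ^ N)⁻¹ := by
    refine inv_anti₀ (by positivity) ?_
    have h3 : (81 : ℝ) ^ (N - T) = 9 ^ (2 * (N - T)) := by
      rw [pow_mul]; norm_num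
    rw [h3]
    refine pow_le_pow_right₀ (by norm_num) ?_
    have h4 : 2 * T ≤ N := by
      rw [hNt]
      exact Nat.mul_le_mul (by omega) hTU
    omega
  have hF1 : P / 9 ^ N * Real.exp (A * U) +
      P * ((A * D) ^ T * (((81 : ℝ) ^ (N - T))⁻¹ * Real.exp (81 * (A * U)))) ≤
      (9 ^ N)⁻¹ * ((t : ℝ) ^ U) ^ ((a * m + g) + (a + 2)) := by
    calc P / 9 ^ N * Real.exp (A * U) +
        P * ((A * D) ^ T * (((81 : ℝ) ^ (N - T))⁻¹ * Real.exp (81 * (A * U))))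
        ≤ P / 9 ^ N * (t : ℝ) ^ U + P * (((t : ℝ) ^ U) ^ a * ((9 ^ N)⁻¹ * (t : ℝ) ^ U)) := by
          refine add_le_add (mul_le_mul_of_nonneg_left hE1 (by positivity)) ?_
          refine mul_le_mul_of_nonneg_left ?_ hP0
          refine mul_le_mul hAT ?_ (by positivity) (by positivity)
          exact mul_le_mul h81 hE (Real.exp_pos _).le (by positivity)
      _ = (9 ^ N)⁻¹ * (P * ((t : ℝ) ^ U + ((t : ℝ) ^ U) ^ (a + 1))) := by
          rw [pow_succ, div_eq_mul_inv]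
          ring
      _ ≤ (9 ^ N)⁻¹ * (((t : ℝ) ^ U) ^ (a * m + g) * ((t : ℝ) ^ U) ^ (a + 2)) := by
          refine mul_le_mul_of_nonneg_left ?_ (by positivity)
          refine mul_le_mul hP1 ?_ (by positivity) (by positivity)
          have h3 : (t : ℝ) ^ U ≤ ((t : ℝ) ^ U) ^ (a + 1) :=
            le_self_pow₀ (one_le_pow₀ ht1) (by omega)
          calc (t : ℝ) ^ U + ((t : ℝ) ^ U) ^ (a + 1)
              ≤ ((t : ℝ) ^ U) ^ (a + 1) * 2 := by linarith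
            _ ≤ ((t : ℝ) ^ U) ^ (a + 1) * (t : ℝ) ^ U :=
                mul_le_mul_of_nonneg_left htU (by positivity)
            _ = ((t : ℝ) ^ U) ^ (a + 2) := by rw [← pow_succ]
      _ = _ := by rw [← pow_add]
  have hF2 : (P + 1) * (C1 * D) ^ (T + U) ≤ ((t : ℝ) ^ U) ^ ((a * m + g + 1) + a * 2) := by
    calc (P + 1) * (C1 * D) ^ (T + U)
        ≤ ((t : ℝ) ^ U) ^ (a * m + g + 1) * ((t : ℝ) ^ a) ^ (U * 2) := by
          refine mul_le_mul hP2 ?_ (by positivity) (by positivity)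
          calc (C1 * D) ^ (T + U) ≤ ((t : ℝ) ^ a) ^ (T + U) :=
                pow_le_pow_left₀ (by positivity) h2' _
            _ ≤ ((t : ℝ) ^ a) ^ (U * 2) := pow_le_pow_right₀ (one_le_pow₀ ht1) (by omega)
      _ = _ := by
          rw [← pow_mul, ← pow_mul, ← pow_mul, ← pow_add]
          congr 1
          ring
  have hF1' : 0 ≤ (9 ^ N)⁻¹ * ((t : ℝ) ^ U) ^ ((a * m + g) + (a + 2)) := by positivity
  calc (P / 9 ^ N * Real.exp (A * U) +
      P * ((A * D) ^ T * (((81 : ℝ) ^ (N - T))⁻¹ * Real.exp (81 * (A * U))))) *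
      ((P + 1) * (C1 * D) ^ (T + U)) ^ d
      ≤ ((9 ^ N)⁻¹ * ((t : ℝ) ^ U) ^ ((a * m + g) + (a + 2))) *
        (((t : ℝ) ^ U) ^ ((a * m + g + 1) + a * 2)) ^ d :=
        mul_le_mul hF1 (pow_le_pow_left₀ (by positivity) hF2 _) (by positivity) hF1'
    _ = (9 ^ N)⁻¹ * ((t : ℝ) ^ (gG n m d)) ^ U := by
        rw [hG, mul_assoc]
        congr 1
        rw [← pow_mul, ← pow_mul, ← pow_mul, ← pow_mul, ← pow_add]
        congr 1
        ring
    _ < (9 ^ N)⁻¹ * ((9 : ℝ) ^ t) ^ U := by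
        refine mul_lt_mul_of_pos_left ?_ (by positivity)
        exact pow_lt_pow_left₀ ht.hG (by positivity) (by omega)
    _ = 1 := by
        rw [hNt, ← pow_mul]
        exact inv_mul_cancel₀ (by positivity)

end MP60829e.ST
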