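import Mathlib

/-! # Small values of integer combinations (pigeonhole) -/

open Finset

namespace MP60829e.ST

attribute [local instance] Matrix.seminormedAddCommGroup

/-- Integer coefficients, not all zero and not too large, such that all the given complex linear
forms are small. `R` measures the excess of the number of unknowns over the number of forms. -/
theorem exists_small {α β : Type} [Fintype α] [Fintype β] (L : α → β → ℂ) (B : ℝ) (hB1 : 1 ≤ B)
    (hL : ∀ a b, ‖L a b‖ ≤ B) (H R : ℕ) (hR : 1 ≤ R)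
    (hα : 0 < Fintype.card α)
    (hcard : (R + 1) * (2 * Fintype.card α) ≤ Fintype.card β) :
    ∃ p : β → ℤ, p ≠ 0 ∧ (∀ b, |((p b : ℤ) : ℝ)| ^ R ≤ Fintype.card β * (H * B + 1)) ∧
      ∀ a, ‖∑ b, (p b : ℂ) * L a b‖ * H ≤ ∑ b, |((p b : ℤ) : ℝ)| := by
  classical
  have hB0 : 0 ≤ B := le_trans zero_le_one hB1
  set A : Matrix (α ⊕ α) β ℤ := fun i b => Sum.elim (fun a => round ((H : ℝ) * (L a b).re))
    (fun a => round ((H : ℝ) * (L a b).im)) i with hA
  have hcardα : Fintype.card (α ⊕ α) = 2 * Fintype.card α := by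
    rw [Fintype.card_sum]; ring
  have hlt : Fintype.card (α ⊕ α) < Fintype.card β := by
    rw [hcardα]
    refine lt_of_lt_of_le ?_ hcard
    nlinarith
  obtain ⟨p, hp0, hpA, hpn⟩ := Int.Matrix.exists_ne_zero_int_vec_norm_le A hlt (by
    rw [hcardα]; omega)
  have hround : ∀ x : ℝ, |x| ≤ H * B → |((round x : ℤ) : ℝ)| ≤ H * B + 1 := by
    intro x hx
    have h1 := abs_sub_round x
    have h2 : |((round x : ℤ) : ℝ)| ≤ |x| + |x - round x| := by
      have : ((round x : ℤ) : ℝ) = x - (x - round x) := by ring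
      calc |((round x : ℤ) : ℝ)| = |x - (x - round x)| := by rw [← this]
        _ ≤ |x| + |x - round x| := abs_sub _ _
    linarith
  have hre : ∀ a b, |(H : ℝ) * (L a b).re| ≤ H * B := by
    intro a b
    rw [abs_mul, Nat.abs_cast]
    exact mul_le_mul_of_nonneg_left ((Complex.abs_re_le_norm _).trans (hL a b)) (Nat.cast_nonneg _)
  have him : ∀ a b, |(H : ℝ) * (L a b).im| ≤ H * B := by
    intro a b
    rw [abs_mul, Nat.abs_cast]
    exact mul_le_mul_of_nonneg_left ((Complex.abs_im_le_norm _).trans (hL a b)) (Nat.cast_nonneg _)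
  have hHB : 0 ≤ (H : ℝ) * B := mul_nonneg (Nat.cast_nonneg _) hB0
  have hAn : ‖A‖ ≤ H * B + 1 := by
    rw [Matrix.norm_le_iff (by linarith)]
    intro i b
    rw [Int.norm_eq_abs]
    rcases i with a | a
    · exact hround _ (hre a b)
    · exact hround _ (him a b)
  refine ⟨p, hp0, ?_, ?_⟩
  · intro b
    set n : ℝ := (Fintype.card β : ℝ) with hn
    set m : ℝ := (Fintype.card (α ⊕ α) : ℝ) with hm
    have hbase : 1 ≤ n * max 1 ‖A‖ := by
      have h1 : (1 : ℝ) ≤ n := by
        rw [hn]
        exact_mod_cast (Nat.one_le_iff_ne_zero.2 (by omega))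
      exact one_le_mul_of_one_le_of_one_le h1 (le_max_left _ _)
    have hm0 : 0 < m := by
      rw [hm, hcardα]
      exact_mod_cast (by omega : 0 < 2 * Fintype.card α)
    have hnm : R * m ≤ n - m := by
      have h1 : ((R : ℝ) + 1) * m ≤ n := by
        rw [hm, hn, hcardα]
        exact_mod_cast hcard
      linarith
    have hR0 : (0 : ℝ) < R := by exact_mod_cast hR
    have hnm0 : 0 < n - m := lt_of_lt_of_le (mul_pos hR0 hm0) hnm
    have hexp : m / (n - m) * R ≤ 1 := by
      rw [div_mul_eq_mul_div, div_le_one hnm0]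
      linarith
    have h1 : |((p b : ℤ) : ℝ)| ≤ (n * max 1 ‖A‖) ^ (m / (n - m)) := by
      have h2 := norm_le_pi_norm p b
      rw [Int.norm_eq_abs] at h2
      exact h2.trans hpn
    calc |((p b : ℤ) : ℝ)| ^ R ≤ ((n * max 1 ‖A‖) ^ (m / (n - m))) ^ R :=
          pow_le_pow_left₀ (abs_nonneg _) h1 R
      _ = (n * max 1 ‖A‖) ^ (m / (n - m) * R) := by
          rw [Real.rpow_mul (by positivity), Real.rpow_natCast]
      _ ≤ (n * max 1 ‖A‖) ^ (1 : ℝ) := Real.rpow_le_rpow_of_exponent_le hbase hexp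
      _ = n * max 1 ‖A‖ := Real.rpow_one _
      _ ≤ n * (H * B + 1) := by
          refine mul_le_mul_of_nonneg_left (max_le (by linarith) hAn) (Nat.cast_nonneg _)
  · intro a
    have h1 : ∑ b, ((round ((H : ℝ) * (L a b).re) : ℤ) : ℂ) * (p b : ℂ) = 0 := by
      have h2 := congrFun hpA (Sum.inl a)
      rw [Matrix.mulVec, dotProduct, Pi.zero_apply] at h2
      exact_mod_cast congrArg (Int.cast : ℤ → ℂ) h2
    have h1' : ∑ b, ((round ((H : ℝ) * (L a b).im) : ℤ) : ℂ) * (p b : ℂ) = 0 := by
      have h2 := congrFun hpA (Sum.inr a)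
      rw [Matrix.mulVec, dotProduct, Pi.zero_apply] at h2
      exact_mod_cast congrArg (Int.cast : ℤ → ℂ) h2
    have h3 : (∑ b, (p b : ℂ) * L a b) * H = ∑ b, (p b : ℂ) *
        ((((H : ℝ) * (L a b).re - round ((H : ℝ) * (L a b).re) : ℝ) : ℂ) +
          (((H : ℝ) * (L a b).im - round ((H : ℝ) * (L a b).im) : ℝ) : ℂ) * Complex.I) := by
      have h4 : ∀ b, (p b : ℂ) *
        ((((H : ℝ) * (L a b).re - round ((H : ℝ) * (L a b).re) : ℝ) : ℂ) +
          (((H : ℝ) * (L a b).im - round ((H : ℝ) * (L a b).im) : ℝ) : ℂ) * Complex.I) =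
          (p b : ℂ) * L a b * H - ((round ((H : ℝ) * (L a b).re) : ℤ) : ℂ) * (p b : ℂ) -
            (((round ((H : ℝ) * (L a b).im) : ℤ) : ℂ) * (p b : ℂ)) * Complex.I := by
        intro b
        have e := Complex.re_add_im (L a b)
        push_cast
        linear_combination ((p b : ℂ) * H) * e
      rw [Finset.sum_congr rfl fun b _ => h4 b, Finset.sum_sub_distrib, Finset.sum_sub_distrib,
        h1, ← Finset.sum_mul, ← Finset.sum_mul, h1', zero_mul, sub_zero, sub_zero]
    calc ‖∑ b, (p b : ℂ) * L a b‖ * H = ‖(∑ b, (p b : ℂ) * L a b) * H‖ := by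
          rw [norm_mul, Complex.norm_natCast]
      _ ≤ ∑ b, |((p b : ℤ) : ℝ)| := by
          rw [h3]
          refine (norm_sum_le _ _).trans (Finset.sum_le_sum fun b _ => ?_)
          rw [norm_mul, Complex.norm_intCast]
          refine mul_le_of_le_one_right (abs_nonneg _) ?_
          refine (norm_add_le _ _).trans ?_
          rw [norm_mul, Complex.norm_I, mul_one, Complex.norm_real, Complex.norm_real,
            Real.norm_eq_abs, Real.norm_eq_abs]
          have h5 := abs_sub_round ((H : ℝ) * (L a b).re)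
          have h6 := abs_sub_round ((H : ℝ) * (L a b).im)
          linarith

end MP60829e.ST
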