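import Mathlib
import Pool.Agent.Lib.MP_60829e_nt.ST.AuxPig
import Pool.Agent.Lib.MP_60829e_nt.ST.AuxExp
import Pool.Agent.Lib.MP_60829e_nt.ST.AuxLiou
import Pool.Agent.Lib.MP_60829e_nt.ST.AuxNum
import Pool.Agent.Lib.MP_60829e_nt.ST.AuxDers

/-! # The auxiliary polynomial -/

open MvPolynomial NumberField

namespace MP60829e.ST

/-- A number field which contains the given algebraic numbers. -/
theorem exists_field {σ J : Type} [Finite σ] [Finite J] {n : ℕ} (q : Fin n → σ → ℂ)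
    (hq : ∀ j i, IsAlgebraic ℚ (q j i)) (e : J × σ → ℂ) (he : ∀ x, IsAlgebraic ℚ (e x)) :
    ∃ (K : Type) (_ : Field K) (_ : NumberField K) (φ : K →+* ℂ) (qK : Fin n → σ → K)
      (eK : J × σ → K), (∀ j i, φ (qK j i) = q j i) ∧ ∀ x, φ (eK x) = e x := by
  obtain ⟨R, hR⟩ : ∃ R : Set ℂ, R = Set.range (fun x : Fin n × σ => q x.1 x.2) ∪ Set.range e :=
    ⟨_, rfl⟩
  have hRint : ∀ z ∈ R, IsIntegral ℚ z := by
    intro z hz
    rw [hR] at hz
    rcases hz with ⟨x, rfl⟩ | ⟨x, rfl⟩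
    · exact (hq _ _).isIntegral
    · exact (he _).isIntegral
  haveI : Finite R := by
    rw [hR]
    exact (Set.finite_range _).union (Set.finite_range _)
  haveI hfd : FiniteDimensional ℚ (IntermediateField.adjoin ℚ R) :=
    IntermediateField.finiteDimensional_adjoin hRint
  haveI hnf : NumberField (IntermediateField.adjoin ℚ R) := ⟨⟩
  exact ⟨IntermediateField.adjoin ℚ R, inferInstance, hnf,
    algebraMap (IntermediateField.adjoin ℚ R) ℂ,
    fun j i => ⟨q j i, IntermediateField.subset_adjoin ℚ R (by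
      rw [hR]; exact Or.inl ⟨(j, i), rfl⟩)⟩,
    fun x => ⟨e x, IntermediateField.subset_adjoin ℚ R (by rw [hR]; exact Or.inr ⟨x, rfl⟩)⟩,
    fun _ _ => rfl, fun _ => rfl⟩

/-- The image of the value of the auxiliary polynomial in the field. -/
theorem map_xi {K σ J : Type} [Field K] [NumberField K] [Fintype σ] [DecidableEq σ] [Fintype J]
    {n : ℕ} (φ : K →+* ℂ) (q : Fin n → σ → ℂ) (y : J → σ → ℂ) (qK : Fin n → σ → K)
    (eK : J × σ → K) (hqK : ∀ j i, φ (qK j i) = q j i)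
    (heK : ∀ x, φ (eK x) = Complex.exp (y x.1 x.2)) {D : ℕ} (p : (σ → Fin (D + 1)) → ℤ)
    (μ : Fin n → ℕ) (s : J → ℕ) :
    φ (xi qK eK p μ s) = ∑ a, (p a : ℂ) * (∏ j, pr (q j) (ex a) ^ μ j) *
      Complex.exp (pr (∑ j, (s j : ℂ) • y j) (ex a)) := by
  unfold xi
  rw [map_sum]
  apply Finset.sum_congr rfl
  intro a _
  rw [map_mul, map_mul, map_intCast, map_prod, map_prod]
  congr 1
  · congr 1
    apply Finset.prod_congr rfl
    intro j _
    rw [map_pow, map_sum, pr_ex]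
    congr 1
    apply Finset.sum_congr rfl
    intro i _
    rw [map_mul, map_natCast, hqK]
  · rw [pr_sum_left, Fintype.prod_prod_type, Complex.exp_sum]
    apply Finset.prod_congr rfl
    intro j _
    rw [pr_ex, Finset.mul_sum, Complex.exp_sum]
    apply Finset.prod_congr rfl
    intro i _
    rw [map_pow, heK, ← Complex.exp_nat_mul]
    congr 1
    push_cast
    ring

/-- **The auxiliary polynomial.** -/
theorem exists_aux {σ J : Type} [Fintype σ] [Fintype J] {n : ℕ} (hn : n + 2 = Fintype.card σ)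
    (q : Fin n → σ → ℂ) (hq : ∀ j i, IsAlgebraic ℚ (q j i)) (v0 : σ → ℂ) (y : J → σ → ℂ)
    (hy : ∀ j, y j ∈ Submodule.span ℂ (insert v0 (Set.range q)))
    (hy' : ∀ j i, IsAlgebraic ℚ (Complex.exp (y j i))) (C0 : ℕ) :
    ∃ t0 : ℕ, ∀ t, t0 ≤ t → ∃ P : MvPolynomial σ ℂ, P ≠ 0 ∧
      P ∈ Bx σ (t ^ (4 * (n + 2) * (n + 1))) ∧
      ∀ s : J → ℕ, (∀ j, s j ≤ C0 * t ^ (4 * (n + 1))) → ∀ ws : List (σ → ℂ),
        (∀ w ∈ ws, w ∈ Submodule.span ℂ (Set.range q)) →
        ws.length ≤ C0 * t ^ (4 * (n + 2) * (n + 1)) →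
        ev (∑ j, (s j : ℂ) • y j) (ders ws P) = 0 := by
  classical
  obtain ⟨K, _, _, φ, qK, eK, hqK, heK⟩ := exists_field q hq (fun x => Complex.exp (y x.1 x.2))
    (fun x => hy' x.1 x.2)
  obtain ⟨C1, hC1, hliou⟩ := liou φ qK eK
  -- coordinates of the points
  obtain ⟨Q, hQ⟩ : ∃ Q : Fin (n + 1) → σ → ℂ, Q = Fin.cons v0 q := ⟨_, rfl⟩
  have hQr : Set.range Q = insert v0 (Set.range q) := by
    rw [hQ, Fin.range_cons]
  have hc : ∀ j, ∃ c : Fin (n + 1) → ℂ, ∑ i, c i • Q i = y j := by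
    intro j
    have h := hy j
    rw [← hQr] at h
    exact Submodule.mem_span_range_iff_exists_fun ℂ |>.1 h
  choose c hc using hc
  -- constants
  obtain ⟨A1, hA1⟩ : ∃ A1 : ℝ, A1 = ∑ i, ∑ k, ‖Q i k‖ := ⟨_, rfl⟩
  obtain ⟨A0, hA0⟩ : ∃ A0 : ℝ, A0 = (∑ i, ∑ j, ‖c j i‖) * C0 := ⟨_, rfl⟩
  have hA10 : 0 ≤ A1 := by
    rw [hA1]
    exact Finset.sum_nonneg fun i _ => Finset.sum_nonneg fun k _ => norm_nonneg _
  have hA00 : 0 ≤ A0 := by
    rw [hA0]
    exact mul_nonneg (Finset.sum_nonneg fun i _ => Finset.sum_nonneg fun k _ => norm_nonneg _)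
      (Nat.cast_nonneg _)
  have hA01 : 0 ≤ A0 * A1 := mul_nonneg hA00 hA10
  obtain ⟨A, hA⟩ : ∃ A : ℝ, A = A1 + A0 + A0 * A1 + 1 := ⟨_, rfl⟩
  have hAone : 1 ≤ A := by rw [hA]; linarith
  obtain ⟨m, hm⟩ : ∃ m : ℕ, m = n + 2 := ⟨_, rfl⟩
  obtain ⟨d, hd⟩ : ∃ d : ℕ, d = (C0 + 1) * (2 * Module.finrank ℚ K) := ⟨_, rfl⟩
  obtain ⟨t0, ht0⟩ := exists_big A C1 C0 (gG n m d)
  refine ⟨t0, fun t ht => ?_⟩
  have big := ht0 t ht
  rw [← hm]
  obtain ⟨D, hD⟩ : ∃ D : ℕ, D = t ^ (4 * m * (n + 1)) := ⟨_, rfl⟩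
  obtain ⟨S, hS⟩ : ∃ S : ℕ, S = t ^ (4 * (n + 1)) := ⟨_, rfl⟩
  obtain ⟨N, hN⟩ : ∃ N : ℕ, N = t ^ (4 * m * (n + 1) + 4 * (n + 1) + 1) := ⟨_, rfl⟩
  rw [← hD, ← hS]
  have h18 := big.h18
  have hD1 : 1 ≤ D := by
    rw [hD]
    exact Nat.one_le_pow _ _ (by omega)
  have hS1 : 1 ≤ S := by
    rw [hS]
    exact Nat.one_le_pow _ _ (by omega)
  have hN1 : 1 ≤ N := by
    rw [hN]
    exact Nat.one_le_pow _ _ (by omega)
  have hDr : (1 : ℝ) ≤ D := by exact_mod_cast hD1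
  have hSr : (1 : ℝ) ≤ S := by exact_mod_cast hS1
  have hAD : 1 ≤ A * D := one_le_mul_of_one_le_of_one_le hAone hDr
  -- the linear forms
  have hprQ : ∀ i (a : σ → Fin (D + 1)), ‖pr (Q i) (ex a)‖ ≤ A1 * D := by
    intro i a
    refine (pr_ex_norm _ _).trans (mul_le_mul_of_nonneg_right ?_ (Nat.cast_nonneg _))
    rw [hA1]
    exact Finset.single_le_sum (f := fun i => ∑ k, ‖Q i k‖)
      (fun i _ => Finset.sum_nonneg fun k _ => norm_nonneg _) (Finset.mem_univ i)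
  have hA1A : A1 * D ≤ A * D := by
    refine mul_le_mul_of_nonneg_right ?_ (Nat.cast_nonneg _)
    rw [hA]; linarith
  have hl : ∀ i (a : σ → Fin (D + 1)), ‖pr (Q i) (ex a)‖ ≤ A * D :=
    fun i a => (hprQ i a).trans hA1A
  have hcardα : Fintype.card (Fin (n + 1) → Fin N) = N ^ (n + 1) := by
    rw [Fintype.card_fun, Fintype.card_fin, Fintype.card_fin]
  have hcardβ : Fintype.card (σ → Fin (D + 1)) = (D + 1) ^ m := by
    rw [Fintype.card_fun, Fintype.card_fin, ← hn, hm]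
  obtain ⟨p, hp0, hpb, hps⟩ := exists_small
    (fun (κ : Fin (n + 1) → Fin N) (a : σ → Fin (D + 1)) => ∏ i, pr (Q i) (ex a) ^ (κ i : ℕ))
    ((A * D) ^ ((n + 1) * N)) (one_le_pow₀ hAD) (by
      intro κ a
      refine prod_pow_norm _ _ hAD (fun i => hl i a) (fun i => (κ i : ℕ)) _ ?_
      calc ∑ i, (κ i : ℕ) ≤ ∑ _i : Fin (n + 1), N := Finset.sum_le_sum fun i _ => (κ i).2.le
        _ = (n + 1) * N := by
          rw [Finset.sum_const, Finset.card_univ, Fintype.card_fin, smul_eq_mul])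
    (9 ^ N) t (by omega) (by
      rw [hcardα]
      exact Nat.pow_pos hN1) (by
      rw [hcardα, hcardβ]
      exact num_count hm hD hN h18)
  rw [hcardβ] at hpb
  refine ⟨auxP p, auxP_ne p hp0, auxP_mem p, ?_⟩
  intro s hs
  apply ev_ders_span
  intro js hjs
  obtain ⟨μ, hμ, hμf⟩ := list_prod js
  rw [ev_ders_auxP]
  by_contra hne
  have hval : ∑ a, (p a : ℂ) * ((js.map q).map fun w => pr w (ex a)).prod *
      Complex.exp (pr (∑ j, (s j : ℂ) • y j) (ex a)) = φ (xi qK eK p μ s) := by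
    rw [map_xi φ q y qK eK hqK heK]
    apply Finset.sum_congr rfl
    intro a _
    rw [List.map_map, ← hμf]
    rfl
  rw [hval] at hne
  have hlow := hliou D (C0 * S + 1) (C0 * D) hD1 p μ s (by rw [hμ]; exact hjs)
    (fun j => Nat.lt_succ_of_le (hs j)) (fun h => hne (by rw [h, map_zero]))
  -- size of the coefficients
  obtain ⟨P, hP⟩ : ∃ P : ℝ, P = ∑ a, |((p a : ℤ) : ℝ)| := ⟨_, rfl⟩
  have hP0 : 0 ≤ P := by
    rw [hP]
    exact Finset.sum_nonneg fun a _ => abs_nonneg _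
  have hPle : P ≤ ((D : ℝ) + 1) ^ m * ((t : ℝ) ^ (gg n m)) ^ (D * S) := by
    rw [hP]
    calc ∑ a, |((p a : ℤ) : ℝ)| ≤ ∑ _a : σ → Fin (D + 1), ((t : ℝ) ^ (gg n m)) ^ (D * S) := by
          apply Finset.sum_le_sum
          intro a _
          refine num_coef hD hS hN hAone h18 big.hA _ ?_
          refine (hpb a).trans (le_of_eq ?_)
          push_cast
          ring
      _ = ((D : ℝ) + 1) ^ m * ((t : ℝ) ^ (gg n m)) ^ (D * S) := by
          rw [Finset.sum_const, Finset.card_univ, hcardβ, nsmul_eq_mul]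
          push_cast
          ring
  rw [← hP] at hlow
  have hTN : C0 * D ≤ N := by
    rw [num_N hD hS hN]
    calc C0 * D ≤ D * S := num_T hS big.hC0
      _ ≤ t * (D * S) := Nat.le_mul_of_pos_left _ (by omega)
  -- the coordinates of the point
  obtain ⟨Cc, hCc⟩ : ∃ Cc : Fin (n + 1) → ℂ, Cc = fun i => ∑ j, (s j : ℂ) * c j i := ⟨_, rfl⟩
  have hys : ∑ j, (s j : ℂ) • y j = ∑ i, Cc i • Q i := by
    rw [hCc]
    calc ∑ j, (s j : ℂ) • y j = ∑ j, ∑ i, ((s j : ℂ) * c j i) • Q i := by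
          apply Finset.sum_congr rfl
          intro j _
          rw [← hc j, Finset.smul_sum]
          apply Finset.sum_congr rfl
          intro i _
          rw [smul_smul]
      _ = _ := by
          rw [Finset.sum_comm]
          apply Finset.sum_congr rfl
          intro i _
          rw [Finset.sum_smul]
  have hCsum : ∑ i, ‖Cc i‖ ≤ A0 * S := by
    rw [hA0, hCc, mul_assoc, Finset.sum_mul]
    apply Finset.sum_le_sum
    intro i _
    rw [Finset.sum_mul]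
    refine (norm_sum_le _ _).trans (Finset.sum_le_sum fun j _ => ?_)
    rw [norm_mul, Complex.norm_natCast, mul_comm]
    refine mul_le_mul_of_nonneg_left ?_ (norm_nonneg _)
    exact_mod_cast hs j
  have hCsum' : ∑ i, ‖Cc i‖ ≤ A * (D * S) := by
    refine hCsum.trans ?_
    calc A0 * (S : ℝ) ≤ A * (S : ℝ) := by
          refine mul_le_mul_of_nonneg_right ?_ (Nat.cast_nonneg _)
          rw [hA]; linarith
      _ ≤ A * (D * S) := by
          refine mul_le_mul_of_nonneg_left ?_ (by linarith)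
          exact le_mul_of_one_le_left (Nat.cast_nonneg _) hDr
  have hY : ∀ a : σ → Fin (D + 1), ‖∑ i, Cc i * pr (Q i) (ex a)‖ ≤ A * (D * S) := by
    intro a
    calc ‖∑ i, Cc i * pr (Q i) (ex a)‖ ≤ ∑ i, ‖Cc i‖ * (A1 * D) := by
          refine (norm_sum_le _ _).trans (Finset.sum_le_sum fun i _ => ?_)
          rw [norm_mul]
          exact mul_le_mul_of_nonneg_left (hprQ i a) (norm_nonneg _)
      _ = (∑ i, ‖Cc i‖) * (A1 * D) := by rw [Finset.sum_mul]
      _ ≤ (A0 * S) * (A1 * D) := mul_le_mul_of_nonneg_right hCsum (by positivity)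
      _ = A0 * A1 * (D * S) := by ring
      _ ≤ A * (D * S) := by
          refine mul_le_mul_of_nonneg_right ?_ (by positivity)
          rw [hA]; linarith
  have hup := exp_small (fun i (a : σ → Fin (D + 1)) => pr (Q i) (ex a)) (fun a => (p a : ℂ)) N
    (P / 9 ^ N) (by positivity) (by
      intro κ hκ
      have h1 := hps fun i => ⟨κ i, hκ i⟩
      rw [← hP] at h1
      rw [le_div_iff₀ (by positivity)]
      simpa using h1) Cc (Fin.cons 0 μ) (N - C0 * D) (C0 * D) (by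
      rw [Fin.sum_univ_succ]
      simp only [Fin.cons_zero, Fin.cons_succ, Nat.zero_add]
      rw [hμ]
      exact hjs) (by omega) (A * D) (A * (D * S)) 81 hAD hl hY (by norm_num)
  have hval2 : ∑ a : σ → Fin (D + 1), (p a : ℂ) *
      (∏ i, pr (Q i) (ex a) ^ ((Fin.cons 0 μ : Fin (n + 1) → ℕ) i)) *
      Complex.exp (∑ i, Cc i * pr (Q i) (ex a)) = φ (xi qK eK p μ s) := by
    rw [map_xi φ q y qK eK hqK heK, hys]
    apply Finset.sum_congr rfl
    intro a _
    rw [pr_sum_left, Fin.prod_univ_succ, hQ]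
    simp only [Fin.cons_zero, Fin.cons_succ, pow_zero, one_mul]
  rw [hval2] at hup
  have hPn : ∑ a : σ → Fin (D + 1), ‖((p a : ℤ) : ℂ)‖ = P := by
    rw [hP]
    apply Finset.sum_congr rfl
    intro a _
    rw [Complex.norm_intCast]
  rw [hPn] at hup
  have hup2 : ‖φ (xi qK eK p μ s)‖ ≤ P / 9 ^ N * Real.exp (A * (D * S)) +
      P * ((A * D) ^ (C0 * D) * (((81 : ℝ) ^ (N - C0 * D))⁻¹ *
        Real.exp (81 * (A * (D * S))))) := by
    refine hup.trans (add_le_add ?_ le_rfl)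
    exact mul_le_mul_of_nonneg_left (Real.exp_le_exp.2 hCsum') (by positivity)
  have hfin := num_final hD hS hN hAone hC1 big le_rfl P hP0 hPle
  rw [hd] at hfin
  refine absurd (hlow.trans ?_) (not_le.mpr hfin)
  have hCD : 1 ≤ C1 * D := one_le_mul_of_one_le_of_one_le hC1 hDr
  refine mul_le_mul hup2 ?_ (by positivity) (by positivity)
  rw [pow_mul _ (C0 + 1) (2 * Module.finrank ℚ K)]
  refine pow_le_pow_left₀ (by positivity) ?_ _
  rw [mul_pow (P + 1) ((C1 * (D : ℝ)) ^ (C0 * D + D * S)) (C0 + 1), ← pow_mul]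
  have hP1 : (1 : ℝ) ≤ P + 1 := by linarith
  have hP2 : P + 1 ≤ (P + 1) ^ (C0 + 1) := le_self_pow₀ hP1 (Nat.succ_ne_zero C0)
  refine mul_le_mul hP2 ?_ (by positivity) (by positivity)
  refine pow_le_pow_right₀ hCD ?_
  calc C0 * D + D * (C0 * S + 1) ≤ C0 * D + D * (C0 * S + S) + C0 * (C0 * D) := by
        have := Nat.mul_le_mul_left D (Nat.add_le_add_left hS1 (C0 * S))
        omega
    _ = (C0 * D + D * S) * (C0 + 1) := by ring

end MP60829e.ST
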