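import Mathlib
import Pool.Agent.Lib.MP_60829e_nt.ST.ZDefs

/-! # Definitions for the eight column theorem -/

open MvPolynomial Module

namespace MP60829e.ST

/-- The left linear form `∑ om i u i`. -/
noncomputable def fL {k : ℕ} (om : Fin (k + 1) → ℂ) :
    (Fin (k + 1) ⊕ Fin (k + 1) → ℂ) →ₗ[ℂ] ℂ where
  toFun v := ∑ i, om i * v (Sum.inl i)
  map_add' := by
    intro v w
    rw [← Finset.sum_add_distrib]
    exact Finset.sum_congr rfl fun i _ => by rw [Pi.add_apply, mul_add]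
  map_smul' := by
    intro c v
    rw [RingHom.id_apply, smul_eq_mul, Finset.mul_sum]
    exact Finset.sum_congr rfl fun i _ => by rw [Pi.smul_apply, smul_eq_mul]; ring

/-- The right linear form `∑ om i v i`. -/
noncomputable def fR {k : ℕ} (om : Fin (k + 1) → ℂ) :
    (Fin (k + 1) ⊕ Fin (k + 1) → ℂ) →ₗ[ℂ] ℂ where
  toFun v := ∑ i, om i * v (Sum.inr i)
  map_add' := by
    intro v w
    rw [← Finset.sum_add_distrib]
    exact Finset.sum_congr rfl fun i _ => by rw [Pi.add_apply, mul_add]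
  map_smul' := by
    intro c v
    rw [RingHom.id_apply, smul_eq_mul, Finset.mul_sum]
    exact Finset.sum_congr rfl fun i _ => by rw [Pi.smul_apply, smul_eq_mul]; ring

/-- The common kernel. -/
noncomputable def Wsub {k : ℕ} (om : Fin (k + 1) → ℂ) :
    Submodule ℂ (Fin (k + 1) ⊕ Fin (k + 1) → ℂ) := LinearMap.ker (fL om) ⊓ LinearMap.ker (fR om)

theorem mem_Wsub {k : ℕ} {om : Fin (k + 1) → ℂ} {v : Fin (k + 1) ⊕ Fin (k + 1) → ℂ} :
    v ∈ Wsub om ↔ fL om v = 0 ∧ fR om v = 0 := by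
  unfold Wsub
  rw [Submodule.mem_inf, LinearMap.mem_ker, LinearMap.mem_ker]

theorem fL_apply {k : ℕ} (om : Fin (k + 1) → ℂ) (v : Fin (k + 1) ⊕ Fin (k + 1) → ℂ) :
    fL om v = ∑ i, om i * v (Sum.inl i) := rfl

theorem fR_apply {k : ℕ} (om : Fin (k + 1) → ℂ) (v : Fin (k + 1) ⊕ Fin (k + 1) → ℂ) :
    fR om v = ∑ i, om i * v (Sum.inr i) := rfl

/-- The rational relations between the classes of the points `η i`. -/
noncomputable def RelQ {σ ρ : Type} [Fintype σ] [Fintype ρ] (Λ : AddSubgroup (σ → ℤ))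
    (η : ρ → σ → ℂ) : Submodule ℚ (ρ → ℚ) :=
  Submodule.span ℚ {s : ρ → ℚ | ∃ s' : ρ → ℤ, (∀ i, s i = s' i) ∧
    Cong Λ (∑ i, (s' i : ℂ) • η i) 0}

end MP60829e.ST
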