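import Mathlib
import Pool.Agent.Lib.MP_60829e_nt.ST.ZDefs

/-! # Complementary coordinate subspaces -/

open MvPolynomial Module

namespace MP60829e.ST

/-- Every subspace has a complementary coordinate subspace.
PROOF. The restrictions of the coordinate functions to `U` span the dual of `U`; choose a basis of
the dual among them (`J`, `card J = finrank U`), and `I = Jᶜ`.  Then `v ∈ U` with `v i = 0` for all
`i ∈ J` is zero, and `U → F ^ J` is bijective. -/
theorem exists_coord {F ι : Type} [Field F] [Fintype ι] (U : Submodule F (ι → F)) :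
    ∃ I : Finset ι, I.card + finrank F U = Fintype.card ι ∧
      (∀ v ∈ U, (∀ i, i ∉ I → v i = 0) → v = 0) ∧
      ∀ y : ι → F, ∃ t ∈ U, ∀ i, i ∉ I → y i = t i := by
  classical
  set v : ι → Dual F U := fun i => (LinearMap.proj i : (ι → F) →ₗ[F] F).domRestrict U with hv
  have hfr : finrank F (Dual F U) = finrank F U := Subspace.dual_finrank_eq
  obtain ⟨κ, a, ha, hspan, hli⟩ := exists_linearIndependent' F v
  have hker : ∀ u : U, (∀ k, v (a k) u = 0) → u = 0 := by
    intro u hu
    have h1 : ∀ i, v i u = 0 := by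
      intro i
      have h2 : v i ∈ Submodule.span F (Set.range (v ∘ a)) := by
        rw [hspan]
        exact Submodule.subset_span ⟨i, rfl⟩
      have h3 : Submodule.span F (Set.range (v ∘ a)) ≤
          LinearMap.ker (Dual.eval F U u) := by
        rw [Submodule.span_le]
        rintro _ ⟨k, rfl⟩
        exact hu k
      exact h3 h2
    apply Subtype.ext
    funext i
    exact h1 i
  have : Fintype κ := Fintype.ofInjective a ha
  let E : U →ₗ[F] (κ → F) := LinearMap.pi fun k => v (a k)
  have hEinj : Function.Injective E := by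
    rw [← LinearMap.ker_eq_bot, LinearMap.ker_eq_bot']
    intro u hu
    exact hker u fun k => congrFun hu k
  have hle : Fintype.card κ ≤ finrank F U := by
    rw [← hfr]
    exact hli.fintype_card_le_finrank
  have hge : finrank F U ≤ Fintype.card κ := by
    have := LinearMap.finrank_le_finrank_of_injective hEinj
    rwa [finrank_fintype_fun_eq_card] at this
  have hEsurj : Function.Surjective E := by
    apply (LinearMap.injective_iff_surjective_of_finrank_eq_finrank _).1 hEinj
    rw [finrank_fintype_fun_eq_card]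
    omega
  set J : Finset ι := Finset.univ.image a with hJ
  have hJc : J.card = finrank F U := by
    rw [hJ, Finset.card_image_of_injective _ ha, Finset.card_univ]
    omega
  refine ⟨Jᶜ, ?_, ?_, ?_⟩
  · rw [← hJc, Finset.card_compl]
    have := Finset.card_le_univ J
    omega
  · intro w hw hw0
    have h1 : (⟨w, hw⟩ : U) = 0 := by
      apply hker
      intro k
      apply hw0
      rw [Finset.mem_compl, not_not, hJ]
      exact Finset.mem_image_of_mem _ (Finset.mem_univ k)
    exact congrArg Subtype.val h1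
  · intro y
    obtain ⟨t, ht⟩ := hEsurj fun k => y (a k)
    refine ⟨t.1, t.2, ?_⟩
    intro i hi
    rw [Finset.mem_compl, not_not, hJ, Finset.mem_image] at hi
    obtain ⟨k, -, rfl⟩ := hi
    exact (congrFun ht k).symm

/-- The projection of `W` to `ℂ ^ I` along `U`.
PROOF. `WI = {x | ∃ w ∈ W, ∃ t ∈ U, ext0 I x = w - t}`.  The linear map `W → ℂ ^ I` which sends `w`
to the restriction of `w - t` to `I`, `t ∈ U` the unique element with `w i = t i` off `I`, has image
in `WI` and kernel `W ⊓ U`. -/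
theorem exists_slice {σ : Type} [Fintype σ] (U W : Submodule ℂ (σ → ℂ)) (I : Finset σ)
    (h1 : ∀ v ∈ U, (∀ i, i ∉ I → v i = 0) → v = 0)
    (h2 : ∀ y : σ → ℂ, ∃ t ∈ U, ∀ i, i ∉ I → y i = t i) :
    ∃ WI : Submodule ℂ ({i // i ∈ I} → ℂ),
      finrank ℂ W ≤ finrank ℂ WI + finrank ℂ (W ⊓ U : Submodule ℂ (σ → ℂ)) ∧
      ∀ x ∈ WI, ∃ w ∈ W, ∃ t ∈ U, ext0 I x = w - t := by
  classical
  let R : U →ₗ[ℂ] ({i // i ∉ I} → ℂ) :=
    (LinearMap.pi fun i => LinearMap.proj i.1).domRestrict U
  have hRinj : Function.Injective R := by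
    rw [← LinearMap.ker_eq_bot, LinearMap.ker_eq_bot']
    intro u hu
    apply Subtype.ext
    exact h1 u.1 u.2 fun i hi => congrFun hu ⟨i, hi⟩
  have hRsurj : Function.Surjective R := by
    intro y
    obtain ⟨t, ht, hty⟩ := h2 fun i => if h : i ∉ I then y ⟨i, h⟩ else 0
    refine ⟨⟨t, ht⟩, ?_⟩
    funext i
    have := hty i.1 i.2
    rw [dif_pos i.2] at this
    exact this.symm
  let e : U ≃ₗ[ℂ] ({i // i ∉ I} → ℂ) := LinearEquiv.ofBijective R ⟨hRinj, hRsurj⟩
  let Q : (σ → ℂ) →ₗ[ℂ] (σ → ℂ) :=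
    U.subtype ∘ₗ (e.symm : ({i // i ∉ I} → ℂ) →ₗ[ℂ] U) ∘ₗ
      (LinearMap.pi fun i => LinearMap.proj i.1)
  have hQU : ∀ w, Q w ∈ U := fun w => (e.symm fun i => w i.1).2
  have hQoff : ∀ w i, i ∉ I → Q w i = w i := by
    intro w i hi
    have h3 : e (e.symm fun i : {i // i ∉ I} => w i.1) = fun i => w i.1 := e.apply_symm_apply _
    exact congrFun h3 ⟨i, hi⟩
  let q : W →ₗ[ℂ] ({i // i ∈ I} → ℂ) :=
    ((LinearMap.pi fun i => LinearMap.proj i.1) ∘ₗ (LinearMap.id - Q)).domRestrict W
  have hq : ∀ (w : W) (i : {i // i ∈ I}), q w i = w.1 i.1 - Q w.1 i.1 := fun w i => rfl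
  refine ⟨LinearMap.range q, ?_, ?_⟩
  · rw [← LinearMap.finrank_range_add_finrank_ker q]
    apply Nat.add_le_add_left
    have hmem : ∀ k : LinearMap.ker q, (k.1 : σ → ℂ) ∈ (W ⊓ U : Submodule ℂ (σ → ℂ)) := by
      intro k
      refine ⟨k.1.2, ?_⟩
      have h3 : (k.1 : σ → ℂ) = Q k.1 := by
        funext i
        by_cases hi : i ∈ I
        · have h4 : q k.1 = 0 := k.2
          have h5 := congrFun h4 ⟨i, hi⟩
          rw [hq] at h5
          exact sub_eq_zero.1 h5
        · exact (hQoff _ i hi).symm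
      rw [h3]
      exact hQU _
    let L : LinearMap.ker q →ₗ[ℂ] (W ⊓ U : Submodule ℂ (σ → ℂ)) :=
      LinearMap.codRestrict _ (W.subtype ∘ₗ (LinearMap.ker q).subtype) hmem
    apply LinearMap.finrank_le_finrank_of_injective (f := L)
    intro x y hxy
    apply Subtype.ext
    apply Subtype.ext
    have h3 : (L x).1 = (L y).1 := by rw [hxy]
    exact h3
  · rintro _ ⟨w, rfl⟩
    refine ⟨w.1, w.2, Q w.1, hQU _, ?_⟩
    funext i
    by_cases hi : i ∈ I
    · rw [ext0_mem I _ i hi, hq]
      rfl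
    · rw [ext0_notMem I _ i hi, Pi.sub_apply, hQoff _ i hi, sub_self]

end MP60829e.ST
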