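import Mathlib
import Pool.Agent.Lib.MP_60829e_nt.ST.CDefs
import Pool.Agent.Lib.MP_60829e_nt.ST.Coord

/-! # Counting incongruent points -/

open MvPolynomial Module

namespace MP60829e.ST

/-- PROOF. The `ℚ`-linear map `ζ : (ρ → ℚ) → ℂ`, `s ↦ ∑ s i * fL om (η i)` is injective (`hind`).
For `s` in the generating set of `RelQ Λ η`: `∑ s i • η i = v + 2 π i n`, `v ∈ perp Λ`, so
`(α + β x) ζ s = (α fL + β fR) (∑ s i • η i) = 2 π i (α fL n + β fR n)`, which lies in the
`ℚ`-space `2 π i (α ℚ om + β ℚ om)` of dimension `≤ 2 (k + 1)`.  So `ζ` maps `RelQ` injectively into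
`(α + β x)⁻¹` times this space. -/
theorem core_rank {k : ℕ} {ρ : Type} [Fintype ρ] (om : Fin (k + 1) → ℂ) (x α β : ℂ)
    (hab : α + β * x ≠ 0) (Λ : AddSubgroup (Fin (k + 1) ⊕ Fin (k + 1) → ℤ))
    (hΛ : ∀ v ∈ perp Λ, α * fL om v + β * fR om v = 0)
    (η : ρ → Fin (k + 1) ⊕ Fin (k + 1) → ℂ) (hη : ∀ i, fR om (η i) = x * fL om (η i))
    (hind : LinearIndependent ℚ fun i => fL om (η i)) :
    finrank ℚ (RelQ Λ η) ≤ 2 * (k + 1) := by
  classical
  set ζ : (ρ → ℚ) →ₗ[ℚ] ℂ := Fintype.linearCombination ℚ fun i => fL om (η i) with hζ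
  have hζs : ∀ s : ρ → ℚ, ζ s = ∑ i, (s i : ℂ) * fL om (η i) := by
    intro s
    rw [hζ, Fintype.linearCombination_apply]
    exact Finset.sum_congr rfl fun i _ => Rat.smul_def _ _
  have hinj : Function.Injective ζ := by
    rw [← LinearMap.ker_eq_bot, LinearMap.ker_eq_bot']
    intro s hs
    rw [hζ, Fintype.linearCombination_apply] at hs
    funext i
    exact Fintype.linearIndependent_iff.1 hind s hs i
  set b : Fin (k + 1) ⊕ Fin (k + 1) → ℂ := Sum.elim
    (fun i => (α + β * x)⁻¹ * (2 * Real.pi * Complex.I * (α * om i)))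
    (fun i => (α + β * x)⁻¹ * (2 * Real.pi * Complex.I * (β * om i))) with hb
  have hle : (RelQ Λ η).map ζ ≤ Submodule.span ℚ (Set.range b) := by
    unfold RelQ
    rw [Submodule.map_span, Submodule.span_le]
    rintro _ ⟨s, ⟨s', hs', v, hv, n, hn⟩, rfl⟩
    have h1 : (∑ i, (s' i : ℂ) • η i) = v + (2 * Real.pi * Complex.I : ℂ) • fun i => (n i : ℂ) := by
      funext i
      have := hn i
      simp only [Pi.zero_apply, sub_zero] at this
      rw [this]
      rfl
    have h2 := congrArg (fun w => α * fL om w + β * fR om w) h1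
    simp only [map_add, map_sum, map_smul, smul_eq_mul] at h2
    have h3 : α * (∑ i, (s' i : ℂ) * fL om (η i)) + β * (∑ i, (s' i : ℂ) * fR om (η i)) =
        (α + β * x) * ζ s := by
      rw [hζs, Finset.mul_sum, Finset.mul_sum, Finset.mul_sum, ← Finset.sum_add_distrib]
      refine Finset.sum_congr rfl fun i _ => ?_
      rw [hη i, hs' i]
      push_cast
      ring
    rw [h3] at h2
    have h4 := hΛ v hv
    have h5 : ζ s = ∑ i : Fin (k + 1) ⊕ Fin (k + 1), (n i : ℚ) • b i := by
      rw [Fintype.sum_sum_type]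
      have e1 : ∀ i, ((n (Sum.inl i) : ℚ)) • b (Sum.inl i) = (α + β * x)⁻¹ *
          (2 * Real.pi * Complex.I * α) * (om i * (n (Sum.inl i) : ℂ)) := by
        intro i
        rw [Rat.smul_def, hb]
        simp only [Sum.elim_inl]
        push_cast
        ring
      have e2 : ∀ i, ((n (Sum.inr i) : ℚ)) • b (Sum.inr i) = (α + β * x)⁻¹ *
          (2 * Real.pi * Complex.I * β) * (om i * (n (Sum.inr i) : ℂ)) := by
        intro i
        rw [Rat.smul_def, hb]
        simp only [Sum.elim_inr]
        push_cast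
        ring
      simp only [e1, e2]
      rw [← Finset.mul_sum, ← Finset.mul_sum, ← fL_apply om fun i => (n i : ℂ),
        ← fR_apply om fun i => (n i : ℂ)]
      apply mul_left_cancel₀ hab
      rw [h2]
      have h6 : (α + β * x) * (α + β * x)⁻¹ = 1 := mul_inv_cancel₀ hab
      linear_combination h4 - (2 * Real.pi * Complex.I) * (α * fL om (fun i => (n i : ℂ)) +
        β * fR om (fun i => (n i : ℂ))) * h6
    rw [SetLike.mem_coe, h5]
    exact Submodule.sum_mem _ fun i _ => Submodule.smul_mem _ _ (Submodule.subset_span ⟨i, rfl⟩)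
  have : FiniteDimensional ℚ (Submodule.span ℚ (Set.range b)) :=
    FiniteDimensional.span_of_finite ℚ (Set.finite_range b)
  calc finrank ℚ (RelQ Λ η) = finrank ℚ ((RelQ Λ η).map ζ) :=
        (Submodule.equivMapOfInjective ζ hinj (RelQ Λ η)).finrank_eq
    _ ≤ finrank ℚ (Submodule.span ℚ (Set.range b)) := Submodule.finrank_mono hle
    _ ≤ Fintype.card (Fin (k + 1) ⊕ Fin (k + 1)) := finrank_range_le_card b
    _ = 2 * (k + 1) := by
        rw [Fintype.card_sum, Fintype.card_fin]
        ring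

/-- PROOF. `exists_coord` for `RelQ Λ η` over `ℚ` gives `I`, `card I = card ρ - finrank RelQ ≥
card ρ - κ`, such that an element of `RelQ` supported on `I` is zero.  `S'` = the points
`∑ s i • η i`, `s` supported on `I`, `s i < S0`.  If two of them are congruent then the difference of
the `s` is in `RelQ` and supported on `I`, so zero (`Cong` is compatible with differences). -/
theorem core_count {σ ρ : Type} [Fintype σ] [Fintype ρ] (Λ : AddSubgroup (σ → ℤ))
    (η : ρ → σ → ℂ) (κ : ℕ) (hrank : finrank ℚ (RelQ Λ η) ≤ κ) (S0 : ℕ) (hS : 1 ≤ S0) :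
    ∃ S' : Finset (σ → ℂ), S0 ^ (Fintype.card ρ - κ) ≤ S'.card ∧
      (∀ y ∈ S', ∃ s : ρ → ℕ, (∀ i, s i < S0) ∧ y = ∑ i, (s i : ℂ) • η i) ∧
      ∀ y ∈ S', ∀ z ∈ S', y ≠ z → ¬ Cong Λ y z := by
  classical
  obtain ⟨I, hI, hI0, -⟩ := exists_coord (RelQ Λ η)
  set A : Finset (ρ → ℕ) := Fintype.piFinset fun i => if i ∈ I then Finset.range S0 else {0}
    with hA
  have hmem : ∀ s ∈ A, (∀ i, s i < S0) ∧ ∀ i, i ∉ I → s i = 0 := by
    intro s hs
    rw [hA, Fintype.mem_piFinset] at hs
    refine ⟨fun i => ?_, fun i hi => ?_⟩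
    · have := hs i
      split_ifs at this with h
      · exact Finset.mem_range.1 this
      · rw [Finset.mem_singleton.1 this]
        exact hS
    · have := hs i
      rw [if_neg hi] at this
      exact Finset.mem_singleton.1 this
  set F : (ρ → ℕ) → σ → ℂ := fun s => ∑ i, (s i : ℂ) • η i with hF
  have key : ∀ s ∈ A, ∀ t ∈ A, Cong Λ (F s) (F t) → s = t := by
    intro s hs t ht ⟨v, hv, n, hn⟩
    have h1 : (fun i => (s i : ℚ) - (t i : ℚ)) ∈ RelQ Λ η := by
      apply Submodule.subset_span
      refine ⟨fun i => (s i : ℤ) - (t i : ℤ), fun i => by push_cast; ring, v, hv, n, fun i => ?_⟩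
      rw [← hn i, hF]
      simp only [Pi.zero_apply, sub_zero, Finset.sum_apply, Pi.smul_apply, smul_eq_mul]
      rw [← Finset.sum_sub_distrib]
      refine Finset.sum_congr rfl fun j _ => ?_
      push_cast
      ring
    have h2 := hI0 _ h1 (fun i hi => by
      rw [(hmem s hs).2 i hi, (hmem t ht).2 i hi, sub_self])
    funext i
    have h3 := congrFun h2 i
    simp only [Pi.zero_apply] at h3
    exact_mod_cast sub_eq_zero.1 h3
  have hrefl : ∀ y : σ → ℂ, Cong Λ y y := fun y =>
    ⟨0, Submodule.zero_mem _, 0, fun i => by simp⟩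
  refine ⟨A.image F, ?_, ?_, ?_⟩
  · rw [Finset.card_image_of_injOn]
    · have h1 : A.card = S0 ^ I.card := by
        rw [hA, Fintype.card_piFinset]
        have h2 : ∀ i : ρ, (if i ∈ I then Finset.range S0 else ({0} : Finset ℕ)).card =
            if i ∈ I then S0 else 1 := by
          intro i
          split_ifs
          · exact Finset.card_range S0
          · exact Finset.card_singleton 0
        simp only [h2]
        rw [Finset.prod_ite_mem, Finset.univ_inter, Finset.prod_const]
      rw [h1]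
      exact Nat.pow_le_pow_right hS (by omega)
    · intro s hs t ht hst
      apply key s hs t ht
      rw [hst]
      exact hrefl _
  · intro y hy
    obtain ⟨s, hs, rfl⟩ := Finset.mem_image.1 hy
    exact ⟨s, (hmem s hs).1, rfl⟩
  · intro y hy z hz hyz hc
    obtain ⟨s, hs, rfl⟩ := Finset.mem_image.1 hy
    obtain ⟨t, ht, rfl⟩ := Finset.mem_image.1 hz
    exact hyz (by rw [key s hs t ht hc])

end MP60829e.ST
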