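import Mathlib
import Pool.Agent.Lib.MP_60829e_nt.ST.CDefs

/-! # Algebraic linear forms vanishing on `perp Λ` -/

open MvPolynomial Module

namespace MP60829e.ST

/-- `perp Λ` is spanned by integer vectors.
PROOF. Let `v ∈ perp Λ`, `b_1 .. b_s` a `ℚ`-basis of the `ℚ`-span of the coordinates of `v`:
`v = ∑ b_t • r_t` with rational vectors `r_t`.  For `l ∈ Λ`: `0 = ∑_t b_t (l · r_t)` so
`l · r_t = 0`: the `r_t`, times a common denominator, are integer vectors of `perp Λ`. -/
theorem perp_int {σ : Type} [Fintype σ] (Λ : AddSubgroup (σ → ℤ)) (φ : (σ → ℂ) →ₗ[ℂ] ℂ)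
    (h : ∀ r : σ → ℤ, (fun i => (r i : ℂ)) ∈ perp Λ → φ (fun i => (r i : ℂ)) = 0) :
    ∀ v ∈ perp Λ, φ v = 0 := by
  classical
  intro v hv
  obtain ⟨B⟩ : Nonempty (Basis (Basis.ofVectorSpaceIndex ℚ ℂ) ℚ ℂ) :=
    ⟨Basis.ofVectorSpace ℚ ℂ⟩
  obtain ⟨T, hT⟩ : ∃ T : Finset (Basis.ofVectorSpaceIndex ℚ ℂ),
      ∀ i, (B.repr (v i)).support ⊆ T :=
    ⟨Finset.univ.biUnion fun i => (B.repr (v i)).support, fun i =>
      Finset.subset_biUnion_of_mem (fun i => (B.repr (v i)).support) (Finset.mem_univ i)⟩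
  have hv' : v = ∑ t ∈ T, B t • (fun i => ((B.repr (v i) t : ℚ) : ℂ)) := by
    funext i
    rw [Finset.sum_apply]
    conv_lhs => rw [← B.linearCombination_repr (v i)]
    rw [Finsupp.linearCombination_apply, Finsupp.sum_of_support_subset _ (hT i) _ (by simp)]
    refine Finset.sum_congr rfl fun t _ => ?_
    rw [Pi.smul_apply, smul_eq_mul, Rat.smul_def, mul_comm]
  have key : ∀ r : σ → ℚ, (fun i => ((r i : ℚ) : ℂ)) ∈ perp Λ →
      φ (fun i => ((r i : ℚ) : ℂ)) = 0 := by
    intro r hr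
    obtain ⟨N, hN0, z, hz⟩ : ∃ N : ℤ, N ≠ 0 ∧ ∃ z : σ → ℤ, ∀ i, (N : ℚ) * r i = z i := by
      refine ⟨∏ i, ((r i).den : ℤ), Finset.prod_ne_zero_iff.2 fun i _ => by
        exact_mod_cast (r i).den_nz, fun i => (∏ j ∈ Finset.univ.erase i, ((r j).den : ℤ)) *
          (r i).num, fun i => ?_⟩
      rw [← Finset.mul_prod_erase Finset.univ _ (Finset.mem_univ i)]
      push_cast
      have h1 : ((r i).den : ℚ) * r i = (r i).num := by
        rw [mul_comm]; exact Rat.mul_den_eq_num (r i)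
      linear_combination (∏ j ∈ Finset.univ.erase i, ((r j).den : ℚ)) * h1
    have hNC : (N : ℂ) ≠ 0 := by exact_mod_cast hN0
    have hfun : (fun i => ((z i : ℤ) : ℂ)) = (N : ℂ) • (fun i => ((r i : ℚ) : ℂ)) := by
      funext i
      rw [Pi.smul_apply, smul_eq_mul]
      have := congrArg (fun q : ℚ => (q : ℂ)) (hz i)
      push_cast at this
      exact this.symm
    have h2 := h z (by rw [hfun]; exact (perp Λ).smul_mem _ hr)
    rw [hfun, map_smul, smul_eq_mul] at h2
    exact (mul_eq_zero.1 h2).resolve_left hNC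
  rw [hv', map_sum]
  refine Finset.sum_eq_zero fun t _ => ?_
  rw [map_smul, key, smul_zero]
  intro l hl
  have h3 := hv l hl
  have h4 := congrArg (fun w : ℂ => B.repr w t) h3
  simp only [map_zero, Finsupp.coe_zero, Pi.zero_apply, map_sum, Finsupp.coe_finsetSum,
    Finset.sum_apply] at h4
  have h5 : ∀ i, B.repr ((l i : ℂ) * v i) t = (l i : ℚ) * B.repr (v i) t := by
    intro i
    have : (l i : ℂ) * v i = (l i : ℚ) • v i := by
      rw [Rat.smul_def]; push_cast; rfl
    rw [this, map_smul, Finsupp.smul_apply, smul_eq_mul]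
  simp only [h5] at h4
  have h6 := congrArg (fun q : ℚ => (q : ℂ)) h4
  push_cast at h6
  exact h6

/-- PROOF. There is a linear form `φ ≠ 0` vanishing on `perp Λ ⊔ Wsub om`; it vanishes on
`ker fL ⊓ ker fR`, so `φ = α fL + β fR` (`mem_span_of_iInf_ker_le_ker`), `(α, β) ≠ 0`.
Case 1: `fL r = fR r = 0` for all integer vectors `r ∈ perp Λ`: then `fL` vanishes on `perp Λ`
(`perp_int`), take `(1, 0)`.  Case 2: some integer vector `r ∈ perp Λ` has `(fL r, fR r) ≠ 0`.  Then
`α + β x ≠ 0`: otherwise `α = - β x`, `β ≠ 0`, and `0 = φ r = β (fR r - x fL r)`; `fL r`, `fR r` are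
algebraic and not both zero, so `fL r ≠ 0` and `x = fR r / fL r` is algebraic. -/
theorem core_form {k : ℕ} (om : Fin (k + 1) → ℂ) (halg : ∀ i, IsAlgebraic ℚ (om i)) (x : ℂ)
    (hx : ¬ IsAlgebraic ℚ x) (Λ : AddSubgroup (Fin (k + 1) ⊕ Fin (k + 1) → ℤ))
    (h : perp Λ ⊔ Wsub om ≠ ⊤) :
    ∃ α β : ℂ, α + β * x ≠ 0 ∧ ∀ v ∈ perp Λ, α * fL om v + β * fR om v = 0 := by
  classical
  by_cases hc : ∀ r : Fin (k + 1) ⊕ Fin (k + 1) → ℤ, (fun i => (r i : ℂ)) ∈ perp Λ →
      fL om (fun i => (r i : ℂ)) = 0 ∧ fR om (fun i => (r i : ℂ)) = 0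
  · refine ⟨1, 0, by simp, fun v hv => ?_⟩
    rw [one_mul, zero_mul, add_zero]
    exact perp_int Λ (fL om) (fun r hr => (hc r hr).1) v hv
  · push Not at hc
    obtain ⟨r, hr, hr'⟩ := hc
    obtain ⟨f, hf0, hf⟩ := Submodule.exists_le_ker_of_lt_top _ (lt_top_iff_ne_top.2 h)
    have hker : (⨅ i : Fin 2, LinearMap.ker ((![fL om, fR om] : Fin 2 → _) i)) ≤
        LinearMap.ker f := by
      intro v hv
      apply hf
      apply Submodule.mem_sup_right
      rw [Submodule.mem_iInf] at hv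
      rw [mem_Wsub]
      exact ⟨by simpa using hv 0, by simpa using hv 1⟩
    have hsp := mem_span_of_iInf_ker_le_ker hker
    rw [Submodule.mem_span_range_iff_exists_fun] at hsp
    obtain ⟨c, hc⟩ := hsp
    rw [Fin.sum_univ_two] at hc
    simp only [Matrix.cons_val_zero, Matrix.cons_val_one] at hc
    have hfv : ∀ v, f v = c 0 * fL om v + c 1 * fR om v := by
      intro v
      rw [← hc]; rfl
    have hperp : ∀ v ∈ perp Λ, c 0 * fL om v + c 1 * fR om v = 0 := by
      intro v hv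
      rw [← hfv]
      exact LinearMap.mem_ker.1 (hf (Submodule.mem_sup_left hv))
    refine ⟨c 0, c 1, fun h0 => ?_, hperp⟩
    have hc1 : c 1 ≠ 0 := by
      intro h1
      rw [h1, zero_mul, add_zero] at h0
      apply hf0
      refine LinearMap.ext fun v => ?_
      rw [hfv, h0, h1]
      simp
    have hF : ∀ (z : Fin (k + 1) → ℤ), IsAlgebraic ℚ (∑ i, om i * (z i : ℂ)) := by
      intro z
      refine Subalgebra.sum_mem (integralClosure ℚ ℂ) (fun i _ => ?_) |>.isAlgebraic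
      exact ((halg i).mul (isAlgebraic_intCast _)).isIntegral
    have ha : IsAlgebraic ℚ (fL om fun i => (r i : ℂ)) := by
      rw [fL_apply]; exact hF fun i => r (Sum.inl i)
    have hb : IsAlgebraic ℚ (fR om fun i => (r i : ℂ)) := by
      rw [fR_apply]; exact hF fun i => r (Sum.inr i)
    have h1 := hperp _ hr
    have h2 : c 1 * (fR om (fun i => (r i : ℂ)) - x * fL om (fun i => (r i : ℂ))) = 0 := by
      linear_combination h1 - (fL om fun i => (r i : ℂ)) * h0
    have h3 := (mul_eq_zero.1 h2).resolve_left hc1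
    have h4 : fL om (fun i => (r i : ℂ)) ≠ 0 := by
      intro h5
      apply hr' h5
      rw [h5, mul_zero, sub_zero] at h3
      exact h3
    apply hx
    have h6 : x = fR om (fun i => (r i : ℂ)) / fL om (fun i => (r i : ℂ)) := by
      rw [eq_div_iff h4]; linear_combination -h3
    rw [h6, div_eq_mul_inv]
    exact hb.mul ha.inv

end MP60829e.ST
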