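import Mathlib
import Pool.Agent.Lib.MP_60829e_nt.ST.Defs

/-! # Counting -/

open MvPolynomial Module

namespace MP60829e.ST

private theorem bCount_choose (k N : ℕ) :
    N ^ k ≤ k.factorial * Nat.multichoose (k + 1) N := by
  rw [Nat.multichoose_eq]
  have e1 : k + 1 + N - 1 = N + k := by omega
  rw [e1]
  have e2 : (N + k).choose N = (N + k).choose k := by
    rw [← Nat.choose_symm (Nat.le_add_left k N)]
    congr 1
    omega
  rw [e2, ← Nat.descFactorial_eq_factorial_mul_choose]
  refine le_trans ?_ (Nat.pow_sub_le_descFactorial (N + k) k)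
  exact Nat.pow_le_pow_left (by omega) k

/-- Number of weighted multi-indices.
PROOF. `A` = image of `{β : |β| ≤ N} × {ρ : Fin w → Fin T}` under
`α (inl i) = T * β (inl i) + ρ i`, `α (inr i) = β (inr i)` (injective); weight
`≤ T |β| + w (T - 1) < T (N + w + 1)`; the number of `β : Fin w ⊕ Fin v → ℕ` with `|β| ≤ N` is
`(N + w + v).choose (w + v)`, at least `N ^ (w + v) / (w + v)!`
(`Nat.pow_sub_le_descFactorial`, `Nat.ascFactorial`, ..; any proof of the lower bound is fine,
e.g. by induction on the number of variables). -/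
theorem card_jets (w v T N : ℕ) (hT : 1 ≤ T) : ∃ A : Finset (Fin w ⊕ Fin v → ℕ),
    (∀ α ∈ A, (∑ i, α (Sum.inl i)) + T * ∑ i, α (Sum.inr i) < (N + w + 1) * T) ∧
    T ^ w * N ^ (w + v) ≤ (w + v).factorial * A.card := by
  classical
  let O : Type := Option (Fin w ⊕ Fin v)
  let S : Type := {P : O → ℕ // ∑ i, P i = N}
  let eqv : Sym O N ≃ S := Sym.equivNatSumOfFintype O N
  let F : Sym O N × (Fin w → Fin T) → (Fin w ⊕ Fin v → ℕ) := fun x =>
    Sum.elim (fun i => T * (eqv x.1).1 (some (Sum.inl i)) + (x.2 i : ℕ))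
      (fun i => (eqv x.1).1 (some (Sum.inr i)))
  have hF : Function.Injective F := by
    rintro ⟨a, ρ⟩ ⟨a', ρ'⟩ h
    have h1 : ∀ i, T * (eqv a).1 (some (Sum.inl i)) + (ρ i : ℕ) =
        T * (eqv a').1 (some (Sum.inl i)) + (ρ' i : ℕ) := fun i => congrFun h (Sum.inl i)
    have h2 : ∀ i, (eqv a).1 (some (Sum.inr i)) = (eqv a').1 (some (Sum.inr i)) :=
      fun i => congrFun h (Sum.inr i)
    have h3 : ∀ i, (eqv a).1 (some (Sum.inl i)) = (eqv a').1 (some (Sum.inl i)) := by
      intro i
      have k1 := congrArg (· / T) (h1 i)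
      rwa [Nat.mul_add_div (by omega), Nat.mul_add_div (by omega),
        Nat.div_eq_of_lt (ρ i).2, Nat.div_eq_of_lt (ρ' i).2, add_zero, add_zero] at k1
    have h4 : ρ = ρ' := by
      funext i
      apply Fin.ext
      have k1 := h1 i
      rw [h3 i] at k1
      exact Nat.add_left_cancel k1
    have h5 : eqv a = eqv a' := by
      apply Subtype.ext
      have e1 := (eqv a).2
      have e2 := (eqv a').2
      rw [Fintype.sum_option, Fintype.sum_sum_type] at e1 e2
      simp only [h2, h3] at e1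
      funext i
      rcases i with _ | i | i
      · omega
      · exact h3 i
      · exact h2 i
    rw [eqv.injective h5, h4]
  refine ⟨Finset.univ.image F, ?_, ?_⟩
  · intro α hα
    rw [Finset.mem_image] at hα
    obtain ⟨⟨a, ρ⟩, -, rfl⟩ := hα
    have e1 := (eqv a).2
    rw [Fintype.sum_option, Fintype.sum_sum_type] at e1
    simp only [F, Sum.elim_inl, Sum.elim_inr]
    rw [Finset.sum_add_distrib, ← Finset.mul_sum]
    have h1 : ∑ i, (ρ i : ℕ) ≤ w * T := by
      calc ∑ i, (ρ i : ℕ) ≤ ∑ _i : Fin w, T := Finset.sum_le_sum fun i _ => (ρ i).2.le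
        _ = w * T := by simp
    have h2 : (∑ i, (eqv a).1 (some (Sum.inl i))) + ∑ i, (eqv a).1 (some (Sum.inr i)) ≤ N := by
      omega
    have h3 := Nat.mul_le_mul_left T h2
    rw [Nat.mul_add] at h3
    have h4 : (N + w + 1) * T = T * N + w * T + T := by ring
    rw [h4]
    omega
  · rw [Finset.card_image_of_injective _ hF, Finset.card_univ, Fintype.card_prod,
      Sym.card_sym_eq_multichoose, Fintype.card_pi]
    have e1 : Fintype.card O = w + v + 1 := by simp [O]
    rw [e1]
    have e2 : ∏ _i : Fin w, Fintype.card (Fin T) = T ^ w := by simp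
    rw [e2]
    calc T ^ w * N ^ (w + v) ≤ T ^ w * ((w + v).factorial * Nat.multichoose (w + v + 1) N) :=
          Nat.mul_le_mul_left _ (bCount_choose _ _)
      _ = (w + v).factorial * (Nat.multichoose (w + v + 1) N * T ^ w) := by ring

/-- PROOF. The monomials with exponents `≤ D` span `Bx σ D`. -/
theorem finrank_Bx (σ : Type) [Fintype σ] (D : ℕ) :
    FiniteDimensional ℂ (Bx σ D) ∧ finrank ℂ (Bx σ D) ≤ (D + 1) ^ Fintype.card σ := by
  classical
  let b : (σ → Fin (D + 1)) → MvPolynomial σ ℂ := fun f =>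
    monomial (Finsupp.equivFunOnFinite.symm fun i => (f i : ℕ)) 1
  have hle : Bx σ D ≤ Submodule.span ℂ (Set.range b) := by
    intro f hf
    rw [MvPolynomial.as_sum f]
    refine Submodule.sum_mem _ fun a ha => ?_
    have h1 : ∀ i, a i ≤ D := hf a (MvPolynomial.mem_support_iff.1 ha)
    have h2 : (monomial a (coeff a f) : MvPolynomial σ ℂ) = coeff a f • monomial a 1 := by
      rw [smul_monomial, smul_eq_mul, mul_one]
    rw [h2]
    refine Submodule.smul_mem _ _ (Submodule.subset_span ?_)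
    refine ⟨fun i => ⟨a i, Nat.lt_succ_of_le (h1 i)⟩, ?_⟩
    simp only [b]
    congr 1
    ext i
    simp
  have hfd : FiniteDimensional ℂ (Submodule.span ℂ (Set.range b)) :=
    FiniteDimensional.span_of_finite ℂ (Set.finite_range b)
  refine ⟨Submodule.finiteDimensional_of_le hle, ?_⟩
  refine (Submodule.finrank_mono hle).trans ?_
  refine (finrank_range_le_card b).trans (le_of_eq ?_)
  simp

/-- PROOF. Divide by `N ^ j` and let `N → ∞`. -/
theorem limit_ineq (A B D E0 w j : ℕ)
    (h : ∀ N : ℕ, A * N ^ j ≤ B * ((N + w + 1) * D + E0 + 1) ^ j) : A ≤ B * D ^ j := by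
  have h1 : Filter.Tendsto (fun N : ℕ => (B : ℝ) *
      ((D : ℝ) + (((w : ℝ) + 1) * D + E0 + 1) / (N : ℝ)) ^ j) Filter.atTop
      (nhds ((B : ℝ) * ((D : ℝ) + 0) ^ j)) :=
    ((tendsto_const_nhds.add (tendsto_const_div_atTop_nhds_zero_nat _)).pow j).const_mul _
  have h2 : (A : ℝ) ≤ (B : ℝ) * ((D : ℝ) + 0) ^ j := by
    refine ge_of_tendsto h1 ?_
    filter_upwards [Filter.eventually_gt_atTop 0] with N hN
    have hN' : (0 : ℝ) < N := by exact_mod_cast hN
    have h3 : (A : ℝ) * (N : ℝ) ^ j ≤ B * (((N : ℝ) + w + 1) * D + E0 + 1) ^ j := by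
      exact_mod_cast h N
    have h4 : ((N : ℝ) + w + 1) * D + E0 + 1 =
        N * ((D : ℝ) + (((w : ℝ) + 1) * D + E0 + 1) / (N : ℝ)) := by
      field_simp
      ring
    rw [h4, mul_pow] at h3
    have h5 : (0 : ℝ) < (N : ℝ) ^ j := by positivity
    refine le_of_mul_le_mul_right ?_ h5
    calc (A : ℝ) * (N : ℝ) ^ j ≤ _ := h3
      _ = _ := by ring
  rw [add_zero] at h2
  exact_mod_cast h2

end MP60829e.ST
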