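import Mathlib
import Pool.Agent.Lib.MP_60829e_nt.ST.Defs

/-! # Weighted jets

Directions `b k` with weights `wt k`, points `y l`.  `J b wt y c` consists of the polynomials all of
whose derivatives of weight less than `c` vanish at all points `exp (y l)`. -/

open MvPolynomial Module

namespace MP60829e.ST

/-- Membership in the weighted jet ideal. -/
def InJ {σ κ : Type} [Fintype σ] {M : ℕ} (b : κ → σ → ℂ) (wt : κ → ℕ) (y : Fin M → σ → ℂ) (c : ℕ)
    (f : MvPolynomial σ ℂ) : Prop :=
  ∀ l, ∀ ks : List κ, (ks.map wt).sum < c → ev (y l) (ders (ks.map b) f) = 0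

section

variable {σ κ : Type} [Fintype σ] {M : ℕ} {b : κ → σ → ℂ} {wt : κ → ℕ} {y : Fin M → σ → ℂ}

theorem inJ_zero (f : MvPolynomial σ ℂ) : InJ b wt y 0 f := by
  intro l ks h
  exact absurd h (Nat.not_lt_zero _)

theorem InJ.add {c : ℕ} {f g : MvPolynomial σ ℂ} (hf : InJ b wt y c f) (hg : InJ b wt y c g) :
    InJ b wt y c (f + g) := by
  intro l ks h
  rw [ders_add, ev_add_right, hf l ks h, hg l ks h, add_zero]

theorem InJ.smul {c : ℕ} {f : MvPolynomial σ ℂ} (a : ℂ) (hf : InJ b wt y c f) :
    InJ b wt y c (a • f) := by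
  intro l ks h
  rw [ders_smul, ev_smul, hf l ks h, mul_zero]

theorem inJ_zero_poly (c : ℕ) : InJ b wt y c (0 : MvPolynomial σ ℂ) := by
  intro l ks _
  have h := ders_smul (ks.map b) 0 (0 : MvPolynomial σ ℂ)
  rw [zero_smul, zero_smul] at h
  rw [h]
  exact map_zero _

theorem InJ.mono {c c' : ℕ} (hc : c' ≤ c) {f : MvPolynomial σ ℂ} (hf : InJ b wt y c f) :
    InJ b wt y c' f := fun l ks h => hf l ks (lt_of_lt_of_le h hc)

/-- PROOF. Iterated derivations are diagonal operators (`ders_eq_diag`), so the order of the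
directions does not matter: `ders (ks.map b) (der (b k) f) = ders ((k :: ks).map b) f`. -/
theorem InJ.der {c : ℕ} {f : MvPolynomial σ ℂ} (hf : InJ b wt y c f) (k : κ) :
    InJ b wt y (c - wt k) (der (b k) f) := by
  intro l ks h
  have h1 : ders (ks.map b) (ST.der (b k) f) = ders ((k :: ks).map b) f := by
    rw [List.map_cons, ders_cons, ders_eq_diag, ders_eq_diag, ST.der, diag_comm]
  rw [h1]
  apply hf
  rw [List.map_cons, List.sum_cons]
  omega

/-- PROOF by induction on `ks`, for all `c, c', f, g`, of: `ks` of weight `< c + c'` implies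
`ev (y l) (ders (ks.map b) (f * g)) = 0`. For `ks = []`: `c > 0` or `c' > 0`, so one factor
vanishes at `y l`. For `k :: ks`: `ders (k :: ks) (f g) = ders ks (der k f * g) + ders ks (f * der k g)`
(diagonal operators commute) and `InJ.der`; if `wt k > c` then `c - wt k = 0` and still
`wt ks < 0 + c'`. -/
theorem InJ.mul {c c' : ℕ} {f g : MvPolynomial σ ℂ} (hf : InJ b wt y c f)
    (hg : InJ b wt y c' g) : InJ b wt y (c + c') (f * g) := by
  have key : ∀ ks : List κ, ∀ c c' : ℕ, ∀ f g : MvPolynomial σ ℂ, InJ b wt y c f →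
      InJ b wt y c' g → ∀ l, (ks.map wt).sum < c + c' →
      ev (y l) (ders (ks.map b) (f * g)) = 0 := by
    intro ks
    induction ks with
    | nil =>
      intro c c' f g hf hg l h
      simp only [List.map_nil, List.sum_nil] at h
      rw [List.map_nil, ders_nil, ev_mul]
      rcases Nat.eq_zero_or_pos c with h0 | h0
      · have h1 : 0 < c' := by omega
        have h2 := hg l [] (by simpa using h1)
        rw [List.map_nil, ders_nil] at h2
        rw [h2, mul_zero]
      · have h2 := hf l [] (by simpa using h0)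
        rw [List.map_nil, ders_nil] at h2
        rw [h2, zero_mul]
    | cons k ks ih =>
      intro c c' f g hf hg l h
      rw [List.map_cons, List.sum_cons] at h
      have h1 : ders ((k :: ks).map b) (f * g) = ders (ks.map b) (ST.der (b k) (f * g)) := by
        rw [List.map_cons, ders_cons, ders_eq_diag, ders_eq_diag, ST.der, diag_comm]
      rw [h1, der_mul, ders_add, ev_add_right]
      rw [ih (c - wt k) c' (ST.der (b k) f) g (hf.der k) hg l (by omega),
        ih c (c' - wt k) f (ST.der (b k) g) hf (hg.der k) l (by omega), add_zero]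
  intro l ks h
  exact key ks c c' f g hf hg l h

/-- The weighted jet ideal. -/
def JI (b : κ → σ → ℂ) (wt : κ → ℕ) (y : Fin M → σ → ℂ) (c : ℕ) : Ideal (MvPolynomial σ ℂ) where
  carrier := {f | InJ b wt y c f}
  add_mem' := fun hf hg => InJ.add hf hg
  zero_mem' := inJ_zero_poly c
  smul_mem' := by
    intro g f hf
    have h := (inJ_zero (b := b) (wt := wt) (y := y) g).mul hf
    rw [Nat.zero_add] at h
    exact h

theorem mem_JI {c : ℕ} {f : MvPolynomial σ ℂ} : f ∈ JI b wt y c ↔ InJ b wt y c f := Iff.rfl

end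

end MP60829e.ST
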