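import Mathlib
import Pool.Agent.Lib.MP_60829e_nt.ST.BJet

/-! # Finite generation modulo jets -/

open MvPolynomial Module

namespace MP60829e.ST

/-- Powers of a polynomial with vanishing constant jet. -/
private theorem inJ_pow {σ κ : Type} [Fintype σ] {M : ℕ} {b : κ → σ → ℂ} {wt : κ → ℕ}
    {y : Fin M → σ → ℂ} {q : MvPolynomial σ ℂ} (hq : InJ b wt y 1 q) (c : ℕ) :
    InJ b wt y c (q ^ c) := by
  induction c with
  | zero => exact inJ_zero _
  | succ c ih =>
    rw [pow_succ]
    exact ih.mul hq

/-- The product of the variables is a unit modulo every jet ideal.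
PROOF. `e l = ∏ i, exp (y l i) ≠ 0`.  The polynomial `h = ∏ l, (1 - (∏ X i) / e l) ^ c` lies in
`J c` (each factor `1 - (∏ X) / e l` vanishes at the point `l`; use `InJ.mul` for the single point
`l`, or directly: for the fixed point `l` the product of `c` polynomials vanishing at `y l` has jets
of weight `< c` zero, the weights being `≥ 1`), and `h = 1 - (∏ X) * e'` for a polynomial `e'`. -/
theorem unit_mod {σ κ : Type} [Fintype σ] {M : ℕ} (b : κ → σ → ℂ) (wt : κ → ℕ)
    (hwt : ∀ k, 1 ≤ wt k) (y : Fin M → σ → ℂ) (c : ℕ) :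
    ∃ e' : MvPolynomial σ ℂ, (1 - (∏ i, X i) * e') ∈ JI b wt y c := by
  classical
  set P : MvPolynomial σ ℂ := ∏ i, X i with hP
  have hPev : ∀ l, ev (y l) P ≠ 0 := by
    intro l
    rw [hP, ev, map_prod]
    refine Finset.prod_ne_zero_iff.2 fun i _ => ?_
    rw [eval_X]
    exact Complex.exp_ne_zero _
  set q : Fin M → MvPolynomial σ ℂ := fun l => 1 - P * C (ev (y l) P)⁻¹ with hq
  have hqev : ∀ l, ev (y l) (q l) = 0 := by
    intro l
    have h1 : ev (y l) (q l) = 1 - ev (y l) P * (ev (y l) P)⁻¹ := by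
      rw [hq]
      simp only [ev, map_sub, map_one, map_mul, eval_C]
    rw [h1, mul_inv_cancel₀ (hPev l), sub_self]
  have hmem : (∏ l, q l ^ c) ∈ JI b wt y c := by
    rw [mem_JI]
    intro l ks hks
    have h1 : InJ b wt (fun _ : Fin 1 => y l) 1 (q l) := by
      intro l' ks' hks'
      cases ks' with
      | nil =>
        rw [List.map_nil, ders_nil]
        exact hqev l
      | cons k ks' =>
        exfalso
        rw [List.map_cons, List.sum_cons] at hks'
        have := hwt k
        omega
    have h2 := (inJ_pow h1 c).mul (inJ_zero (b := b) (wt := wt) (y := fun _ : Fin 1 => y l)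
      (∏ l' ∈ Finset.univ.erase l, q l' ^ c))
    rw [Finset.mul_prod_erase Finset.univ (fun l' => q l' ^ c) (Finset.mem_univ l)] at h2
    exact h2 0 ks (by simpa using hks)
  have hdvd : P ∣ 1 - ∏ l, q l ^ c := by
    have hstep : ∀ f g : MvPolynomial σ ℂ, P ∣ 1 - f → P ∣ 1 - g → P ∣ 1 - f * g := by
      intro f g hf hg
      have h1 : 1 - f * g = (1 - f) + f * (1 - g) := by ring
      rw [h1]
      exact dvd_add hf (Dvd.dvd.mul_left hg f)
    refine Finset.prod_induction (fun l => q l ^ c) (fun f => P ∣ 1 - f) hstep ?_ ?_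
    · rw [sub_self]
      exact dvd_zero _
    · intro l _
      have h1 : P ∣ 1 - q l := by
        rw [hq]
        simp only [sub_sub_cancel]
        exact dvd_mul_right _ _
      have h2 : ∀ n : ℕ, P ∣ 1 - q l ^ n := by
        intro n
        induction n with
        | zero =>
          rw [pow_zero, sub_self]
          exact dvd_zero _
        | succ n ih =>
          rw [pow_succ]
          exact hstep _ _ ih h1
      exact h2 c
  obtain ⟨e', he'⟩ := hdvd
  refine ⟨e', ?_⟩
  rw [← he', sub_sub_cancel]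
  exact hmem

/-- A polynomial in one variable of bounded degree in `(E) + J c`, for all `c`.
PROOF. Let `Z` be the finite set of `hfin`, `u = ∏ g ∈ Z, (X i - C (g i))`.  The polynomial
`(∏ X) * u` vanishes at every common zero of `E` in `ℂ ^ σ` (a zero with a zero coordinate is a zero
of `∏ X`, the others are in `Z`).  By the Nullstellensatz
(`MvPolynomial.vanishingIdeal_zeroLocus_eq_radical`) `((∏ X) * u) ^ N ∈ Ideal.span E` for some
`N = N i`.  Take `p = (∏ g ∈ Z, (X - C (g i))) ^ N * X ^ _` (raised to the same degree for all `i`).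
For every `c`: `(∏ X) ^ N * u ^ N ∈ Ideal.span E` and `∏ X` is a unit modulo `J c` (`unit_mod`), so
`u ^ N ∈ Ideal.span E ⊔ J c`. -/
theorem univ_mem {σ κ : Type} [Fintype σ] {M : ℕ} (b : κ → σ → ℂ) (wt : κ → ℕ)
    (hwt : ∀ k, 1 ≤ wt k) (y : Fin M → σ → ℂ) (E : Submodule ℂ (MvPolynomial σ ℂ))
    (hfin : {g : σ → ℂ | (∀ i, g i ≠ 0) ∧ ∀ f ∈ E, eval g f = 0}.Finite) :
    ∃ d : ℕ, ∀ i : σ, ∃ p : Polynomial ℂ, p.Monic ∧ p.natDegree ≤ d ∧
      ∀ c, Polynomial.aeval (X i : MvPolynomial σ ℂ) p ∈
        Ideal.span (E : Set (MvPolynomial σ ℂ)) ⊔ JI b wt y c := by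
  classical
  set Z := hfin.toFinset with hZ
  set P : MvPolynomial σ ℂ := ∏ i, X i with hP
  set I : Ideal (MvPolynomial σ ℂ) := Ideal.span (E : Set (MvPolynomial σ ℂ)) with hI
  set q : σ → Polynomial ℂ := fun i => ∏ g ∈ Z, (Polynomial.X - Polynomial.C (g i)) with hq
  have hrad : ∀ i, P * Polynomial.aeval (X i : MvPolynomial σ ℂ) (q i) ∈ I.radical := by
    intro i
    rw [← vanishingIdeal_zeroLocus_eq_radical (K := ℂ), mem_vanishingIdeal_iff]
    intro x hx
    rw [mem_zeroLocus_iff] at hx
    rw [map_mul]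
    by_cases h0 : ∀ j, x j ≠ 0
    · have hxZ : x ∈ Z := by
        rw [hZ, Set.Finite.mem_toFinset]
        refine ⟨h0, fun f hf => ?_⟩
        have h1 := hx f (Ideal.subset_span hf)
        rwa [aeval_eq_eval] at h1
      have h1 : aeval x (Polynomial.aeval (X i : MvPolynomial σ ℂ) (q i)) =
          Polynomial.eval (x i) (q i) := by
        rw [← Polynomial.aeval_algHom_apply, aeval_X, Polynomial.coe_aeval_eq_eval]
      rw [h1, hq]
      simp only
      rw [Polynomial.eval_prod, Finset.prod_eq_zero hxZ (by simp), mul_zero]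
    · push Not at h0
      obtain ⟨j, hj⟩ := h0
      rw [hP, map_prod, Finset.prod_eq_zero (Finset.mem_univ j) (by rw [aeval_X, hj]), zero_mul]
  choose N hN using hrad
  set n := ∑ i, N i with hn
  have hNn : ∀ i, (P * Polynomial.aeval (X i : MvPolynomial σ ℂ) (q i)) ^ n ∈ I := by
    intro i
    have h1 : N i ≤ n := Finset.single_le_sum (fun _ _ => Nat.zero_le _) (Finset.mem_univ i)
    exact Ideal.pow_mem_of_pow_mem I (hN i) h1
  refine ⟨n * Z.card, fun i => ⟨q i ^ n, ?_, ?_, ?_⟩⟩
  · exact (Polynomial.monic_prod_of_monic _ _ fun g _ => Polynomial.monic_X_sub_C _).pow n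
  · refine Polynomial.natDegree_pow_le.trans (Nat.mul_le_mul_left n ?_)
    rw [hq]
    simp only
    rw [Polynomial.natDegree_prod_of_monic _ _ fun g _ => Polynomial.monic_X_sub_C _]
    simp
  · intro c
    obtain ⟨e', he'⟩ := unit_mod b wt hwt y c
    rw [← hP] at he'
    rw [map_pow]
    set u := Polynomial.aeval (X i : MvPolynomial σ ℂ) (q i) with hu
    have h1 : u ^ n = u ^ n * (1 ^ n - (P * e') ^ n) + (P * u) ^ n * e' ^ n := by
      rw [mul_pow, mul_pow, one_pow]
      ring
    rw [h1]
    refine Ideal.add_mem _ ?_ ?_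
    · refine Ideal.mul_mem_left _ _ ?_
      obtain ⟨r, hr⟩ := sub_dvd_pow_sub_pow (1 : MvPolynomial σ ℂ) (P * e') n
      rw [hr]
      exact Ideal.mul_mem_right _ _ (Ideal.mem_sup_right he')
    · exact Ideal.mul_mem_right _ _ (Ideal.mem_sup_left (hNn i))

/-- The degrees of a polynomial in a single variable. -/
private theorem degreeOf_univ {σ : Type} [DecidableEq σ] (i j : σ) (r : Polynomial ℂ) :
    degreeOf i (Polynomial.aeval (X j : MvPolynomial σ ℂ) r) ≤ if i = j then r.natDegree else 0 := by
  rw [Polynomial.aeval_eq_sum_range]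
  refine (degreeOf_sum_le _ _ _).trans (Finset.sup_le fun k hk => ?_)
  rw [Finset.mem_range] at hk
  rw [smul_eq_C_mul]
  refine (degreeOf_C_mul_le _ _ _).trans ?_
  split_ifs with h
  · subst h
    refine (degreeOf_pow_le _ _ _).trans ?_
    rw [degreeOf_X_self]
    omega
  · rw [degreeOf_X_pow_of_ne k h]

/-- Reduction modulo monic polynomials in the single variables.
PROOF. By linearity for monomials, by induction on the total degree (or: the span of the monomials
with all exponents `≤ d` plus `I` is stable under multiplication by each `X i`, and contains `1`):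
if `a i = d + 1` (exponent in the variable `i`) replace `X i ^ (d + 1)` by
`X i ^ (d + 1) - X i ^ (d + 1 - natDegree p) * p (X i)` of lower degree in `X i`. -/
theorem box_reduce {σ : Type} [Fintype σ] (I : Ideal (MvPolynomial σ ℂ)) (d : ℕ)
    (hp : ∀ i : σ, ∃ p : Polynomial ℂ, p.Monic ∧ p.natDegree ≤ d ∧
      Polynomial.aeval (X i : MvPolynomial σ ℂ) p ∈ I) (f : MvPolynomial σ ℂ) :
    ∃ c ∈ Bx σ d, f - c ∈ I := by
  classical
  choose p hmon hdeg hpI using hp
  induction f using MvPolynomial.induction_on' with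
  | monomial a z =>
    set r : σ → Polynomial ℂ := fun i => (Polynomial.X ^ a i) %ₘ p i with hr
    have hrdeg : ∀ i, (r i).natDegree ≤ d := by
      intro i
      exact (Polynomial.natDegree_modByMonic_le _ (hmon i)).trans (hdeg i)
    refine ⟨z • ∏ i, Polynomial.aeval (X i : MvPolynomial σ ℂ) (r i), ?_, ?_⟩
    · refine (Bx σ d).smul_mem z ?_
      rw [mem_Bx]
      intro m hm i
      have h1 : degreeOf i (∏ j, Polynomial.aeval (X j : MvPolynomial σ ℂ) (r j)) ≤ d := by
        refine (degreeOf_prod_le _ _ _).trans ?_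
        refine (Finset.sum_le_sum fun j _ => degreeOf_univ i j (r j)).trans ?_
        rw [Finset.sum_ite_eq, if_pos (Finset.mem_univ i)]
        exact hrdeg i
      exact degreeOf_le_iff.1 h1 m (by rwa [MvPolynomial.mem_support_iff])
    · have h1 : ∀ i, (X i : MvPolynomial σ ℂ) ^ a i -
          Polynomial.aeval (X i : MvPolynomial σ ℂ) (r i) ∈ I := by
        intro i
        have h2 := Polynomial.modByMonic_add_div (Polynomial.X ^ a i) (p i)
        have h3 : (X i : MvPolynomial σ ℂ) ^ a i = Polynomial.aeval (X i : MvPolynomial σ ℂ)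
            (Polynomial.X ^ a i : Polynomial ℂ) := by
          rw [map_pow, Polynomial.aeval_X]
        rw [h3, ← h2, map_add, hr]
        simp only
        rw [add_sub_cancel_left, map_mul]
        exact Ideal.mul_mem_right _ _ (hpI i)
      have h4 : ∀ s : Finset σ, ∏ i ∈ s, (X i : MvPolynomial σ ℂ) ^ a i -
          ∏ i ∈ s, Polynomial.aeval (X i : MvPolynomial σ ℂ) (r i) ∈ I := by
        intro s
        induction s using Finset.induction_on with
        | empty =>
          rw [Finset.prod_empty, Finset.prod_empty, sub_self]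
          exact I.zero_mem
        | insert i s his ih =>
          rw [Finset.prod_insert his, Finset.prod_insert his]
          have h5 : ∀ A B A' B' : MvPolynomial σ ℂ, A * B - A' * B' =
              (A - A') * B + A' * (B - B') := by
            intro A B A' B'
            ring
          rw [h5]
          exact I.add_mem (Ideal.mul_mem_right _ _ (h1 i)) (Ideal.mul_mem_left _ _ ih)
      have h6 : (monomial a z : MvPolynomial σ ℂ) = z • ∏ i, (X i : MvPolynomial σ ℂ) ^ a i := by
        rw [monomial_eq, smul_eq_C_mul, Finsupp.prod_fintype]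
        intro i
        rw [pow_zero]
      rw [h6, ← smul_sub, smul_eq_C_mul]
      exact Ideal.mul_mem_left _ _ (h4 Finset.univ)
  | add f g hf hg =>
    obtain ⟨c, hc, hfc⟩ := hf
    obtain ⟨c', hc', hgc⟩ := hg
    refine ⟨c + c', (Bx σ d).add_mem hc hc', ?_⟩
    have h1 : f + g - (c + c') = (f - c) + (g - c') := by ring
    rw [h1]
    exact I.add_mem hfc hgc

end MP60829e.ST
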