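import Mathlib
import Pool.Agent.Lib.MP_60829e_nt.ST.BUnit

/-! # Representatives of bounded degree modulo high jets -/

open MvPolynomial Module

namespace MP60829e.ST

/-- Powers of `J T` are in `J (n T)`. PROOF. `InJ.mul` and induction (`Submodule.mul_le`,
`Ideal.span`). -/
theorem pow_le_JI {σ κ : Type} [Fintype σ] {M : ℕ} (b : κ → σ → ℂ) (wt : κ → ℕ)
    (y : Fin M → σ → ℂ) (T : ℕ) (I : Ideal (MvPolynomial σ ℂ)) (hI : I ≤ JI b wt y T) (n : ℕ) :
    I ^ n ≤ JI b wt y (n * T) := by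
  induction n with
  | zero =>
    intro f _
    rw [Nat.zero_mul]
    exact inJ_zero f
  | succ n ih =>
    rw [pow_succ, Nat.succ_mul]
    refine Ideal.mul_le.2 fun f hf g hg => ?_
    exact InJ.mul (ih hf) (hI hg)

private theorem biter_mem {σ : Type} {D : ℕ} {f : MvPolynomial σ ℂ} :
    f ∈ Bx σ D ↔ ∀ i, degreeOf i f ≤ D := by
  constructor
  · intro h i
    exact degreeOf_le_iff.2 fun m hm => h m (mem_support_iff.1 hm) i
  · intro h a ha i
    exact degreeOf_le_iff.1 (h i) a (mem_support_iff.2 ha)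

private theorem biter_mul {σ : Type} {D D' : ℕ} {f g : MvPolynomial σ ℂ} (hf : f ∈ Bx σ D)
    (hg : g ∈ Bx σ D') : f * g ∈ Bx σ (D + D') := by
  rw [biter_mem] at hf hg ⊢
  exact fun i => (degreeOf_mul_le i f g).trans (add_le_add (hf i) (hg i))

private theorem biter_mono {σ : Type} {D D' : ℕ} (h : D ≤ D') {f : MvPolynomial σ ℂ}
    (hf : f ∈ Bx σ D) : f ∈ Bx σ D' := fun a ha i => (hf a ha i).trans h

/-- one step of the iteration -/
private theorem biter_step {σ : Type} (E : Submodule ℂ (MvPolynomial σ ℂ)) {D d q : ℕ}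
    (hE : E ≤ Bx σ D) (J : Ideal (MvPolynomial σ ℂ))
    (h : ∀ f : MvPolynomial σ ℂ, ∃ c ∈ Bx σ (q * D + d),
      f - c ∈ Ideal.span (E : Set (MvPolynomial σ ℂ)) ^ (q + 1) ⊔ J)
    {x : MvPolynomial σ ℂ} (hx : x ∈ Ideal.span (E : Set (MvPolynomial σ ℂ))) :
    ∀ a : MvPolynomial σ ℂ, ∃ c ∈ Bx σ ((q + 1) * D + d),
      a * x - c ∈ Ideal.span (E : Set (MvPolynomial σ ℂ)) ^ (q + 2) ⊔ J := by
  induction hx using Submodule.span_induction with
  | mem e he =>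
    intro a
    obtain ⟨c, hc, hac⟩ := h a
    refine ⟨c * e, ?_, ?_⟩
    · have h1 : (q + 1) * D + d = (q * D + d) + D := by ring
      rw [h1]
      exact biter_mul hc (hE he)
    · have h1 : a * e - c * e = (a - c) * e := by ring
      rw [h1]
      obtain ⟨u, hu, j, hj, huj⟩ := Submodule.mem_sup.1 hac
      rw [← huj, add_mul]
      refine Submodule.add_mem_sup ?_ (Ideal.mul_mem_right _ _ hj)
      rw [show q + 2 = (q + 1) + 1 by ring, pow_succ _ (q + 1)]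
      exact Ideal.mul_mem_mul hu (Ideal.subset_span he)
  | zero =>
    intro a
    refine ⟨0, Submodule.zero_mem _, ?_⟩
    rw [mul_zero, sub_zero]
    exact Ideal.zero_mem _
  | add x y _ _ hx hy =>
    intro a
    obtain ⟨c, hc, hac⟩ := hx a
    obtain ⟨c', hc', hac'⟩ := hy a
    refine ⟨c + c', Submodule.add_mem _ hc hc', ?_⟩
    have h1 : a * (x + y) - (c + c') = (a * x - c) + (a * y - c') := by ring
    rw [h1]
    exact Ideal.add_mem _ hac hac'
  | smul b x _ hx =>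
    intro a
    obtain ⟨c, hc, hac⟩ := hx (a * b)
    refine ⟨c, hc, ?_⟩
    rw [smul_eq_mul, ← mul_assoc]
    exact hac

private theorem biter_claim {σ : Type} (E : Submodule ℂ (MvPolynomial σ ℂ)) {D d : ℕ}
    (hE : E ≤ Bx σ D) (J : Ideal (MvPolynomial σ ℂ))
    (h : ∀ f : MvPolynomial σ ℂ, ∃ c ∈ Bx σ d,
      f - c ∈ Ideal.span (E : Set (MvPolynomial σ ℂ)) ⊔ J) (q : ℕ) :
    ∀ f : MvPolynomial σ ℂ, ∃ c ∈ Bx σ (q * D + d),
      f - c ∈ Ideal.span (E : Set (MvPolynomial σ ℂ)) ^ (q + 1) ⊔ J := by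
  induction q with
  | zero =>
    intro f
    rw [Nat.zero_mul, Nat.zero_add, Nat.zero_add, pow_one]
    exact h f
  | succ q ih =>
    intro f
    obtain ⟨c, hc, hfc⟩ := h f
    obtain ⟨u, hu, j, hj, huj⟩ := Submodule.mem_sup.1 hfc
    obtain ⟨c', hc', huc⟩ := biter_step E hE J ih hu 1
    refine ⟨c + c', Submodule.add_mem _ (biter_mono (Nat.le_add_left _ _) hc) hc', ?_⟩
    have h1 : f - (c + c') = (1 * u - c') + j := by
      rw [one_mul]
      linear_combination -huj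
    rw [h1]
    exact Ideal.add_mem _ huc (Ideal.mem_sup_right hj)

/-- PROOF. `d` from `univ_mem`; `E0 = d`.  Claim: for all `q ≥ 1` and `f` there is
`c ∈ Bx ((q - 1) * D + d)` with `f - c ∈ (span E) ^ q ⊔ J (n T)` (`n` fixed).  `q = 1`: `box_reduce`
for the ideal `span E ⊔ J (n T)`.  Step: `f = c + ∑ e_i * f_i + r` with `e_i ∈ E`, `r ∈ J (n T)`;
`f_i = c_i + r_i` by the induction hypothesis; `∑ e_i c_i ∈ Bx (q D + d)` (`Bx` is multiplicative:
degrees add) and `∑ e_i r_i ∈ (span E) ^ (q + 1) ⊔ J (n T)`.  Then take `q = n` (`n ≥ 1`; `n = 0` is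
trivial as `J 0 = ⊤`) and `pow_le_JI`. -/
theorem box_rep {σ κ : Type} [Fintype σ] {M : ℕ} (b : κ → σ → ℂ) (wt : κ → ℕ)
    (hwt : ∀ k, 1 ≤ wt k) (y : Fin M → σ → ℂ) {D T : ℕ} (E : Submodule ℂ (MvPolynomial σ ℂ))
    (hE : E ≤ Bx σ D)
    (hfin : {g : σ → ℂ | (∀ i, g i ≠ 0) ∧ ∀ f ∈ E, eval g f = 0}.Finite)
    (hET : ∀ f ∈ E, f ∈ JI b wt y T) :
    ∃ E0 : ℕ, ∀ n : ℕ, ∀ f : MvPolynomial σ ℂ, ∃ c ∈ Bx σ (n * D + E0), f - c ∈ JI b wt y (n * T) := by
  obtain ⟨d, hd⟩ := univ_mem b wt hwt y E hfin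
  refine ⟨d, fun n f => ?_⟩
  rcases Nat.eq_zero_or_pos n with hn | hn
  · subst hn
    refine ⟨0, Submodule.zero_mem _, ?_⟩
    rw [Nat.zero_mul]
    exact inJ_zero _
  · obtain ⟨q, rfl⟩ := Nat.exists_eq_add_of_le' hn
    obtain ⟨c, hc, hfc⟩ := biter_claim E hE (JI b wt y ((q + 1) * T))
      (fun f => box_reduce _ d (fun i => by
        obtain ⟨p, hp1, hp2, hp3⟩ := hd i
        exact ⟨p, hp1, hp2, hp3 _⟩) f) q f
    refine ⟨c, biter_mono ?_ hc, ?_⟩
    · rw [Nat.succ_mul]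
      omega
    · have h1 : Ideal.span (E : Set (MvPolynomial σ ℂ)) ^ (q + 1) ⊔ JI b wt y ((q + 1) * T) ≤
          JI b wt y ((q + 1) * T) :=
        sup_le (pow_le_JI b wt y T _ (Ideal.span_le.2 hET) (q + 1)) le_rfl
      exact h1 hfc

end MP60829e.ST
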