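import Mathlib
import Pool.Agent.Lib.MP_60829e_nt.ST.Defs

/-! # Exponential polynomials on `ℕ ^ σ` -/

open MvPolynomial Module

namespace MP60829e.ST

section aux

variable {σ : Type} [DecidableEq σ]

/-- The shift of the variable `i`. -/
private def sh (i : σ) : Module.End ℂ ((σ → ℕ) → ℂ) where
  toFun f a := f (a + Pi.single i 1)
  map_add' _ _ := rfl
  map_smul' _ _ := rfl

private theorem sh_apply (i : σ) (f : (σ → ℕ) → ℂ) (a : σ → ℕ) :
    sh i f a = f (a + Pi.single i 1) := rfl

private theorem sh_comm (i j : σ) : Commute (sh i) (sh j) := by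
  ext f a
  change f (a + Pi.single i 1 + Pi.single j 1) = f (a + Pi.single j 1 + Pi.single i 1)
  rw [add_right_comm]

private theorem mem_of_sub_mem {V : Type*} [AddCommGroup V] [Module ℂ V] (f : Module.End ℂ V)
    (μ : ℂ) {x : V} (h : f x - μ • x ∈ f.maxGenEigenspace μ) : x ∈ f.maxGenEigenspace μ := by
  rw [Module.End.mem_maxGenEigenspace] at h ⊢
  obtain ⟨k, hk⟩ := h
  refine ⟨k + 1, ?_⟩
  rw [pow_succ]
  change ((f - μ • 1) ^ k) ((f - μ • 1) x) = 0
  have : (f - μ • 1) x = f x - μ • x := by simp
  rw [this]
  exact hk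

private theorem mem_gen (i : σ) (μ : ℂ) (r : (σ → ℕ) → ℂ)
    (hr : ∀ a, r (a + Pi.single i 1) = r a) (m : ℕ) :
    (fun a => r a * (a i : ℂ) ^ m * μ ^ a i) ∈ (sh i).maxGenEigenspace μ := by
  induction m using Nat.strong_induction_on with
  | _ m ih =>
    apply mem_of_sub_mem
    have h1 : sh i (fun a => r a * (a i : ℂ) ^ m * μ ^ a i) -
        μ • (fun a => r a * (a i : ℂ) ^ m * μ ^ a i) =
        ∑ j ∈ Finset.range m, ((m.choose j : ℂ) * μ) •
          (fun a : σ → ℕ => r a * (a i : ℂ) ^ j * μ ^ a i) := by
      funext a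
      rw [Pi.sub_apply, sh_apply, Finset.sum_apply]
      simp only [hr, Pi.add_apply, Pi.single_eq_same, Pi.smul_apply, smul_eq_mul]
      push_cast
      rw [add_pow, Finset.sum_range_succ]
      simp only [one_pow, mul_one, Nat.choose_self, Nat.cast_one]
      rw [mul_add, add_mul, Finset.mul_sum, Finset.sum_mul]
      have h2 : r a * (a i : ℂ) ^ m * μ ^ (a i + 1) = μ * (r a * (a i : ℂ) ^ m * μ ^ a i) := by
        ring
      rw [h2, add_sub_cancel_right]
      refine Finset.sum_congr rfl fun j _ => ?_
      ring
    rw [h1]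
    refine Submodule.sum_mem _ fun j hj => Submodule.smul_mem _ _ (ih j (Finset.mem_range.1 hj))

private theorem mem_all [Fintype σ] (g : σ → ℂ) (q : MvPolynomial σ ℂ) (i : σ) :
    (fun a : σ → ℕ => eval (fun i => (a i : ℂ)) q * ∏ i, g i ^ a i) ∈
      (sh i).maxGenEigenspace (g i) := by
  induction q using MvPolynomial.induction_on' with
  | monomial d c =>
    have h := mem_gen i (g i) (fun a => c * (∏ j ∈ Finset.univ.erase i, (a j : ℂ) ^ d j) *
      ∏ j ∈ Finset.univ.erase i, g j ^ a j) (by
        intro a
        have h1 : ∀ j ∈ Finset.univ.erase i, (a + Pi.single i 1 : σ → ℕ) j = a j := by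
          intro j hj
          have := Finset.ne_of_mem_erase hj
          simp [Pi.single_eq_of_ne this]
        congr 1
        · congr 1
          exact Finset.prod_congr rfl fun j hj => by rw [h1 j hj]
        · exact Finset.prod_congr rfl fun j hj => by rw [h1 j hj]) (d i)
    convert h using 1
    funext a
    rw [eval_monomial, Finsupp.prod_fintype _ _ (fun _ => pow_zero _),
      ← Finset.mul_prod_erase Finset.univ (fun j => (a j : ℂ) ^ d j) (Finset.mem_univ i),
      ← Finset.mul_prod_erase Finset.univ (fun j => g j ^ a j) (Finset.mem_univ i)]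
    ring
  | add p q hp hq =>
    have : (fun a : σ → ℕ => eval (fun i => (a i : ℂ)) (p + q) * ∏ i, g i ^ a i) =
        (fun a : σ → ℕ => eval (fun i => (a i : ℂ)) p * ∏ i, g i ^ a i) +
        (fun a : σ → ℕ => eval (fun i => (a i : ℂ)) q * ∏ i, g i ^ a i) := by
      funext a
      rw [Pi.add_apply, map_add, add_mul]
    rw [this]
    exact Submodule.add_mem _ hp hq

end aux

/-- An exponential polynomial with distinct bases (points of the torus) and some nonzero
coefficient polynomial does not vanish identically on `ℕ ^ σ`.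
PROOF. Induction on the number of nonzero `q l`.  Suppose `q l₀ ≠ 0`.  For `l ≠ l₀` choose `i` with
`g l i ≠ g l₀ i` and apply `Δ = (shift of a i by one) - g l i` exactly `totalDegree (q l) + 1` times:
on the term `l` it lowers the degree of the coefficient polynomial (the new coefficient polynomial
is `g l i * (q l (a + e_i) - q l a)`), so it kills it; on every other term `l'` the new coefficient
polynomial is `g l' i * q (a + e_i) - g l i * q a`, whose leading form is `(g l' i - g l i)` times
the leading form of `q`, so on the term `l₀` it stays nonzero.  After treating all `l ≠ l₀` we have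
`q' a * g l₀ ^ a = 0` for all `a ∈ ℕ ^ σ` with `q' ≠ 0`, impossible (a polynomial vanishing on
`ℕ ^ σ` is zero, `MvPolynomial.funext_set` or similar).
(Alternative: work with the univariate polynomial ring over the others, or with any other
argument; only the statement matters.) -/
theorem exp_poly {σ : Type} [Fintype σ] {M : ℕ} (g : Fin M → σ → ℂ) (hg : ∀ l i, g l i ≠ 0)
    (hinj : Function.Injective g) (q : Fin M → MvPolynomial σ ℂ)
    (h : ∀ a : σ → ℕ, ∑ l, eval (fun i => (a i : ℂ)) (q l) * ∏ i, g l i ^ a i = 0) :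
    ∀ l, q l = 0 := by
  classical
  have hind := Module.End.independent_iInf_maxGenEigenspace_of_forall_mapsTo (R := ℂ)
    (fun i : σ => sh i) (fun i j φ => Module.End.mapsTo_maxGenEigenspace_of_comm (sh_comm j i) φ)
  let F : Fin M → (σ → ℕ) → ℂ := fun l a => eval (fun i => (a i : ℂ)) (q l) * ∏ i, g l i ^ a i
  have hF : ∀ l, F l ∈ ⨅ i, (sh i).maxGenEigenspace (g l i) := fun l =>
    (Submodule.mem_iInf _).2 fun i => mem_all (g l) (q l) i
  have hsum : ∑ l, F l = 0 := by
    funext a
    rw [Finset.sum_apply]
    exact h a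
  have hind' := hind.comp hinj
  have hzero : ∀ l, F l = 0 := by
    intro l
    have h2 := hind' l
    rw [Submodule.disjoint_def] at h2
    apply h2 _ (hF l)
    have h3 : F l = -∑ j ∈ Finset.univ.erase l, F j := by
      rw [← Finset.add_sum_erase Finset.univ F (Finset.mem_univ l)] at hsum
      exact eq_neg_of_add_eq_zero_left hsum
    rw [h3]
    refine Submodule.neg_mem _ (Submodule.sum_mem _ fun j hj => ?_)
    exact Submodule.mem_iSup_of_mem j
      (Submodule.mem_iSup_of_mem (Finset.ne_of_mem_erase hj) (hF j))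
  intro l
  have hprod : ∀ a : σ → ℕ, (∏ i, g l i ^ a i) ≠ 0 := fun a =>
    Finset.prod_ne_zero_iff.2 fun i _ => pow_ne_zero _ (hg l i)
  have hev : ∀ a : σ → ℕ, eval (fun i => (a i : ℂ)) (q l) = 0 := by
    intro a
    have h1 := congrFun (hzero l) a
    exact (mul_eq_zero.1 h1).resolve_right (hprod a)
  refine MvPolynomial.funext_set (s := fun _ => Set.range (Nat.cast : ℕ → ℂ))
    (fun _ => Set.infinite_range_of_injective Nat.cast_injective) ?_
  intro x hx
  have hx' : ∀ i, ∃ n : ℕ, (n : ℂ) = x i := fun i => hx i (Set.mem_univ i)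
  choose a ha using hx'
  have : x = fun i => (a i : ℂ) := funext fun i => (ha i).symm
  rw [this, hev a, map_zero]

end MP60829e.ST
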