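import Mathlib
import Pool.Agent.Lib.MP_60829e_nt.ST.BExp

/-! # Jets can be prescribed -/

open MvPolynomial Module

namespace MP60829e.ST

private noncomputable def theta {σ κ : Type} [Fintype σ] (b : κ → σ → ℂ) :
    MvPolynomial κ ℂ →ₐ[ℂ] MvPolynomial σ ℂ :=
  aeval fun k => ∑ i, C (b k i) * X i

private theorem theta_injective {σ κ : Type} [Fintype σ] [Fintype κ] (b : Basis κ ℂ (σ → ℂ)) :
    Function.Injective (theta (σ := σ) b) := by
  classical
  let N : σ → κ → ℂ := fun i k => b.repr (Pi.single i 1) k
  let psi : MvPolynomial σ ℂ →ₐ[ℂ] MvPolynomial κ ℂ := aeval fun i => ∑ k, C (N i k) * X k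
  have h1 : ∀ k k', ∑ i, b k i * N i k' = if k = k' then 1 else 0 := by
    intro k k'
    have h2 : (∑ i, b k i • (Pi.single i (1 : ℂ) : σ → ℂ)) = b k := by
      ext j
      rw [Finset.sum_apply, Finset.sum_eq_single j]
      · simp
      · intro i _ hi
        rw [Pi.smul_apply, Pi.single_eq_of_ne (Ne.symm hi), smul_zero]
      · intro h
        exact absurd (Finset.mem_univ j) h
    have h3 := congrArg (fun v => b.repr v k') h2
    simp only [map_sum, map_smul, Finsupp.coe_finsetSum, Finset.sum_apply, Finsupp.smul_apply,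
      smul_eq_mul, Basis.repr_self] at h3
    rw [Finsupp.single_apply] at h3
    exact h3
  have h4 : psi.comp (theta b) = AlgHom.id ℂ (MvPolynomial κ ℂ) := by
    refine MvPolynomial.algHom_ext fun k => ?_
    rw [AlgHom.comp_apply, theta, aeval_X, map_sum]
    have h5 : ∀ i, psi (C (b k i) * X i) = ∑ k', C (b k i * N i k') * X k' := by
      intro i
      rw [map_mul, algHom_C, aeval_X, algebraMap_eq, Finset.mul_sum]
      refine Finset.sum_congr rfl fun k' _ => ?_
      rw [C_mul, mul_assoc]
    rw [Finset.sum_congr rfl fun i _ => h5 i, Finset.sum_comm]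
    have h6 : ∀ k', ∑ i, C (b k i * N i k') * X k' =
        (C (if k = k' then 1 else 0) * X k' : MvPolynomial κ ℂ) := by
      intro k'
      rw [← Finset.sum_mul, ← map_sum, h1]
    rw [Finset.sum_congr rfl fun k' _ => h6 k', Finset.sum_eq_single k]
    · simp
    · intro k' _ hk'
      rw [if_neg (Ne.symm hk'), C_0, zero_mul]
    · intro h
      exact absurd (Finset.mem_univ k) h
  intro f g hfg
  have h7 := congrArg psi hfg
  have h8 : ∀ f, psi (theta b f) = f := fun f => congrArg (fun φ => φ f) h4
  rwa [h8, h8] at h7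

/-- Finitely many derivatives at finitely many distinct points of the torus can be prescribed.
PROOF. Otherwise (duality in finite dimension) there are `c l α`, `l : Fin M`, `α ∈ A`, not all
zero, with `∑ c l α * ev (y l) (diag (∏ pr (b k) ^ α k) f) = 0` for all `f`.  Take `f = monomial a 1`:
`∑ l, eval a (q l) * ∏ i, exp (y l i) ^ a i = 0` with
`q l = ∑ α ∈ A, c l α * ∏ k, (∑ i, C (b k i) * X i) ^ α k`.  By `exp_poly` all `q l = 0`.  The
linear forms `∑ i, C (b k i) * X i` come from a basis: the algebra map
`MvPolynomial κ ℂ → MvPolynomial σ ℂ`, `X k ↦ ∑ i, C (b k i) * X i` is injective (its inverse is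
given by the inverse matrix), so all `c l α = 0`. -/
theorem jets_surj {σ κ : Type} [Fintype σ] [Fintype κ] (b : Basis κ ℂ (σ → ℂ)) {M : ℕ}
    (y : Fin M → σ → ℂ) (hinj : Function.Injective fun (l : Fin M) (i : σ) => Complex.exp (y l i))
    (A : Finset (κ → ℕ)) (t : Fin M → (κ → ℕ) → ℂ) :
    ∃ f : MvPolynomial σ ℂ, ∀ l, ∀ α ∈ A,
      ev (y l) (diag (fun a => ∏ k, pr (b k) a ^ α k) f) = t l α := by
  classical
  let L : MvPolynomial σ ℂ →ₗ[ℂ] (Fin M × A → ℂ) :=
    { toFun := fun f z => ev (y z.1) (diag (fun a => ∏ k, pr (b k) a ^ (z.2 : κ → ℕ) k) f)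
      map_add' := by
        intro f g
        ext z
        rw [map_add, ev_add_right]
        rfl
      map_smul' := by
        intro r f
        ext z
        rw [map_smul, ev_smul]
        rfl }
  have hL : LinearMap.range L = ⊤ := by
    by_contra hne
    obtain ⟨φ, hφ0, hφ⟩ := Submodule.exists_le_ker_of_lt_top _ (lt_top_iff_ne_top.2 hne)
    let c : Fin M × A → ℂ := fun z => φ (Pi.single z 1)
    have hφc : ∀ v, φ v = ∑ z, c z * v z := by
      intro v
      have h1 : v = ∑ z, v z • (Pi.single z (1 : ℂ) : Fin M × A → ℂ) := by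
        ext j
        rw [Finset.sum_apply, Finset.sum_eq_single j]
        · simp
        · intro i _ hi
          rw [Pi.smul_apply, Pi.single_eq_of_ne (Ne.symm hi), smul_zero]
        · intro h
          exact absurd (Finset.mem_univ j) h
      conv_lhs => rw [h1]
      rw [map_sum]
      refine Finset.sum_congr rfl fun z _ => ?_
      rw [map_smul, smul_eq_mul, mul_comm]
    have hzero : ∀ f, ∑ z, c z * L f z = 0 := by
      intro f
      rw [← hφc]
      exact hφ ⟨f, rfl⟩
    let q : Fin M → MvPolynomial σ ℂ := fun l => ∑ α : A,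
      C (c (l, α)) * ∏ k, (∑ i, C (b k i) * X i) ^ (α : κ → ℕ) k
    have hq : ∀ l, q l = 0 := by
      refine exp_poly (fun l i => Complex.exp (y l i)) (fun l i => Complex.exp_ne_zero _) hinj q ?_
      intro a
      have h2 := hzero (monomial (Finsupp.equivFunOnFinite.symm a) 1)
      rw [Fintype.sum_prod_type] at h2
      rw [← h2]
      refine Finset.sum_congr rfl fun l _ => ?_
      have h3 : ∀ α : A, L (monomial (Finsupp.equivFunOnFinite.symm a) 1) (l, α) =
          (∏ k, (∑ i, b k i * (a i : ℂ)) ^ (α : κ → ℕ) k) * ∏ i, Complex.exp (y l i) ^ a i := by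
        intro α
        show ev (y l) (diag (fun a => ∏ k, pr (b k) a ^ (α : κ → ℕ) k)
          (monomial (Finsupp.equivFunOnFinite.symm a) 1)) = _
        rw [diag_monomial, ev_monomial, mul_one]
        congr 1
        unfold pr
        rw [Complex.exp_sum]
        refine Finset.prod_congr rfl fun i _ => ?_
        rw [← Complex.exp_nat_mul, mul_comm]
        rfl
      rw [Finset.sum_congr rfl fun α _ => by rw [h3 α]]
      simp only [q, map_sum, map_mul, map_prod, map_pow, eval_C, eval_X]
      rw [Finset.sum_mul]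
      refine Finset.sum_congr rfl fun α _ => ?_
      ring
    have hc : ∀ z, c z = 0 := by
      rintro ⟨l, α⟩
      have h3 : theta (σ := σ) b (∑ α : A, monomial (Finsupp.equivFunOnFinite.symm (α : κ → ℕ))
          (c (l, α))) = 0 := by
        rw [map_sum, ← hq l]
        refine Finset.sum_congr rfl fun α _ => ?_
        rw [theta, aeval_monomial, Finsupp.prod_fintype _ _ (fun k => pow_zero _)]
        rfl
      have h4 := theta_injective b (h3.trans (map_zero _).symm)
      have h5 := congrArg (coeff (Finsupp.equivFunOnFinite.symm (α : κ → ℕ))) h4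
      rw [coeff_sum, coeff_zero, Finset.sum_eq_single α] at h5
      · rwa [coeff_monomial, if_pos rfl] at h5
      · intro β _ hβ
        rw [coeff_monomial, if_neg]
        intro h6
        exact hβ (Subtype.ext (Finsupp.equivFunOnFinite.symm.injective h6))
      · intro h6
        exact absurd (Finset.mem_univ α) h6
    apply hφ0
    refine LinearMap.ext fun v => ?_
    rw [hφc]
    simp [hc]
  obtain ⟨f, hf⟩ := LinearMap.range_eq_top.1 hL (fun z => t z.1 z.2)
  refine ⟨f, fun l α hα => ?_⟩
  exact congrFun hf (l, ⟨α, hα⟩)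

end MP60829e.ST
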