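import Mathlib
import Pool.Agent.Lib.MP_60829e_nt.ST.BIter
import Pool.Agent.Lib.MP_60829e_nt.ST.BSurj
import Pool.Agent.Lib.MP_60829e_nt.ST.BCount

/-! # The Bezout lemma -/

open MvPolynomial Module

namespace MP60829e.ST

/-- the list with `α k` copies of `k` -/
private noncomputable def cop {κ : Type} [Fintype κ] (α : κ → ℕ) : List κ :=
  (Finset.univ.toList.map fun k => List.replicate (α k) k).flatten

private theorem cop_prod {κ : Type} [Fintype κ] (α : κ → ℕ) (f : κ → ℂ) :
    ((cop α).map f).prod = ∏ k, f k ^ α k := by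
  unfold cop
  rw [List.map_flatten, List.prod_flatten, List.map_map, List.map_map,
    ← Finset.prod_map_toList]
  congr 1
  apply List.map_congr_left
  intro k _
  simp

private theorem cop_sum {κ : Type} [Fintype κ] (α : κ → ℕ) (f : κ → ℕ) :
    ((cop α).map f).sum = ∑ k, α k * f k := by
  unfold cop
  rw [List.map_flatten, List.sum_flatten, List.map_map, List.map_map,
    ← Finset.sum_map_toList]
  congr 1
  apply List.map_congr_left
  intro k _
  simp

/-- a basis adapted to a subspace -/
private theorem exists_basis {σ : Type} [Fintype σ] (W : Submodule ℂ (σ → ℂ)) :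
    ∃ (w v : ℕ) (b : Basis (Fin w ⊕ Fin v) ℂ (σ → ℂ)),
      (∀ i, b (Sum.inl i) ∈ W) ∧ w + v = Fintype.card σ ∧ finrank ℂ W = w := by
  obtain ⟨W', hW⟩ := Submodule.exists_isCompl W
  let bW : Basis (Fin (finrank ℂ W)) ℂ W := finBasis ℂ W
  let bW' : Basis (Fin (finrank ℂ W')) ℂ W' := finBasis ℂ W'
  refine ⟨finrank ℂ W, finrank ℂ W', (bW.prod bW').map (Submodule.prodEquivOfIsCompl W W' hW),
    ?_, ?_, rfl⟩
  · intro i
    rw [Basis.map_apply, Basis.prod_apply]
    simp
  · rw [Submodule.finrank_add_eq_of_isCompl hW, finrank_fintype_fun_eq_card]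

/-- If finitely many points of the torus are common zeros of `E` and the `M` different points
`exp (y l)` are zeros of order at least `T` along `W`, then `M T ^ dim W ≤ j! D ^ j`.
PROOF. Choose a basis `b : Basis (Fin w ⊕ Fin v) ℂ (σ → ℂ)` with `b (inl i) ∈ W`, `w = dim W`,
weights `wt (inl i) = 1`, `wt (inr i) = T`.  `hv` gives `E ⊆ J T` (a list of weight `< T` has no
`inr`, and length `< T`).  `box_rep` gives `E0`.  For every `N` put `n = N + w + 1` and take `A` from
`card_jets`.  The linear map `f ↦ (ev (y l) (diag (∏ pr (b k) ^ α k) f))_{l, α ∈ A}` is onto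
(`jets_surj`) and kills `J (n T)` (the diagonal operator is `ders` of a list with `α k` copies of
`b k`, of weight `< n T`), so its restriction to `Bx (n D + E0)` is onto:
`M * A.card ≤ (n D + E0 + 1) ^ j`, hence
`M * T ^ w * N ^ j ≤ j! * ((N + w + 1) * D + E0 + 1) ^ j`; `limit_ineq`. -/
theorem bezout {σ : Type} [Fintype σ] {D T M : ℕ} (hT : 1 ≤ T)
    (E : Submodule ℂ (MvPolynomial σ ℂ)) (hE : E ≤ Bx σ D)
    (hfin : {g : σ → ℂ | (∀ i, g i ≠ 0) ∧ ∀ f ∈ E, eval g f = 0}.Finite)
    (W : Submodule ℂ (σ → ℂ)) (y : Fin M → σ → ℂ)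
    (hinj : Function.Injective fun (l : Fin M) (i : σ) => Complex.exp (y l i))
    (hv : ∀ f ∈ E, ∀ ws : List (σ → ℂ), (∀ w ∈ ws, w ∈ W) → ws.length < T →
      ∀ l, ev (y l) (ders ws f) = 0) :
    M * T ^ finrank ℂ W ≤ (Fintype.card σ).factorial * D ^ Fintype.card σ := by
  classical
  obtain ⟨w, v, b, hbW, hcard, hw⟩ := exists_basis W
  rw [hw]
  let wt : Fin w ⊕ Fin v → ℕ := Sum.elim (fun _ => 1) (fun _ => T)
  have hwt : ∀ k, 1 ≤ wt k := by
    rintro (i | i)
    · exact le_refl 1
    · exact hT
  have hET : ∀ f ∈ E, f ∈ JI (fun k => b k) wt y T := by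
    intro f hf
    rw [mem_JI]
    intro l ks hks
    refine hv f hf _ ?_ ?_ l
    · intro z hz
      obtain ⟨k, hk, rfl⟩ := List.mem_map.1 hz
      rcases k with i | i
      · exact hbW i
      · exfalso
        have h1 : wt (Sum.inr i) ≤ (ks.map wt).sum :=
          List.single_le_sum (fun _ _ => Nat.zero_le _) _ (List.mem_map_of_mem hk)
        have h2 : wt (Sum.inr i) = T := rfl
        omega
    · rw [List.length_map]
      have h1 : ks.length ≤ (ks.map wt).sum := by
        have h2 := List.length_le_sum_of_one_le (ks.map wt) (by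
          intro x hx
          obtain ⟨k, _, rfl⟩ := List.mem_map.1 hx
          exact hwt k)
        rwa [List.length_map] at h2
      omega
  obtain ⟨E0, hE0⟩ := box_rep (fun k => b k) wt hwt y E hE hfin hET
  have main : ∀ N : ℕ, (M * T ^ w) * N ^ Fintype.card σ ≤ (Fintype.card σ).factorial *
      ((N + w + 1) * D + E0 + 1) ^ Fintype.card σ := by
    intro N
    obtain ⟨A, hA, hAc⟩ := card_jets w v T N hT
    obtain ⟨hfd, hfr⟩ := finrank_Bx σ ((N + w + 1) * D + E0)
    let Φ : Bx σ ((N + w + 1) * D + E0) →ₗ[ℂ] (Fin M × A → ℂ) :=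
      { toFun := fun f q => ev (y q.1) (diag (fun a => ∏ k, pr (b k) a ^ (q.2 : _ → ℕ) k) f.1)
        map_add' := fun f g => by
          funext q
          simp only [Submodule.coe_add, map_add, Pi.add_apply]
          exact ev_add_right _ _ _
        map_smul' := fun c f => by
          funext q
          simp only [Submodule.coe_smul, map_smul, Pi.smul_apply, RingHom.id_apply]
          exact ev_smul _ _ _ }
    have hsurj : Function.Surjective Φ := by
      intro t
      obtain ⟨f, hf⟩ := jets_surj b y hinj A (fun l α => if h : α ∈ A then t (l, ⟨α, h⟩) else 0)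
      obtain ⟨c, hc, hfc⟩ := hE0 (N + w + 1) f
      refine ⟨⟨c, hc⟩, ?_⟩
      funext q
      obtain ⟨l, α, hα⟩ := q
      change ev (y l) (diag (fun a => ∏ k, pr (b k) a ^ α k) c) = t (l, ⟨α, hα⟩)
      have h1 := hf l α hα
      rw [dif_pos hα] at h1
      have h2 : ev (y l) (diag (fun a => ∏ k, pr (b k) a ^ α k) (f - c)) = 0 := by
        have h3 := mem_JI.1 hfc l (cop α) ?_
        · rw [ders_eq_diag] at h3
          rw [← h3]
          have h4 : (fun a => ∏ k, pr (b k) a ^ α k) =
              fun a => (List.map (fun w => pr w a) (List.map (fun k => b k) (cop α))).prod := by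
            funext a
            rw [List.map_map]
            exact (cop_prod α _).symm
          rw [h4]
        · rw [cop_sum, Fintype.sum_sum_type]
          have h4 := hA α hα
          have h5 : ∑ i, α (Sum.inl i) * wt (Sum.inl i) = ∑ i, α (Sum.inl i) :=
            Finset.sum_congr rfl fun i _ => mul_one _
          have h6 : ∑ i, α (Sum.inr i) * wt (Sum.inr i) = T * ∑ i, α (Sum.inr i) := by
            rw [Finset.mul_sum]
            exact Finset.sum_congr rfl fun i _ => mul_comm _ _
          rw [h5, h6]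
          exact h4
      have h3 : f = (f - c) + c := by ring
      rw [h3, map_add, ev_add_right, h2, zero_add] at h1
      exact h1
    have h1 := LinearMap.finrank_le_finrank_of_surjective hsurj
    rw [finrank_pi, Fintype.card_prod, Fintype.card_fin, Fintype.card_coe] at h1
    have h2 : M * A.card ≤ ((N + w + 1) * D + E0 + 1) ^ Fintype.card σ := h1.trans hfr
    calc (M * T ^ w) * N ^ Fintype.card σ = M * (T ^ w * N ^ (w + v)) := by rw [hcard]; ring
      _ ≤ M * ((w + v).factorial * A.card) := Nat.mul_le_mul_left _ hAc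
      _ = (Fintype.card σ).factorial * (M * A.card) := by rw [hcard]; ring
      _ ≤ _ := Nat.mul_le_mul_left _ h2
  exact limit_ineq _ _ D E0 w _ main

end MP60829e.ST
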