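import Mathlib
import Pool.Agent.Lib.MP_60829e_nt.ST.ZDefs

/-! # Subgroups and characters -/

open MvPolynomial Module

namespace MP60829e.ST

/-- The character of `H` given by an exponent vector. -/
private noncomputable def zchar_chi {σ : Type} [Fintype σ] (H : AddSubgroup (σ → ℂ))
    (a : σ →₀ ℕ) : Multiplicative H →* ℂ where
  toFun h := Complex.exp (pr ((Multiplicative.toAdd h : H) : σ → ℂ) a)
  map_one' := by
    rw [toAdd_one, AddSubgroup.coe_zero, pr_zero_left, Complex.exp_zero]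
  map_mul' x y := by
    rw [toAdd_mul, AddSubgroup.coe_add, pr_add_left, Complex.exp_add]

private theorem zchar_eq {σ : Type} [Fintype σ] {H : AddSubgroup (σ → ℂ)} {a b : σ →₀ ℕ}
    (hab : zchar_chi H a = zchar_chi H b) {h : σ → ℂ} (hh : h ∈ Hull (Lat H)) :
    Complex.exp (pr h a) = Complex.exp (pr h b) := by
  have key : ∀ v : σ → ℂ, ∑ i, (((a i : ℤ) - (b i : ℤ) : ℤ) : ℂ) * v i = pr v a - pr v b := by
    intro v
    unfold pr
    rw [← Finset.sum_sub_distrib]
    refine Finset.sum_congr rfl fun i _ => ?_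
    push_cast
    ring
  have hl : (fun i => (a i : ℤ) - (b i : ℤ)) ∈ Lat H := by
    intro v hv
    rw [key v, Complex.exp_sub, div_eq_one_iff_eq (Complex.exp_ne_zero _)]
    exact DFunLike.congr_fun hab (Multiplicative.ofAdd ⟨v, hv⟩)
  have h1 := hh _ hl
  rw [key h, Complex.exp_sub, div_eq_one_iff_eq (Complex.exp_ne_zero _)] at h1
  exact h1

/-- A polynomial which vanishes on `y0 + H` vanishes on `y0 + Hull (Lat H)`.
PROOF. `ev (y0 + h) f = ∑ a, coeff a f * exp (pr y0 a) * χ_a h` with the characters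
`χ_a h = exp (pr h a)` of the group `Multiplicative H`.  Group the `a` of the support by the value of
`χ_a` as a monoid homomorphism; `linearIndependent_monoidHom` gives, for every class,
`∑_{a in class} coeff a f * exp (pr y0 a) = 0`.  If `χ_a = χ_b` on `H` then `a - b ∈ Lat H`, so
`exp (pr h a) = exp (pr h b)` for `h ∈ Hull (Lat H)`; so the value at `y0 + h` is a sum over classes
of zero. -/
theorem ev_hull {σ : Type} [Fintype σ] (H : AddSubgroup (σ → ℂ)) (f : MvPolynomial σ ℂ)
    (y0 : σ → ℂ) (hf : ∀ h ∈ H, ev (y0 + h) f = 0) (h : σ → ℂ) (hh : h ∈ Hull (Lat H)) :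
    ev (y0 + h) f = 0 := by
  classical
  set c : (σ →₀ ℕ) → ℂ := fun a => coeff a f * Complex.exp (pr y0 a) with hc
  have hev : ∀ v : σ → ℂ, ev (y0 + v) f = ∑ a ∈ f.support, c a * Complex.exp (pr v a) := by
    intro v
    rw [ev_eq_sum]
    refine Finset.sum_congr rfl fun a _ => ?_
    rw [pr_add_left, Complex.exp_add, hc]
    ring
  have hmaps : ∀ a ∈ f.support, zchar_chi H a ∈ f.support.image (zchar_chi H) :=
    fun a ha => Finset.mem_image_of_mem _ ha
  have hli := linearIndependent_iff'.1 (linearIndependent_monoidHom (Multiplicative H) ℂ)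
    (f.support.image (zchar_chi H))
    (fun χ => ∑ a ∈ f.support.filter (fun a => zchar_chi H a = χ), c a)
    (by
      funext g
      rw [Finset.sum_apply]
      have h2 := hf _ (Multiplicative.toAdd g : H).2
      rw [hev, ← Finset.sum_fiberwise_of_maps_to hmaps] at h2
      refine Eq.trans (Finset.sum_congr rfl fun χ _ => ?_) h2
      rw [Pi.smul_apply, smul_eq_mul, Finset.sum_mul]
      refine Finset.sum_congr rfl fun a ha => ?_
      rw [← (Finset.mem_filter.1 ha).2]
      rfl)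
  rw [hev, ← Finset.sum_fiberwise_of_maps_to hmaps]
  refine Finset.sum_eq_zero fun χ hχ => ?_
  obtain ⟨a0, _, ha0⟩ := Finset.mem_image.1 hχ
  have h3 : ∀ a ∈ f.support.filter (fun a => zchar_chi H a = χ),
      c a * Complex.exp (pr h a) = c a * Complex.exp (pr h a0) := by
    intro a ha
    rw [zchar_eq ((Finset.mem_filter.1 ha).2.trans ha0.symm) hh]
  rw [Finset.sum_congr rfl h3, ← Finset.sum_mul, hli χ hχ, zero_mul]

/-- If the zero set of `E` is not empty, stable under `H`, and contained in finitely many cosets of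
`H`, then `perp (Lat H) ⊆ H`.
PROOF. Let `y1` be a zero.  By `ev_hull` all `y1 + v`, `v ∈ Hull (Lat H) ⊇ perp (Lat H)`, are zeros.
Let `v ∈ perp (Lat H)`, `N = card F`, and consider the `N + 1` zeros `y1 + (k / N!) • v`,
`k = 0 .. N`.  Two of them, `k < k'`, are in the same coset: `((k' - k) / N!) • v ∈ H`; multiply by
the integer `N! / (k' - k)`. -/
theorem perp_le {σ : Type} [Fintype σ] (H : AddSubgroup (σ → ℂ)) (E : Set (MvPolynomial σ ℂ))
    (F : Finset (σ → ℂ)) (hne : ∃ y0, ∀ f ∈ E, ev y0 f = 0)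
    (hst : ∀ y, (∀ f ∈ E, ev y f = 0) → ∀ h ∈ H, ∀ f ∈ E, ev (y + h) f = 0)
    (hcov : ∀ y, (∀ f ∈ E, ev y f = 0) → ∃ y0 ∈ F, y - y0 ∈ H) :
    ∀ v ∈ perp (Lat H), v ∈ H := by
  classical
  intro v hv
  obtain ⟨y1, hy1⟩ := hne
  have hzero : ∀ t : ℂ, ∀ f ∈ E, ev (y1 + t • v) f = 0 := by
    intro t f hf
    refine ev_hull H f y1 (fun h hh => hst y1 hy1 h hh f hf) _ ?_
    intro l hl
    have h1 := (perp (Lat H)).smul_mem t hv l hl
    rw [h1, Complex.exp_zero]
  have hch : ∀ t : ℂ, ∃ y0 ∈ F, y1 + t • v - y0 ∈ H := fun t => hcov _ (hzero t)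
  choose φ hφ hφ' using hch
  set N := F.card with hN
  obtain ⟨k, hk, k', hk', hne', heq⟩ := Finset.exists_ne_map_eq_of_card_lt_of_maps_to
    (s := Finset.range (N + 1)) (t := F) (by rw [Finset.card_range]; omega)
    (f := fun k : ℕ => φ ((k : ℂ) / (N.factorial : ℂ))) (fun k _ => hφ _)
  have key : ∀ p q : ℕ, p < q → q < N + 1 →
      φ ((p : ℂ) / (N.factorial : ℂ)) = φ ((q : ℂ) / (N.factorial : ℂ)) → v ∈ H := by
    intro p q hpq hq hpq'
    have h1 := H.sub_mem (hφ' ((q : ℂ) / (N.factorial : ℂ))) (hφ' ((p : ℂ) / (N.factorial : ℂ)))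
    rw [hpq'] at h1
    have h2 : y1 + ((q : ℂ) / (N.factorial : ℂ)) • v - φ ((q : ℂ) / (N.factorial : ℂ)) -
        (y1 + ((p : ℂ) / (N.factorial : ℂ)) • v - φ ((q : ℂ) / (N.factorial : ℂ))) =
        (((q - p : ℕ) : ℂ) / (N.factorial : ℂ)) • v := by
      rw [Nat.cast_sub hpq.le, sub_div, sub_smul]
      abel
    rw [h2] at h1
    obtain ⟨M, hM⟩ := Nat.dvd_factorial (m := q - p) (n := N) (by omega) (by omega)
    have h3 := H.nsmul_mem h1 M
    have h4 : M • ((((q - p : ℕ) : ℂ) / (N.factorial : ℂ)) • v) = v := by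
      have h5 : (N.factorial : ℂ) ≠ 0 := by exact_mod_cast N.factorial_ne_zero
      rw [← Nat.cast_smul_eq_nsmul ℂ, smul_smul]
      have h6 : (M : ℂ) * (((q - p : ℕ) : ℂ) / (N.factorial : ℂ)) = 1 := by
        rw [← mul_div_assoc, div_eq_one_iff_eq h5, hM]
        push_cast
        ring
      rw [h6, one_smul]
    rwa [h4] at h3
  rcases lt_or_gt_of_ne hne' with h | h
  · exact key k k' h (Finset.mem_range.1 hk') heq
  · exact key k' k h (Finset.mem_range.1 hk) heq.symm

private theorem zchar_sum {σ : Type} [Fintype σ] (I : Finset σ) (l : σ → ℤ)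
    (x : {i // i ∈ I} → ℂ) :
    ∑ t, (l t : ℂ) * ext0 I x t = ∑ j : {i // i ∈ I}, (l j : ℂ) * x j := by
  rw [← Finset.sum_subset (Finset.subset_univ I) (fun t _ ht => by
    rw [ext0_notMem I x t ht, mul_zero]), ← Finset.sum_coe_sort I]
  exact Finset.sum_congr rfl fun j _ => by rw [ext0_mem I x j j.2]

/-- Restriction of an integer vector to `I`, with rational values. -/
private def zchar_res {σ : Type} (I : Finset σ) (l : σ → ℤ) : {i // i ∈ I} → ℚ := fun i => (l i : ℚ)

private theorem zchar_clear {σ : Type} [Fintype σ] (Λ : AddSubgroup (σ → ℤ)) (I : Finset σ)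
    (x : {i // i ∈ I} → ℚ)
    (hx : x ∈ Submodule.span ℚ (zchar_res I '' (Λ : Set (σ → ℤ)))) :
    ∃ d : ℕ, 0 < d ∧ ∃ l ∈ Λ, zchar_res I l = (d : ℚ) • x := by
  induction hx using Submodule.span_induction with
  | mem x hx =>
    obtain ⟨l, hl, rfl⟩ := hx
    exact ⟨1, one_pos, l, hl, by rw [Nat.cast_one, one_smul]⟩
  | zero =>
    refine ⟨1, one_pos, 0, Λ.zero_mem, ?_⟩
    rw [smul_zero]
    funext i
    simp [zchar_res]
  | add x y _ _ hx hy =>
    obtain ⟨d, hd, l, hl, e⟩ := hx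
    obtain ⟨d', hd', l', hl', e'⟩ := hy
    refine ⟨d * d', Nat.mul_pos hd hd', d' • l + d • l',
      Λ.add_mem (Λ.nsmul_mem hl _) (Λ.nsmul_mem hl' _), ?_⟩
    funext i
    have h1 := congrFun e i
    have h2 := congrFun e' i
    simp only [zchar_res, Pi.smul_apply, smul_eq_mul, Pi.add_apply, nsmul_eq_mul] at h1 h2 ⊢
    push_cast
    simp only [Pi.natCast_apply, Pi.mul_apply]
    push_cast
    rw [h1, h2]
    ring
  | smul q x _ hx =>
    obtain ⟨d, hd, l, hl, e⟩ := hx
    refine ⟨q.den * d, Nat.mul_pos q.den_pos hd, q.num • l, Λ.zsmul_mem hl _, ?_⟩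
    funext i
    have h1 := congrFun e i
    simp only [zchar_res, Pi.smul_apply, smul_eq_mul] at h1 ⊢
    push_cast
    rw [h1]
    have h2 : (q.den : ℚ) * q = q.num := by
      rw [mul_comm]
      exact Rat.mul_den_eq_num q
    rw [← h2]
    ring

/-- Multiples of the unit vectors are restrictions of elements of the lattice. -/
private theorem zchar_unit {σ : Type} [Fintype σ] (Λ : AddSubgroup (σ → ℤ)) (I : Finset σ)
    (hI : ∀ v ∈ perp Λ, (∀ i, i ∉ I → v i = 0) → v = 0) (i : {i // i ∈ I}) :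
    ∃ d : ℕ, 0 < d ∧ ∃ l ∈ Λ, l i = d ∧ ∀ j : {i // i ∈ I}, j ≠ i → l j = 0 := by
  classical
  have htop : Submodule.span ℚ (zchar_res I '' (Λ : Set (σ → ℤ))) = ⊤ := by
    by_contra hcon
    obtain ⟨φ, hφ, hle⟩ := Submodule.exists_le_ker_of_lt_top _ (lt_top_iff_ne_top.2 hcon)
    apply hφ
    have hsum : ∀ x : {i // i ∈ I} → ℚ, φ x = ∑ j, x j * φ (Pi.single j 1) := by
      intro x
      conv_lhs => rw [pi_eq_sum_univ' x]
      rw [map_sum]
      refine Finset.sum_congr rfl fun j _ => ?_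
      rw [map_smul, smul_eq_mul]
    set v : σ → ℂ := ext0 I (fun j => ((φ (Pi.single j 1) : ℚ) : ℂ)) with hv
    have hperp : v ∈ perp Λ := by
      intro l hl
      have h1 : φ (zchar_res I l) = 0 := hle (Submodule.subset_span ⟨l, hl, rfl⟩)
      rw [hsum] at h1
      rw [hv, zchar_sum]
      have h3 := congrArg (fun q : ℚ => (q : ℂ)) h1
      simpa [zchar_res] using h3
    have hz := hI v hperp (fun t ht => ext0_notMem I _ t ht)
    refine LinearMap.ext fun x => ?_
    rw [hsum, LinearMap.zero_apply]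
    refine Finset.sum_eq_zero fun j _ => ?_
    have h1 := congrFun hz j
    rw [hv, ext0_mem I _ j j.2, Pi.zero_apply] at h1
    have h2 : φ (Pi.single j 1) = 0 := by exact_mod_cast h1
    rw [h2, mul_zero]
  obtain ⟨d, hd, l, hl, e⟩ := zchar_clear Λ I (Pi.single i 1) (by rw [htop]; trivial)
  refine ⟨d, hd, l, hl, ?_, ?_⟩
  · have h1 := congrFun e i
    rw [Pi.smul_apply, Pi.single_eq_same, smul_eq_mul, mul_one] at h1
    unfold zchar_res at h1
    exact_mod_cast h1
  · intro j hj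
    have h1 := congrFun e j
    rw [Pi.smul_apply, Pi.single_eq_of_ne hj, smul_zero] at h1
    unfold zchar_res at h1
    exact_mod_cast h1

/-- Finitely many points of a coordinate torus transversal to `perp Λ` lie in finitely many cosets of
`Hull Λ`.
PROOF. For one `y0`.  The restrictions of the elements of `Λ` to `I` span `ℂ ^ I` (a vector of
`ℂ ^ I` orthogonal to all of them, extended by `0`, is in `perp Λ`, so zero by `hI`).  So there are
`l_1 .. l_j ∈ Λ`, `j = card I`, whose restrictions to `I` form an integral matrix of determinant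
`d ≠ 0`; by the adjugate `d • e_i = ∑ c_k • l_k` on `I` with integers `c_k`.  Hence
`g i ^ d = exp (d x_i) = exp (∑ c_k (l_k · x)) = exp (∑ c_k (l_k · y0))` for `x = ext0 I x` (its
coordinates off `I` are zero), a fixed nonzero number: finitely many `g i` (also if `d < 0`). -/
theorem finite_zeros {σ : Type} [Fintype σ] (Λ : AddSubgroup (σ → ℤ)) (I : Finset σ)
    (hI : ∀ v ∈ perp Λ, (∀ i, i ∉ I → v i = 0) → v = 0) (F : Finset (σ → ℂ)) :
    {g : {i // i ∈ I} → ℂ | ∃ x : {i // i ∈ I} → ℂ, (∀ i, g i = Complex.exp (x i)) ∧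
      ∃ y0 ∈ F, ext0 I x - y0 ∈ Hull Λ}.Finite := by
  classical
  choose d hd l hl hli hlj using zchar_unit Λ I hI
  have hfin : (⋃ y0 ∈ F, Set.pi Set.univ fun i : {i // i ∈ I} =>
      {w : ℂ | w ^ d i = Complex.exp (∑ t, (l i t : ℂ) * y0 t)}).Finite := by
    refine Set.Finite.biUnion F.finite_toSet fun y0 _ => Set.Finite.pi fun i => ?_
    refine Set.Finite.subset
      (Polynomial.nthRoots (d i) (Complex.exp (∑ t, (l i t : ℂ) * y0 t))).toFinset.finite_toSet ?_
    intro w hw
    rw [Finset.mem_coe, Multiset.mem_toFinset, Polynomial.mem_nthRoots (hd i)]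
    exact hw
  refine hfin.subset ?_
  rintro g ⟨x, hx, y0, hy0, hull⟩
  refine Set.mem_iUnion₂.2 ⟨y0, hy0, ?_⟩
  intro i _
  have h1 := hull (l i) (hl i)
  have h2 : ∑ t, (l i t : ℂ) * (ext0 I x - y0) t = (d i : ℂ) * x i - ∑ t, (l i t : ℂ) * y0 t := by
    have h3 : ∑ t, (l i t : ℂ) * (ext0 I x - y0) t =
        ∑ t, (l i t : ℂ) * ext0 I x t - ∑ t, (l i t : ℂ) * y0 t := by
      rw [← Finset.sum_sub_distrib]
      exact Finset.sum_congr rfl fun t _ => by rw [Pi.sub_apply, mul_sub]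
    rw [h3, zchar_sum, Finset.sum_eq_single i]
    · rw [hli i]
      push_cast
      rfl
    · intro j _ hj
      rw [hlj i j hj, Int.cast_zero, zero_mul]
    · intro h
      exact absurd (Finset.mem_univ i) h
  rw [h2, Complex.exp_sub, div_eq_one_iff_eq (Complex.exp_ne_zero _)] at h1
  change g i ^ d i = _
  rw [hx i, ← Complex.exp_nat_mul, h1]

end MP60829e.ST
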