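import Mathlib
import Pool.Agent.Lib.MP_60829e_nt.ST.ZDefs

/-! # The transporter as a zero set -/

open MvPolynomial Module

namespace MP60829e.ST

/-- The polynomials `y ↦ ψ (tau y f)`, `f ∈ G`, `ψ` a linear form vanishing on `p`. -/
noncomputable def Dl {σ : Type} [Fintype σ] (G : Set (MvPolynomial σ ℂ))
    (p : Ideal (MvPolynomial σ ℂ)) : Submodule ℂ (MvPolynomial σ ℂ) :=
  Submodule.span ℂ {g | ∃ f ∈ G, ∃ ψ : MvPolynomial σ ℂ →ₗ[ℂ] ℂ, (∀ u ∈ p, ψ u = 0) ∧
    g = diag (fun a => ψ (monomial a 1)) f}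

/-- PROOF. For a monomial `f` clear (`diag_monomial`, `ev_monomial`); both sides are linear in
`f`. -/
theorem ev_psi {σ : Type} [Fintype σ] (ψ : MvPolynomial σ ℂ →ₗ[ℂ] ℂ) (y : σ → ℂ)
    (f : MvPolynomial σ ℂ) : ev y (diag (fun a => ψ (monomial a 1)) f) = ψ (tau y f) := by
  induction f using MvPolynomial.induction_on' with
  | monomial a c =>
    rw [diag_monomial, ev_monomial, tau, diag_monomial]
    have h1 : (monomial a (Complex.exp (pr y a) * c) : MvPolynomial σ ℂ) =
        (Complex.exp (pr y a) * c) • monomial a 1 := by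
      rw [smul_monomial, smul_eq_mul, mul_one]
    rw [h1, map_smul, smul_eq_mul]
    ring
  | add p q hp hq => rw [map_add, ev_add_right, hp, hq, map_add, map_add]

theorem Dl_Bx {σ : Type} [Fintype σ] {D : ℕ} {G : Set (MvPolynomial σ ℂ)}
    (hG : G ⊆ (Bx σ D : Set (MvPolynomial σ ℂ))) (p : Ideal (MvPolynomial σ ℂ)) :
    Dl G p ≤ Bx σ D := by
  unfold Dl
  rw [Submodule.span_le]
  rintro _ ⟨f, hf, ψ, _, rfl⟩
  exact diag_mem_Bx _ (hG hf)

/-- PROOF. `ev_psi`; a vector outside a subspace is not killed by some linear form vanishing on the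
subspace (`Submodule.exists_le_ker_of_notMem` or `Submodule.exists_dual_map_eq_bot_of_notMem`). -/
theorem Dl_zero {σ : Type} [Fintype σ] (G : Set (MvPolynomial σ ℂ))
    (p : Ideal (MvPolynomial σ ℂ)) (y : σ → ℂ) :
    (∀ g ∈ Dl G p, ev y g = 0) ↔ ∀ f ∈ G, tau y f ∈ p := by
  constructor
  · intro h f hf
    by_contra hcon
    have h1 : tau y f ∉ p.restrictScalars ℂ := hcon
    obtain ⟨ψ, hψ, hψp⟩ := Submodule.exists_le_ker_of_notMem h1
    apply hψ
    rw [← ev_psi]
    apply h
    refine Submodule.subset_span ⟨f, hf, ψ, fun u hu => ?_, rfl⟩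
    exact hψp hu
  · intro h g hg
    unfold Dl at hg
    induction hg using Submodule.span_induction with
    | mem x hx =>
      obtain ⟨f, hf, ψ, hψ, rfl⟩ := hx
      rw [ev_psi]
      exact hψ _ (h f hf)
    | zero => exact map_zero _
    | add a b _ _ ha hb => rw [ev_add_right, ha, hb, add_zero]
    | smul c a _ ha => rw [ev_smul, ha, mul_zero]

/-- PROOF. For `g = diag ψ f`: `ders ws g = diag ψ (ders ws f)` (`ders_diag`), so by `ev_psi` the
value is `ψ (tau (y + h) (ders ws f)) = ψ (tau h (ders ws (tau y f)))` (`tau_add`, commutativity),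
and `tau h u ∈ p` for `u ∈ p`. -/
theorem Dl_ders {σ : Type} [Fintype σ] (G : Set (MvPolynomial σ ℂ))
    (p : Ideal (MvPolynomial σ ℂ)) (y h : σ → ℂ) (hh : h ∈ Stab p) (ws : List (σ → ℂ))
    (hG : ∀ f ∈ G, ders ws (tau y f) ∈ p) : ∀ g ∈ Dl G p, ev (y + h) (ders ws g) = 0 := by
  intro g hg
  unfold Dl at hg
  induction hg using Submodule.span_induction with
  | mem x hx =>
    obtain ⟨f, hf, ψ, hψ, rfl⟩ := hx
    rw [ders_diag, ev_psi, add_comm y h, tau_add, ← ders_tau ws y]
    apply hψ
    exact (mem_Stab.1 hh _).2 (hG f hf)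
  | zero =>
    have h1 : ders ws (0 : MvPolynomial σ ℂ) = 0 := by rw [ders_eq_diag, map_zero]
    rw [h1]
    exact map_zero _
  | add a b _ _ ha hb => rw [ders_add, ev_add_right, ha, hb, add_zero]
  | smul c a _ ha => rw [ders_smul, ev_smul, ha, mul_zero]

/-- A polynomial that vanishes at all points with nonzero coordinates is zero. -/
private theorem eq_zero_of_ev {σ : Type} [Fintype σ] (f : MvPolynomial σ ℂ)
    (h : ∀ y : σ → ℂ, ev y f = 0) : f = 0 := by
  classical
  have h1 : f * ∏ i, X i = 0 := by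
    apply MvPolynomial.funext
    intro x
    rw [map_mul, map_zero, map_prod]
    by_cases hx : ∀ i, x i ≠ 0
    · have h2 := h fun i => Complex.log (x i)
      have h3 : (fun i => Complex.exp (Complex.log (x i))) = x :=
        funext fun i => Complex.exp_log (hx i)
      unfold ev at h2
      rw [h3] at h2
      rw [h2, zero_mul]
    · push Not at hx
      obtain ⟨i, hi⟩ := hx
      rw [Finset.prod_eq_zero (Finset.mem_univ i) (by rw [eval_X]; exact hi), mul_zero]
  rcases mul_eq_zero.1 h1 with h2 | h2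
  · exact h2
  · exfalso
    rw [Finset.prod_eq_zero_iff] at h2
    obtain ⟨i, _, hi⟩ := h2
    exact X_ne_zero i hi

/-- PROOF. Otherwise for every linear form `ψ` vanishing on `p` the polynomial
`diag ψ P` vanishes at all points `exp y` (`ev_psi`), so it is zero (`MvPolynomial.funext` after
multiplication by `∏ X i`, as every point with nonzero coordinates is `exp y`), so `ψ (X ^ a) = 0`
for `a` in the support of `P`; hence `X ^ a ∈ p` for such an `a`, and a prime containing a monomial
contains a variable (or `1`). -/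
theorem not_all {σ : Type} [Fintype σ] (p : Ideal (MvPolynomial σ ℂ)) (hp : p.IsPrime)
    (hX : ∀ i, (X i : MvPolynomial σ ℂ) ∉ p) (P : MvPolynomial σ ℂ) (hP : P ≠ 0) :
    ∃ y : σ → ℂ, tau y P ∉ p := by
  classical
  by_contra hcon
  push Not at hcon
  obtain ⟨a, ha⟩ := MvPolynomial.ne_zero_iff.1 hP
  have h1 : (monomial a 1 : MvPolynomial σ ℂ) ∈ p := by
    by_contra hn
    have hn' : (monomial a 1 : MvPolynomial σ ℂ) ∉ p.restrictScalars ℂ := hn
    obtain ⟨ψ, hψ, hψp⟩ := Submodule.exists_le_ker_of_notMem hn'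
    have h2 : diag (fun a => ψ (monomial a 1)) P = 0 := by
      apply eq_zero_of_ev
      intro y
      rw [ev_psi]
      exact hψp (hcon y)
    have h3 := congrArg (coeff a) h2
    rw [coeff_diag, coeff_zero] at h3
    rcases mul_eq_zero.1 h3 with h4 | h4
    · exact hψ h4
    · exact ha h4
  have h2 : (monomial a 1 : MvPolynomial σ ℂ) = ∏ i, X i ^ a i := by
    rw [monomial_eq, C_1, one_mul, Finsupp.prod_fintype _ _ (fun i => pow_zero _)]
  rw [h2] at h1
  obtain ⟨i, _, hi⟩ := (Ideal.IsPrime.prod_mem_iff (hp := hp)).1 h1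
  exact hX i (hp.mem_of_pow_mem _ hi)

end MP60829e.ST
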