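import Mathlib
import Pool.Agent.Lib.MP_60829e_nt.ST.ZDefs

/-! # The prime ideal of the zero estimate -/

open MvPolynomial Module

namespace MP60829e.ST

/-- Translation as a ring automorphism. -/
private noncomputable def tauEquiv {σ : Type} [Fintype σ] (y : σ → ℂ) :
    MvPolynomial σ ℂ ≃+* MvPolynomial σ ℂ :=
  RingEquiv.ofRingHom (tauHom y).toRingHom (tauHom (-y)).toRingHom
    (RingHom.ext fun f => by
      change tau y (tau (-y) f) = f
      rw [← tau_add, add_neg_cancel, tau_zero])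
    (RingHom.ext fun f => by
      change tau (-y) (tau y f) = f
      rw [← tau_add, neg_add_cancel, tau_zero])

private theorem coheight_le_card {σ : Type} [Fintype σ] (q : PrimeSpectrum (MvPolynomial σ ℂ)) :
    Order.coheight q ≤ (Fintype.card σ : ℕ∞) := by
  have h1 := Order.coheight_le_krullDim q
  have h2 : Order.krullDim (PrimeSpectrum (MvPolynomial σ ℂ)) = ((Fintype.card σ : ℕ∞) : WithBot ℕ∞) := by
    have h3 := MvPolynomial.ringKrullDim_of_isNoetherianRing (R := ℂ) (ι := σ)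
    rw [ringKrullDim_eq_zero_of_field, zero_add, Nat.card_eq_fintype_card] at h3
    exact h3
  rw [h2] at h1
  exact_mod_cast h1

/-- The coheight as a natural number. -/
private noncomputable def cht {σ : Type} [Fintype σ] (q : PrimeSpectrum (MvPolynomial σ ℂ)) : ℕ :=
  (Order.coheight q).toNat

private theorem coe_cht {σ : Type} [Fintype σ] (q : PrimeSpectrum (MvPolynomial σ ℂ)) :
    (cht q : ℕ∞) = Order.coheight q := by
  refine ENat.natCast_toNat fun h => ?_
  have h1 := coheight_le_card q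
  rw [h, top_le_iff] at h1
  exact ENat.natCast_ne_top _ h1

private theorem cht_le {σ : Type} [Fintype σ] (q : PrimeSpectrum (MvPolynomial σ ℂ)) :
    cht q ≤ Fintype.card σ := by
  have h1 := coheight_le_card q
  rw [← coe_cht] at h1
  exact_mod_cast h1

private theorem cht_lt {σ : Type} [Fintype σ] {a b : PrimeSpectrum (MvPolynomial σ ℂ)}
    (h : a < b) : cht b + 1 ≤ cht a := by
  have h1 := Order.coheight_add_one_le h
  rw [← coe_cht, ← coe_cht] at h1
  exact_mod_cast h1

private theorem cht_comap {σ : Type} [Fintype σ] (y : σ → ℂ)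
    (p : PrimeSpectrum (MvPolynomial σ ℂ)) :
    cht (PrimeSpectrum.comap (tauHom y).toRingHom p) = cht p := by
  have h1 := Order.coheight_orderIso (PrimeSpectrum.comapEquiv (tauEquiv y)).symm p
  have h2 : (PrimeSpectrum.comapEquiv (tauEquiv y)).symm p
      = PrimeSpectrum.comap (tauHom y).toRingHom p := rfl
  rw [h2] at h1
  unfold cht
  rw [h1]

/-- PROOF. `m = card σ`.  For `r ≤ m` consider the primes `q` (points of
`PrimeSpectrum (MvPolynomial σ ℂ)`) with `X i ∉ q` for all `i` and `G r ⊆ q`, and let `d r` be the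
largest `Order.coheight` among them.  They exist: the kernel of `eval 1` (`ev 0`) contains
`G m ⊇ G r`.  `d r ≤ m` as the Krull dimension is `m`
(`MvPolynomial.ringKrullDim_of_isNoetherianRing`), `d 0 ≤ m - 1` as `⊥ < q` (`f0 ∈ q`), `d` is
nonincreasing and `d m ≥ 0`.  So `d r = d (r + 1)` for some `r < m`.  Take `p ⊇ G (r + 1)` of
coheight `d (r + 1) = d r`.  If all `tau y f`, `f ∈ G r`, are in `p`, then
`q = p.comap (tauHom y)` is prime, contains `G r`, not `X i` (`tau_X`), and has the same coheight as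
`p` (`tauHom y` is an automorphism with inverse `tauHom (-y)`; order isomorphism of the spectrum).
A minimal prime `q' ≤ q` of `span (G r)` (`Ideal.exists_minimalPrimes_le`) does not contain `X i`
and has coheight `≤ d r`; if `q' < q` then coheight `q' ≥ coheight q + 1 = d r + 1`
(`Order.coheight_add_one_le`), impossible.  So `q = q'`. -/
theorem exists_prime {σ : Type} [Fintype σ] (G : ℕ → Set (MvPolynomial σ ℂ))
    (hmono : ∀ r, G r ⊆ G (r + 1)) (f0 : MvPolynomial σ ℂ) (hf0 : f0 ∈ G 0) (hne : f0 ≠ 0)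
    (hev : ∀ f ∈ G (Fintype.card σ), ev 0 f = 0) :
    ∃ r < Fintype.card σ, ∃ p : Ideal (MvPolynomial σ ℂ), p.IsPrime ∧
      (∀ i, (X i : MvPolynomial σ ℂ) ∉ p) ∧ G (r + 1) ⊆ p ∧
      ∀ y : σ → ℂ, (∀ f ∈ G r, tau y f ∈ p) →
        p.comap (tauHom y).toRingHom ∈ (Ideal.span (G r)).minimalPrimes := by
  classical
  -- the primes
  set A : ℕ → Set (PrimeSpectrum (MvPolynomial σ ℂ)) := fun r =>
    {q | (∀ i, (X i : MvPolynomial σ ℂ) ∉ q.asIdeal) ∧ G r ⊆ (q.asIdeal : Set (MvPolynomial σ ℂ))}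
    with hA
  have hGm : ∀ r s, r ≤ s → G r ⊆ G s := fun r s h => monotone_nat_of_le_succ hmono h
  have hAm : ∀ r, A (r + 1) ⊆ A r := fun r q hq => ⟨hq.1, (hmono r).trans hq.2⟩
  -- a prime which contains `G m`
  set e0 : MvPolynomial σ ℂ →+* ℂ := eval (fun i => Complex.exp ((0 : σ → ℂ) i)) with he0
  set q0 : PrimeSpectrum (MvPolynomial σ ℂ) := ⟨RingHom.ker e0, RingHom.ker_isPrime e0⟩ with hq0
  have hq0m : ∀ r, r ≤ Fintype.card σ → q0 ∈ A r := by
    intro r hr
    refine ⟨fun i hi => ?_, fun f hf => ?_⟩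
    · have h1 : e0 (X i) = 0 := hi
      rw [he0, eval_X] at h1
      exact Complex.exp_ne_zero _ h1
    · exact hev f (hGm r _ hr hf)
  set d : ℕ → ℕ := fun r => Nat.findGreatest (fun n => ∃ q ∈ A r, cht q = n) (Fintype.card σ)
    with hd
  have hd1 : ∀ r, r ≤ Fintype.card σ → ∃ q ∈ A r, cht q = d r := by
    intro r hr
    exact Nat.findGreatest_spec (P := fun n => ∃ q ∈ A r, cht q = n) (cht_le q0)
      ⟨q0, hq0m r hr, rfl⟩
  have hd2 : ∀ r, ∀ q ∈ A r, cht q ≤ d r := by
    intro r q hq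
    exact Nat.le_findGreatest (P := fun n => ∃ q ∈ A r, cht q = n) (cht_le q) ⟨q, hq, rfl⟩
  have hd0 : d 0 + 1 ≤ Fintype.card σ := by
    obtain ⟨q, hq, hqd⟩ := hd1 0 (Nat.zero_le _)
    have h1 : (⊥ : PrimeSpectrum (MvPolynomial σ ℂ)) < q := by
      refine bot_lt_iff_ne_bot.2 fun h => hne ?_
      have h2 : f0 ∈ q.asIdeal := hq.2 hf0
      rw [h, PrimeSpectrum.asIdeal_bot] at h2
      exact (Submodule.mem_bot _).1 h2
    have h3 := cht_lt h1
    have h4 := cht_le (⊥ : PrimeSpectrum (MvPolynomial σ ℂ))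
    omega
  -- two equal values
  obtain ⟨r, hr, hrd⟩ : ∃ r < Fintype.card σ, d r ≤ d (r + 1) := by
    by_contra hcon
    push Not at hcon
    have h1 : ∀ r, r ≤ Fintype.card σ → d r + r ≤ d 0 := by
      intro r
      induction r with
      | zero => intro _; simp
      | succ r ih =>
        intro h
        have h2 := ih (by omega)
        have h3 := hcon r (by omega)
        omega
    have h4 := h1 _ le_rfl
    omega
  obtain ⟨p, hp, hpd⟩ := hd1 (r + 1) hr
  refine ⟨r, hr, p.asIdeal, p.isPrime, hp.1, hp.2, fun y hy => ?_⟩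
  set q : PrimeSpectrum (MvPolynomial σ ℂ) := PrimeSpectrum.comap (tauHom y).toRingHom p with hq
  have hqI : q.asIdeal = p.asIdeal.comap (tauHom y).toRingHom := rfl
  have hmem : ∀ f, f ∈ q.asIdeal ↔ tau y f ∈ p.asIdeal := fun f => Iff.rfl
  have hqA : q ∈ A r := by
    refine ⟨fun i hi => ?_, fun f hf => (hmem f).2 (hy f hf)⟩
    rw [hmem, tau_X] at hi
    rcases p.isPrime.mem_or_mem hi with h | h
    · apply p.isPrime.ne_top
      rw [Ideal.eq_top_iff_one]
      have h2 := p.asIdeal.mul_mem_left (C (Complex.exp (y i))⁻¹) h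
      rw [← C_mul, inv_mul_cancel₀ (Complex.exp_ne_zero _), C_1] at h2
      exact h2
    · exact hp.1 i h
  have hqc : cht q = cht p := cht_comap y p
  have hle : Ideal.span (G r) ≤ q.asIdeal := Ideal.span_le.2 hqA.2
  have := q.isPrime
  obtain ⟨q', hq'm, hq'q⟩ := Ideal.exists_minimalPrimes_le hle
  have hq'p : q'.IsPrime := hq'm.1.1
  set q1 : PrimeSpectrum (MvPolynomial σ ℂ) := ⟨q', hq'p⟩ with hq1
  have hq1A : q1 ∈ A r :=
    ⟨fun i hi => hqA.1 i (hq'q hi), fun f hf => hq'm.1.2 (Ideal.subset_span hf)⟩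
  have hle1 : q1 ≤ q := hq'q
  rcases eq_or_lt_of_le hle1 with h | h
  · have h2 : q' = q.asIdeal := congrArg PrimeSpectrum.asIdeal h
    rw [← hqI, ← h2]
    exact hq'm
  · exfalso
    have h2 := cht_lt h
    have h3 := hd2 r q1 hq1A
    omega

/-- PROOF. The minimal primes of `span G` are finitely many
(`Ideal.finite_minimalPrimes_of_isNoetherianRing`); `F` contains one `y` for every minimal prime of
the form `p.comap (tauHom y)` with `tau y f ∈ p` for all `f ∈ G`.  If
`p.comap (tauHom y) = p.comap (tauHom y0)` then `tau y f ∈ p ↔ tau y0 f ∈ p` for all `f`; with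
`f = tau (-y0) g`: `tau (y - y0) g ∈ p ↔ g ∈ p`. -/
theorem finite_cosets {σ : Type} [Fintype σ] (p : Ideal (MvPolynomial σ ℂ))
    (G : Set (MvPolynomial σ ℂ))
    (hmin : ∀ y : σ → ℂ, (∀ f ∈ G, tau y f ∈ p) →
      p.comap (tauHom y).toRingHom ∈ (Ideal.span G).minimalPrimes) :
    ∃ F : Finset (σ → ℂ), ∀ y : σ → ℂ, (∀ f ∈ G, tau y f ∈ p) → ∃ y0 ∈ F, y - y0 ∈ Stab p := by
  classical
  have hfin : (Ideal.span G).minimalPrimes.Finite :=
    Ideal.finite_minimalPrimes_of_isNoetherianRing (MvPolynomial σ ℂ) _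
  set g : Ideal (MvPolynomial σ ℂ) → (σ → ℂ) := fun q =>
    if h : ∃ y : σ → ℂ, p.comap (tauHom y).toRingHom = q then h.choose else 0 with hg
  refine ⟨hfin.toFinset.image g, fun y hy => ?_⟩
  set q := p.comap (tauHom y).toRingHom with hq
  refine ⟨g q, Finset.mem_image_of_mem g (hfin.mem_toFinset.2 (hmin y hy)), ?_⟩
  have hex : ∃ z : σ → ℂ, p.comap (tauHom z).toRingHom = q := ⟨y, rfl⟩
  have hgq : p.comap (tauHom (g q)).toRingHom = q := by
    have h1 : g q = hex.choose := dif_pos hex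
    rw [h1]
    exact hex.choose_spec
  have hiff : ∀ f, tau (g q) f ∈ p ↔ tau y f ∈ p := by
    intro f
    have h1 : f ∈ p.comap (tauHom (g q)).toRingHom ↔ f ∈ q := by rw [hgq]
    exact h1
  intro f
  have h2 := hiff (tau (-(g q)) f)
  rw [← tau_add, ← tau_add, add_neg_cancel, tau_zero, ← sub_eq_add_neg] at h2
  exact h2.symm

end MP60829e.ST
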