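import Mathlib
import Pool.Agent.Lib.MP_60829e_nt.ST.ZDefs

/-! # Restriction to a coordinate torus -/

open MvPolynomial Module

namespace MP60829e.ST

/-- PROOF. Both sides are algebra homomorphisms in `f`; compare on variables. -/
theorem ev_rho {σ : Type} [Fintype σ] (I : Finset σ) (x : {i // i ∈ I} → ℂ)
    (f : MvPolynomial σ ℂ) : ev x (rho I f) = ev (ext0 I x) f := by
  classical
  induction f using MvPolynomial.induction_on with
  | C c =>
    unfold rho ev
    simp
  | add p q hp hq => rw [map_add, ev_add_right, ev_add_right, hp, hq]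
  | mul_X p i hp =>
    rw [map_mul, ev_mul, ev_mul, hp]
    congr 1
    unfold rho ev
    rw [aeval_X, eval_X]
    by_cases h : i ∈ I
    · rw [dif_pos h, eval_X, ext0_mem I x i h]
    · rw [dif_neg h, ext0_notMem I x i h, Complex.exp_zero, map_one]

/-- The exponent vector restricted to `I`. -/
private noncomputable def resF {σ : Type} (I : Finset σ) (a : σ →₀ ℕ) : {i // i ∈ I} →₀ ℕ :=
  a.comapDomain Subtype.val Subtype.val_injective.injOn

private theorem resF_apply {σ : Type} (I : Finset σ) (a : σ →₀ ℕ) (i : {i // i ∈ I}) :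
    resF I a i = a i.1 := rfl

private theorem pr_res {σ : Type} [Fintype σ] (I : Finset σ) (w : {i // i ∈ I} → ℂ)
    (a : σ →₀ ℕ) : pr w (resF I a) = pr (ext0 I w) a := by
  classical
  unfold pr
  have h1 : ∑ i, ext0 I w i * (a i : ℂ) = ∑ i ∈ I, ext0 I w i * (a i : ℂ) := by
    symm
    apply Finset.sum_subset (Finset.subset_univ I)
    intro i _ hi
    rw [ext0_notMem I w i hi, zero_mul]
  rw [h1, ← Finset.sum_coe_sort I]
  apply Finset.sum_congr rfl
  intro i _
  rw [ext0_mem I w i.1 i.2, resF_apply]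

private theorem rho_monomial {σ : Type} [Fintype σ] (I : Finset σ) (a : σ →₀ ℕ) (c : ℂ) :
    rho I (monomial a c) = monomial (resF I a) c := by
  classical
  unfold rho
  rw [aeval_monomial, monomial_eq, algebraMap_eq, Finsupp.prod_fintype _ _ (by simp),
    Finsupp.prod_fintype _ _ (by simp)]
  congr 1
  have h1 : ∏ i, (if h : i ∈ I then (X ⟨i, h⟩ : MvPolynomial {i // i ∈ I} ℂ) else 1) ^ a i
      = ∏ i ∈ I, (if h : i ∈ I then (X ⟨i, h⟩ : MvPolynomial {i // i ∈ I} ℂ) else 1) ^ a i := by
    symm
    apply Finset.prod_subset (Finset.subset_univ I)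
    intro i _ hi
    rw [dif_neg hi, one_pow]
  rw [h1, ← Finset.prod_coe_sort I]
  apply Finset.prod_congr rfl
  intro i _
  rw [dif_pos i.2, resF_apply]

/-- PROOF. On monomials: `rho I (monomial a c) = monomial (a restricted to I) c` and
`pr w (a restricted) = pr (ext0 I w) a`. -/
theorem rho_ders {σ : Type} [Fintype σ] (I : Finset σ) (ws : List ({i // i ∈ I} → ℂ))
    (f : MvPolynomial σ ℂ) : ders ws (rho I f) = rho I (ders (ws.map (ext0 I)) f) := by
  classical
  induction f using MvPolynomial.induction_on' with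
  | monomial b c =>
    rw [rho_monomial, ders_eq_diag, ders_eq_diag, diag_monomial, diag_monomial, rho_monomial]
    congr 2
    rw [List.map_map]
    congr 1
    apply List.map_congr_left
    intro w _
    rw [Function.comp_apply, pr_res]
  | add p q hp hq => rw [map_add, ders_add, ders_add, map_add, hp, hq]

private theorem monomial_mem_Bx {σ : Type} [Fintype σ] {D : ℕ} {a : σ →₀ ℕ} (c : ℂ)
    (ha : ∀ i, a i ≤ D) : monomial a c ∈ Bx σ D := by
  classical
  intro b hb i
  rw [coeff_monomial] at hb
  split_ifs at hb with h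
  · rw [← h]
    exact ha i
  · exact absurd rfl hb

theorem rho_Bx {σ : Type} [Fintype σ] (I : Finset σ) {D : ℕ} {f : MvPolynomial σ ℂ}
    (hf : f ∈ Bx σ D) : rho I f ∈ Bx {i // i ∈ I} D := by
  classical
  rw [f.as_sum, map_sum]
  apply Submodule.sum_mem
  intro a ha
  rw [rho_monomial]
  apply monomial_mem_Bx
  intro i
  rw [resF_apply]
  exact hf a (MvPolynomial.mem_support_iff.1 ha) i.1

/-- If a polynomial vanishes on `y0 + U` so does its derivative in a direction of `U`.
PROOF. The function `z ↦ ev (y0 + t + z • u) f` (`z : ℂ`) is identically zero and has derivative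
`ev (y0 + t) (der u f)` at `0` (`ev_diag`, `ev_eq_sum`). -/
theorem der_of_vanish {σ : Type} [Fintype σ] (U : Submodule ℂ (σ → ℂ)) (f : MvPolynomial σ ℂ)
    (y0 : σ → ℂ) (h : ∀ t ∈ U, ev (y0 + t) f = 0) (u : σ → ℂ) (hu : u ∈ U) :
    ∀ t ∈ U, ev (y0 + t) (der u f) = 0 := by
  classical
  intro t ht
  have h0 : (fun z : ℂ => ev (y0 + (t + z • u)) f) = fun _ => (0 : ℂ) := by
    funext z
    exact h _ (U.add_mem ht (U.smul_mem z hu))
  have h1 : (fun z : ℂ => ev (y0 + (t + z • u)) f) = fun z : ℂ =>
      ∑ a ∈ f.support, coeff a f * Complex.exp (pr (y0 + t) a + z * pr u a) := by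
    funext z
    rw [ev_eq_sum]
    apply Finset.sum_congr rfl
    intro a _
    rw [← add_assoc, pr_add_left, pr_smul_left]
  have h2 : HasDerivAt (fun z : ℂ =>
      ∑ a ∈ f.support, coeff a f * Complex.exp (pr (y0 + t) a + z * pr u a))
      (∑ a ∈ f.support, coeff a f *
        (Complex.exp (pr (y0 + t) a + 0 * pr u a) * (1 * pr u a))) 0 := by
    apply HasDerivAt.fun_sum
    intro a _
    apply HasDerivAt.const_mul
    apply HasDerivAt.cexp
    exact ((hasDerivAt_id (0 : ℂ)).mul_const (pr u a)).const_add (pr (y0 + t) a)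
  rw [← h1, h0] at h2
  have h3 := h2.unique (hasDerivAt_const (0 : ℂ) (0 : ℂ))
  rw [der, ev_diag, ← h3]
  apply Finset.sum_congr rfl
  intro a _
  rw [zero_mul, add_zero]
  ring

private theorem der_ders_comm {σ : Type} [Fintype σ] (w : σ → ℂ) (ws : List (σ → ℂ))
    (f : MvPolynomial σ ℂ) : der w (ders ws f) = ders ws (der w f) := by
  rw [der, ders_diag]

private theorem der_add_left {σ : Type} [Fintype σ] (u t : σ → ℂ)
    (f : MvPolynomial σ ℂ) : der (u + t) f = der u f + der t f := by
  ext a
  rw [der, der, der, coeff_add, coeff_diag, coeff_diag, coeff_diag, pr_add_left, add_mul]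

private theorem ders_transfer_aux {σ : Type} [Fintype σ] (U : Submodule ℂ (σ → ℂ))
    (y0 : σ → ℂ) (L : List ((σ → ℂ) × (σ → ℂ))) (hL : ∀ q ∈ L, q.2 ∈ U) :
    ∀ g : MvPolynomial σ ℂ, (∀ L' : List ((σ → ℂ) × (σ → ℂ)), L'.Sublist L → ∀ t ∈ U,
      ev (y0 + t) (ders (L'.map fun q => q.1 + q.2) g) = 0) →
    ∀ t ∈ U, ev (y0 + t) (ders (L.map fun q => q.1) g) = 0 := by
  induction L with
  | nil =>
    intro g hg t ht
    exact hg [] (List.Sublist.refl _) t ht
  | cons p L ih =>
    intro g hg
    have hL1 : ∀ q ∈ L, q.2 ∈ U := fun q hq => hL q (List.mem_cons_of_mem _ hq)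
    have hp : p.2 ∈ U := hL p List.mem_cons_self
    have hA := ih hL1 g (fun L' hL' t ht => hg L' (hL'.cons p) t ht)
    have hB := ih hL1 (der (p.1 + p.2) g) (fun L' hL' t ht => by
      have := hg (p :: L') (hL'.cons_cons p) t ht
      rw [List.map_cons, ders_cons, der_ders_comm] at this
      exact this)
    intro t ht
    rw [List.map_cons, ders_cons]
    have hC := der_of_vanish U (ders (L.map fun q => q.1) g) y0 hA p.2 hp t ht
    have hD := hB t ht
    rw [← der_ders_comm, der_add_left, ev_add_right, hC, add_zero] at hD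
    exact hD

/-- PROOF. `u = (u + t) - t`.  Induction on `L` for the stronger statement: for all `B` (a list of
already treated directions, arbitrary vectors) .. ; e.g. prove: if for all sublists `L'` of `L` the
polynomial `ders (L'.map (u + t)) g` vanishes on `y0 + U` then `ders (L.map fst) g` vanishes on
`y0 + U`: for `L = (u, t) :: L₁` apply the induction hypothesis for `L₁` to the polynomials `g` and
`der (u + t) g` (diagonal operators commute), getting that `ders (L₁.map fst) g` and
`der (u + t) (ders (L₁.map fst) g)` vanish on `y0 + U`; subtract `der t (ders (L₁.map fst) g)`, which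
vanishes on `y0 + U` by `der_of_vanish`. -/
theorem ders_transfer {σ : Type} [Fintype σ] (U : Submodule ℂ (σ → ℂ)) (f : MvPolynomial σ ℂ)
    (y0 : σ → ℂ) (L : List ((σ → ℂ) × (σ → ℂ))) (hL : ∀ q ∈ L, q.2 ∈ U)
    (h : ∀ L' : List ((σ → ℂ) × (σ → ℂ)), L'.Sublist L → ∀ t ∈ U,
      ev (y0 + t) (ders (L'.map fun q => q.1 + q.2) f) = 0) :
    ev y0 (ders (L.map fun q => q.1) f) = 0 := by
  have := ders_transfer_aux U y0 L hL f h 0 U.zero_mem
  rwa [add_zero] at this

end MP60829e.ST
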