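import Mathlib
import Pool.Agent.Lib.MP_60829e_nt.ST.Bez
import Pool.Agent.Lib.MP_60829e_nt.ST.ZPrime
import Pool.Agent.Lib.MP_60829e_nt.ST.ZDual
import Pool.Agent.Lib.MP_60829e_nt.ST.ZChar
import Pool.Agent.Lib.MP_60829e_nt.ST.ZSlice
import Pool.Agent.Lib.MP_60829e_nt.ST.Coord

/-! # The zero estimate -/

open MvPolynomial Module

namespace MP60829e.ST

/-- The zero estimate.
PROOF. `G r = Gen S W T P r` (`Gen_mono`, `Gen_step`, `Gen_Bx`); `hv` says that `G m` vanishes at
`ev 0` (`ev_tau`, `ders_tau`).  `exists_prime` gives `r`, `p`; `finite_cosets` gives `F`.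
`E = Dl (G r) p ≤ Bx σ D`, its zeros are the `y` with `tau y f ∈ p` for all `f ∈ G r` (`Dl_zero`);
`0` is one (`tau 0 f = f ∈ G r ⊆ G (r + 1) ⊆ p`), they are stable under `H = Stab p`
(`Dl_ders` with `ws = []`) and covered by `F + H`.  `Λ = Lat H`.  `perp_le`: `perp Λ ≤ H`.
`perp Λ ≠ ⊤`: otherwise all `y` are zeros, `tau y P ∈ p` for all `y` (`P ∈ G 0 ⊆ G r`),
against `not_all`.  `exists_coord` for `U = perp Λ` gives `I`, `card I = m - finrank U`;
`exists_slice` gives `WI`.  Let `S' ⊆ S` be pairwise incongruent; for `y ∈ S'` choose `t y ∈ U` with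
`y i = t i` off `I` and `x y` with `ext0 I (x y) = y - t y`; `exp (x y)` are distinct (otherwise
`x y - x z ∈ 2 π i ℤ ^ I` and `y ≡ z`).  Apply `bezout` to `E.map (rho I)`, `WI`, the points `x y`
(indexed by `Fin (card S')`): `rho_Bx`; finiteness of the zero set from `finite_zeros`
(`ev_rho`, a zero `g = exp x` gives `ext0 I x - y0 ∈ H ≤ Hull Λ`, `y0 ∈ F`); vanishing: for
`us ⊆ WI` write `ext0 I u = w - t`, use `rho_ders`, `ev_rho`, `ders_transfer` with the pairs
`(ext0 I u, t)` (sum `w ∈ W`), base point `y - t y` and, for `t' ∈ U`,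
`ev (y + (t' - t y)) (ders ws f) = 0` by `Dl_ders` (`t' - t y ∈ U ≤ H`, `ders ws (tau y f) ∈
G (r + 1) ⊆ p` by `Gen_step`).  Finally `T ^ (finrank W - finrank (W ⊓ U)) ≤ T ^ finrank WI`. -/
theorem zero_estimate {σ : Type} [Fintype σ] {D T : ℕ} (hT : 1 ≤ T) (P : MvPolynomial σ ℂ)
    (hP : P ≠ 0) (hD : P ∈ Bx σ D) (S : Finset (σ → ℂ)) (h0 : 0 ∈ S) (W : Submodule ℂ (σ → ℂ))
    (hv : ∀ y : Fin (Fintype.card σ) → σ → ℂ, (∀ i, y i ∈ S) → ∀ ws : List (σ → ℂ),
      (∀ w ∈ ws, w ∈ W) → ws.length ≤ Fintype.card σ * T → ev (∑ i, y i) (ders ws P) = 0) :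
    ∃ Λ : AddSubgroup (σ → ℤ), perp Λ ≠ ⊤ ∧ ∀ S' ⊆ S,
      (∀ y ∈ S', ∀ z ∈ S', y ≠ z → ¬ Cong Λ y z) →
      S'.card * T ^ (finrank ℂ W - finrank ℂ (W ⊓ perp Λ : Submodule ℂ (σ → ℂ))) ≤
        (Fintype.card σ - finrank ℂ (perp Λ)).factorial * D ^ (Fintype.card σ - finrank ℂ (perp Λ)) := by
  classical
  have hPG : ∀ r, P ∈ Gen S W T P r := by
    intro r
    refine ⟨fun _ => 0, fun _ => h0, [], by simp, by simp, ?_⟩
    rw [ders_nil, Finset.sum_const_zero, tau_zero]
  have hev : ∀ f ∈ Gen S W T P (Fintype.card σ), ev 0 f = 0 := by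
    rintro f ⟨y, hy, ws, hws, hl, rfl⟩
    rw [ders_tau, ev_tau, zero_add]
    exact hv y hy ws hws hl
  obtain ⟨r, _, p, hp, hX, hGp, hmin⟩ := exists_prime (fun r => Gen S W T P r)
    (Gen_mono h0 W T P) P (hPG 0) hP hev
  obtain ⟨F, hF⟩ := finite_cosets p (Gen S W T P r) hmin
  have hGr : ∀ f ∈ Gen S W T P r, f ∈ p := fun f hf => hGp (Gen_mono h0 W T P r hf)
  have hne : ∃ y0 : σ → ℂ, ∀ f ∈ (Dl (Gen S W T P r) p : Set (MvPolynomial σ ℂ)),
      ev y0 f = 0 := by
    refine ⟨0, (Dl_zero (Gen S W T P r) p 0).2 ?_⟩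
    intro f hf
    rw [tau_zero]
    exact hGr f hf
  have hst : ∀ y : σ → ℂ, (∀ f ∈ (Dl (Gen S W T P r) p : Set (MvPolynomial σ ℂ)), ev y f = 0) →
      ∀ h ∈ Stab p, ∀ f ∈ (Dl (Gen S W T P r) p : Set (MvPolynomial σ ℂ)), ev (y + h) f = 0 := by
    intro y hy h hh f hf
    have h1 := Dl_ders (Gen S W T P r) p y h hh [] (by
      intro g hg
      rw [ders_nil]
      exact (Dl_zero (Gen S W T P r) p y).1 hy g hg) f hf
    rwa [ders_nil] at h1
  have hcov : ∀ y : σ → ℂ, (∀ f ∈ (Dl (Gen S W T P r) p : Set (MvPolynomial σ ℂ)),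
      ev y f = 0) → ∃ y0 ∈ F, y - y0 ∈ Stab p := by
    intro y hy
    exact hF y ((Dl_zero (Gen S W T P r) p y).1 hy)
  have hperp : ∀ v ∈ perp (Lat (Stab p)), v ∈ Stab p :=
    perp_le (Stab p) (Dl (Gen S W T P r) p : Set (MvPolynomial σ ℂ)) F hne hst hcov
  refine ⟨Lat (Stab p), ?_, ?_⟩
  · intro htop
    obtain ⟨y, hy⟩ := not_all p hp hX P hP
    refine hy ((mem_Stab.1 (hperp y ?_) P).2 (hGp (hPG (r + 1))))
    rw [htop]
    exact Submodule.mem_top
  · intro S' hS' hinc
    obtain ⟨I, hIc, hI1, hI2⟩ := exists_coord (perp (Lat (Stab p)))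
    obtain ⟨WI, hWf, hWI⟩ := exists_slice (perp (Lat (Stab p))) W I hI1 hI2
    choose t ht hto using hI2
    choose! w hw u hu hwu using hWI
    have hx : ∀ y : σ → ℂ, ext0 I (fun i => y i - t y i) = y - t y := by
      intro y
      funext i
      by_cases hi : i ∈ I
      · rw [ext0_mem I _ i hi, Pi.sub_apply]
      · rw [ext0_notMem I _ i hi, Pi.sub_apply, hto y i hi, sub_self]
    have hmain := bezout hT (Submodule.map (rho I).toLinearMap (Dl (Gen S W T P r) p))
      (D := D) (M := S'.card) (by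
        rintro f ⟨g, hg, rfl⟩
        exact rho_Bx I (Dl_Bx (Gen_Bx hD r) p hg)) (by
        refine (finite_zeros (Lat (Stab p)) I hI1 F).subset ?_
        rintro g ⟨hg, hgE⟩
        refine ⟨fun i => Complex.log (g i), fun i => (Complex.exp_log (hg i)).symm, ?_⟩
        obtain ⟨y0, hy0, hy⟩ := hcov (ext0 I fun i => Complex.log (g i)) (by
          intro f hf
          rw [← ev_rho]
          have h1 := hgE (rho I f) ⟨f, hf, rfl⟩
          rw [← h1]
          unfold ev
          congr 2
          funext i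
          exact Complex.exp_log (hg i))
        exact ⟨y0, hy0, mem_Hull.2 fun l hl => hl _ hy⟩)
      WI (fun l i => (S'.equivFin.symm l : σ → ℂ) i - t (S'.equivFin.symm l : σ → ℂ) i) (by
        intro l k hlk
        have h1 : ∀ i : {i // i ∈ I}, ∃ n : ℤ,
            (S'.equivFin.symm l : σ → ℂ) i - t (S'.equivFin.symm l : σ → ℂ) i =
            (S'.equivFin.symm k : σ → ℂ) i - t (S'.equivFin.symm k : σ → ℂ) i +
              n * (2 * Real.pi * Complex.I) := fun i =>
          Complex.exp_eq_exp_iff_exists_int.1 (congrFun hlk i)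
        choose n hn using h1
        by_contra hne'
        have h2 : (S'.equivFin.symm l : σ → ℂ) ≠ (S'.equivFin.symm k : σ → ℂ) := by
          intro h
          exact hne' (S'.equivFin.symm.injective (Subtype.ext h))
        refine hinc _ (S'.equivFin.symm l).2 _ (S'.equivFin.symm k).2 h2
          ⟨t (S'.equivFin.symm l : σ → ℂ) - t (S'.equivFin.symm k : σ → ℂ),
            Submodule.sub_mem _ (ht _) (ht _),
            fun i => if h : i ∈ I then n ⟨i, h⟩ else 0, ?_⟩
        intro i
        rw [Pi.sub_apply]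
        beta_reduce
        by_cases hi : i ∈ I
        · rw [dif_pos hi]
          have h3 := hn ⟨i, hi⟩
          simp only at h3
          linear_combination h3
        · rw [dif_neg hi, ← hto (S'.equivFin.symm l : σ → ℂ) i hi,
            ← hto (S'.equivFin.symm k : σ → ℂ) i hi]
          push_cast
          ring) (by
        rintro f ⟨g, hg, rfl⟩ us hus hul l
        have hy : (S'.equivFin.symm l : σ → ℂ) ∈ S := hS' (S'.equivFin.symm l).2
        change ev _ (ders us (rho I g)) = 0
        rw [rho_ders, ev_rho, hx]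
        have h1 := ders_transfer (perp (Lat (Stab p))) g
          ((S'.equivFin.symm l : σ → ℂ) - t (S'.equivFin.symm l : σ → ℂ))
          (us.map fun v => (ext0 I v, u v)) (by
            intro q hq
            obtain ⟨v, hv', rfl⟩ := List.mem_map.1 hq
            exact hu v (hus v hv')) (by
            intro L' hL' t' ht'
            have h2 : (S'.equivFin.symm l : σ → ℂ) - t (S'.equivFin.symm l : σ → ℂ) + t' =
                (S'.equivFin.symm l : σ → ℂ) + (t' - t (S'.equivFin.symm l : σ → ℂ)) := by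
              ring
            rw [h2]
            refine Dl_ders (Gen S W T P r) p _ _ (hperp _ (Submodule.sub_mem _ ht' (ht _))) _ ?_ g hg
            intro f hf
            refine hGp (Gen_step hf hy ?_ ?_)
            · intro z hz
              obtain ⟨q, hq, rfl⟩ := List.mem_map.1 hz
              obtain ⟨v, hv', rfl⟩ := List.mem_map.1 (hL'.subset hq)
              have h3 : ext0 I v + u v = w v := by
                rw [hwu v (hus v hv'), sub_add_cancel]
              change ext0 I v + u v ∈ W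
              rw [h3]
              exact hw v (hus v hv')
            · rw [List.length_map]
              have h3 := hL'.length_le
              rw [List.length_map] at h3
              omega)
        rw [List.map_map] at h1
        exact h1)
    have hcard : Fintype.card {i // i ∈ I} =
        Fintype.card σ - finrank ℂ (perp (Lat (Stab p))) := by
      rw [Fintype.card_coe]
      omega
    rw [hcard] at hmain
    refine le_trans (Nat.mul_le_mul_left _ (Nat.pow_le_pow_right hT ?_)) hmain
    omega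

end MP60829e.ST
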