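import Mathlib
import Pool.Agent.Lib.MP_60829e_nt.ST.CDefs

/-! # The space `W` -/

open MvPolynomial Module

namespace MP60829e.ST

private noncomputable def qv {k : ℕ} (om : Fin (k + 1) → ℂ) (i : Fin k) : Fin (k + 1) → ℂ :=
  Fin.cons (-om i.succ) (fun j => if j = i then om 0 else 0)

private noncomputable def qq {k : ℕ} (om : Fin (k + 1) → ℂ) :
    Fin k ⊕ Fin k → Fin (k + 1) ⊕ Fin (k + 1) → ℂ :=
  Sum.elim (fun i => Sum.elim (qv om i) 0) (fun i => Sum.elim 0 (qv om i))

private theorem alg_qv {k : ℕ} (om : Fin (k + 1) → ℂ) (halg : ∀ i, IsAlgebraic ℚ (om i))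
    (i : Fin k) (j : Fin (k + 1)) : IsAlgebraic ℚ (qv om i j) := by
  unfold qv
  refine Fin.cases ?_ (fun j => ?_) j
  · rw [Fin.cons_zero]
    exact (halg _).neg
  · rw [Fin.cons_succ]
    split_ifs
    · exact halg 0
    · exact isAlgebraic_zero

private theorem sum_qv {k : ℕ} (om : Fin (k + 1) → ℂ) (i : Fin k) :
    ∑ j, om j * qv om i j = 0 := by
  rw [Fin.sum_univ_succ]
  unfold qv
  simp only [Fin.cons_zero, Fin.cons_succ, mul_ite, mul_zero]
  rw [Finset.sum_ite_eq' Finset.univ i, if_pos (Finset.mem_univ i)]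
  ring

private theorem repr_qv {k : ℕ} (om : Fin (k + 1) → ℂ) (h0 : om 0 ≠ 0) (v : Fin (k + 1) → ℂ)
    (hv : ∑ j, om j * v j = 0) : v = ∑ i : Fin k, (v i.succ / om 0) • qv om i := by
  funext j
  rw [Finset.sum_apply]
  refine Fin.cases ?_ (fun j => ?_) j
  · simp only [Pi.smul_apply, smul_eq_mul]
    unfold qv
    simp only [Fin.cons_zero]
    rw [Fin.sum_univ_succ] at hv
    have h1 : ∀ i : Fin k, v i.succ / om 0 * -om i.succ = -(om i.succ * v i.succ) / om 0 := by
      intro i
      ring
    simp only [h1]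
    rw [← Finset.sum_div, Finset.sum_neg_distrib, eq_div_iff h0]
    linear_combination hv
  · simp only [Pi.smul_apply, smul_eq_mul]
    unfold qv
    simp only [Fin.cons_succ, mul_ite, mul_zero]
    rw [Finset.sum_ite_eq Finset.univ j, if_pos (Finset.mem_univ j), div_mul_cancel₀ _ h0]

private theorem mem_W_qq {k : ℕ} (om : Fin (k + 1) → ℂ) (t : Fin k ⊕ Fin k) :
    qq om t ∈ Wsub om := by
  rw [mem_Wsub, fL_apply, fR_apply]
  rcases t with i | i
  · constructor
    · exact sum_qv om i
    · simp [qq]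
  · constructor
    · simp [qq]
    · exact sum_qv om i

private theorem repr_qq {k : ℕ} (om : Fin (k + 1) → ℂ) (h0 : om 0 ≠ 0)
    {v : Fin (k + 1) ⊕ Fin (k + 1) → ℂ} (hv : v ∈ Wsub om) :
    ∃ ξ : Fin k ⊕ Fin k → ℂ, v = ∑ t, ξ t • qq om t := by
  rw [mem_Wsub, fL_apply, fR_apply] at hv
  refine ⟨Sum.elim (fun i => v (Sum.inl i.succ) / om 0) (fun i => v (Sum.inr i.succ) / om 0), ?_⟩
  funext j
  rw [Finset.sum_apply, Fintype.sum_sum_type]
  rcases j with j | j
  · have h1 := congrFun (repr_qv om h0 (fun j => v (Sum.inl j)) hv.1) j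
    rw [Finset.sum_apply] at h1
    simp only [qq, Sum.elim_inl, Sum.elim_inr, Pi.smul_apply, Pi.zero_apply, smul_zero,
      Finset.sum_const_zero, add_zero]
    exact h1
  · have h1 := congrFun (repr_qv om h0 (fun j => v (Sum.inr j)) hv.2) j
    rw [Finset.sum_apply] at h1
    simp only [qq, Sum.elim_inl, Sum.elim_inr, Pi.smul_apply, Pi.zero_apply, smul_zero,
      Finset.sum_const_zero, zero_add]
    exact h1

private noncomputable def vv {k : ℕ} (om : Fin (k + 1) → ℂ) (a b : ℂ) :
    Fin (k + 1) ⊕ Fin (k + 1) → ℂ :=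
  Sum.elim (Fin.cons (a / om 0) 0) (Fin.cons (b / om 0) 0)

private theorem fL_vv {k : ℕ} (om : Fin (k + 1) → ℂ) (h0 : om 0 ≠ 0) (a b : ℂ) :
    fL om (vv om a b) = a := by
  rw [fL_apply, Fin.sum_univ_succ]
  simp only [vv, Sum.elim_inl, Fin.cons_zero, Fin.cons_succ, Pi.zero_apply, mul_zero,
    Finset.sum_const_zero, add_zero]
  exact mul_div_cancel₀ a h0

private theorem fR_vv {k : ℕ} (om : Fin (k + 1) → ℂ) (h0 : om 0 ≠ 0) (a b : ℂ) :
    fR om (vv om a b) = b := by
  rw [fR_apply, Fin.sum_univ_succ]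
  simp only [vv, Sum.elim_inr, Fin.cons_zero, Fin.cons_succ, Pi.zero_apply, mul_zero,
    Finset.sum_const_zero, add_zero]
  exact mul_div_cancel₀ b h0

/-- PROOF. `q (inl i) = om 0 • e (inl i.succ) - om i.succ • e (inl 0)`, the same on the right.  They
span `Wsub om` (a vector of `Wsub om` is determined by its coordinates `inl i.succ`, `inr i.succ`).
`v0 = (om 0)⁻¹ • (e (inl 0) + x • e (inr 0))`: `fL v0 = 1`, `fR v0 = x`; if `fR v = x * fL v` then
`v - fL v • v0 ∈ Wsub om`. -/
theorem exists_W {k : ℕ} (om : Fin (k + 1) → ℂ) (halg : ∀ i, IsAlgebraic ℚ (om i))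
    (h0 : om 0 ≠ 0) (x : ℂ) :
    ∃ q : Fin k ⊕ Fin k → Fin (k + 1) ⊕ Fin (k + 1) → ℂ, (∀ t i, IsAlgebraic ℚ (q t i)) ∧
      Submodule.span ℂ (Set.range q) = Wsub om ∧
      ∃ v0 : Fin (k + 1) ⊕ Fin (k + 1) → ℂ, ∀ v, fR om v = x * fL om v →
        ∃ ξ : Fin k ⊕ Fin k → ℂ, ∃ ξ0 : ℂ, v = (∑ t, ξ t • q t) + ξ0 • v0 := by
  refine ⟨qq om, ?_, ?_, vv om 1 x, ?_⟩
  · intro t i
    rcases t with t | t <;> rcases i with i | i
    · exact alg_qv om halg t i
    · exact isAlgebraic_zero
    · exact isAlgebraic_zero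
    · exact alg_qv om halg t i
  · apply le_antisymm
    · rw [Submodule.span_le]
      rintro _ ⟨t, rfl⟩
      exact mem_W_qq om t
    · intro v hv
      obtain ⟨ξ, hξ⟩ := repr_qq om h0 hv
      rw [hξ]
      exact Submodule.sum_mem _ fun t _ => Submodule.smul_mem _ _ (Submodule.subset_span ⟨t, rfl⟩)
  · intro v hv
    have h1 : v - fL om v • vv om 1 x ∈ Wsub om := by
      rw [mem_Wsub, map_sub, map_sub, map_smul, map_smul, fL_vv om h0, fR_vv om h0, hv,
        smul_eq_mul, smul_eq_mul]
      constructor <;> ring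
    obtain ⟨ξ, hξ⟩ := repr_qq om h0 h1
    refine ⟨ξ, fL om v, ?_⟩
    rw [← hξ, sub_add_cancel]

/-- PROOF. The map `v ↦ (fL v, fR v)` onto `ℂ × ℂ` is onto; rank-nullity. -/
theorem finrank_Wsub {k : ℕ} (om : Fin (k + 1) → ℂ) (h0 : om 0 ≠ 0) :
    finrank ℂ (Wsub om) + 2 = Fintype.card (Fin (k + 1) ⊕ Fin (k + 1)) := by
  have h1 := ((fL om).prod (fR om)).finrank_range_add_finrank_ker
  have h2 : LinearMap.range ((fL om).prod (fR om)) = ⊤ := by
    rw [LinearMap.range_eq_top]
    rintro ⟨a, b⟩
    refine ⟨vv om a b, ?_⟩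
    rw [LinearMap.prod_apply, Function.prod, fL_vv om h0, fR_vv om h0]
  rw [h2, finrank_top, LinearMap.ker_prod, Module.finrank_prod, Module.finrank_self,
    Module.finrank_fintype_fun_eq_card] at h1
  rw [← h1, add_comm]
  rfl

private theorem der_lin {σ : Type} [Fintype σ] (c : ℂ) (w w' : σ → ℂ) (f : MvPolynomial σ ℂ) :
    der (c • w + w') f = c • der w f + der w' f := by
  ext a
  rw [coeff_add, coeff_smul, der, der, der, coeff_diag, coeff_diag, coeff_diag, pr_add_left,
    pr_smul_left, smul_eq_mul]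
  ring

private theorem der_zero_left {σ : Type} [Fintype σ] (f : MvPolynomial σ ℂ) :
    der (0 : σ → ℂ) f = 0 := by
  ext a
  rw [der, coeff_diag, pr_zero_left, zero_mul, coeff_zero]

private theorem ders_zero {σ : Type} [Fintype σ] (ws : List (σ → ℂ)) :
    ders ws (0 : MvPolynomial σ ℂ) = 0 := by
  rw [ders_eq_diag, map_zero]

/-- PROOF. `der` is linear in the direction; induction on the list (the order of derivations does
not matter, they are diagonal): every `ws` is a combination of lists `ks.map q` of the same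
length. -/
theorem ders_span {σ τ : Type} [Fintype σ] [Fintype τ] (q : τ → σ → ℂ) (P : MvPolynomial σ ℂ)
    (y : σ → ℂ) (n : ℕ) (h : ∀ ks : List τ, ks.length ≤ n → ev y (ders (ks.map q) P) = 0) :
    ∀ ws : List (σ → ℂ), (∀ w ∈ ws, w ∈ Submodule.span ℂ (Set.range q)) → ws.length ≤ n →
      ev y (ders ws P) = 0 := by
  have key : ∀ (ws : List (σ → ℂ)) (ks : List τ),
      (∀ w ∈ ws, w ∈ Submodule.span ℂ (Set.range q)) → ks.length + ws.length ≤ n →
      ev y (ders (ks.map q) (ders ws P)) = 0 := by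
    intro ws
    induction ws with
    | nil =>
      intro ks _ hl
      rw [ders_nil]
      exact h ks (by simpa using hl)
    | cons w ws ih =>
      intro ks hw hl
      have hws : ∀ w' ∈ ws, w' ∈ Submodule.span ℂ (Set.range q) := fun w' hw' =>
        hw w' (List.mem_cons_of_mem _ hw')
      have hw0 : w ∈ Submodule.span ℂ (Set.range q) := hw w List.mem_cons_self
      rw [List.length_cons] at hl
      rw [ders_cons]
      induction hw0 using Submodule.span_induction with
      | mem w hw1 =>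
        obtain ⟨t, rfl⟩ := hw1
        have h1 := ih (ks ++ [t]) hws (by
          rw [List.length_append, List.length_singleton]
          omega)
        rw [List.map_append, ders_append] at h1
        exact h1
      | zero =>
        rw [der_zero_left, ders_zero]
        unfold ev
        rw [map_zero]
      | add x z _ _ hx hz =>
        have h1 := der_lin 1 x z (ders ws P)
        rw [one_smul, one_smul] at h1
        rw [h1, ders_add, ev_add_right]
        rw [hx ?_, hz ?_, add_zero]
        · intro w' hw'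
          rcases List.mem_cons.1 hw' with rfl | h2
          · assumption
          · exact hws w' h2
        · intro w' hw'
          rcases List.mem_cons.1 hw' with rfl | h2
          · assumption
          · exact hws w' h2
      | smul c x _ hx =>
        have h1 := der_lin c x 0 (ders ws P)
        rw [add_zero, der_zero_left, add_zero] at h1
        rw [h1, ders_smul, ev_smul, hx ?_, mul_zero]
        intro w' hw'
        rcases List.mem_cons.1 hw' with rfl | h2
        · assumption
        · exact hws w' h2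
  intro ws hws hl
  exact key ws [] hws (by simpa using hl)

end MP60829e.ST
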