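import Mathlib
import Pool.Agent.Lib.MP_60829e_nt.ST.Zero
import Pool.Agent.Lib.MP_60829e_nt.ST.AuxMain
import Pool.Agent.Lib.MP_60829e_nt.ST.CW
import Pool.Agent.Lib.MP_60829e_nt.ST.CForm
import Pool.Agent.Lib.MP_60829e_nt.ST.CCount

/-! # The core of the eight column theorem -/

open MvPolynomial Module

namespace MP60829e.ST

/-- numerical end of case A -/
private theorem caseA {m j D T : ℕ} (hj : 1 ≤ j) (hjm : j ≤ m) (hT : T = m * D + 1)
    (h : T ^ j ≤ j.factorial * D ^ j) : False := by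
  have h1 : m * D < T := by omega
  have h2 : (m * D) ^ j < T ^ j := Nat.pow_lt_pow_left h1 (by omega)
  have h3 : j.factorial ≤ m ^ j := (Nat.factorial_le_pow j).trans (Nat.pow_le_pow_left hjm j)
  have h4 : j.factorial * D ^ j ≤ (m * D) ^ j := by
    rw [mul_pow]
    exact Nat.mul_le_mul_right _ h3
  omega

/-- numerical end of case B -/
private theorem caseB {k m j w D T S1 Y c : ℕ} (hm : m = 2 * (k + 1)) (hjm : j ≤ m)
    (hw : j - 2 ≤ w) (hD : 1 ≤ D) (hDY : D = Y ^ m) (hY : m * S1 = Y)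
    (hYbig : m ^ (5 * (k + 1)) * m.factorial < Y) (hT : D ≤ T)
    (hc : S1 ^ (5 * (k + 1)) ≤ c) (h : c * T ^ w ≤ j.factorial * D ^ j) : False := by
  have hT1 : 1 ≤ T := hD.trans hT
  have h1 : D ^ (j - 2) ≤ T ^ w :=
    (Nat.pow_le_pow_left hT _).trans (Nat.pow_le_pow_right hT1 hw)
  have h2 : S1 ^ (5 * (k + 1)) * D ^ (j - 2) ≤ j.factorial * D ^ j :=
    (Nat.mul_le_mul hc h1).trans h
  have h3 : D ^ j ≤ D ^ 2 * D ^ (j - 2) := by
    rw [← pow_add]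
    exact Nat.pow_le_pow_right hD (by omega)
  have h4 : j.factorial * D ^ j ≤ m.factorial * D ^ 2 * D ^ (j - 2) := by
    rw [mul_assoc]
    exact Nat.mul_le_mul (Nat.factorial_le hjm) h3
  have h5 : S1 ^ (5 * (k + 1)) ≤ m.factorial * D ^ 2 :=
    Nat.le_of_mul_le_mul_right (h2.trans h4) (pow_pos hD _)
  have h6 : Y ^ (5 * (k + 1)) ≤ m ^ (5 * (k + 1)) * m.factorial * Y ^ (4 * (k + 1)) := by
    have e1 : Y ^ (5 * (k + 1)) = m ^ (5 * (k + 1)) * S1 ^ (5 * (k + 1)) := by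
      rw [← hY, mul_pow]
    have e2 : D ^ 2 = Y ^ (4 * (k + 1)) := by
      rw [hDY, ← pow_mul, hm]
      congr 1
      ring
    rw [e1, mul_assoc, ← e2]
    exact Nat.mul_le_mul_left _ h5
  have hY0 : 0 < Y := by omega
  have h7 : Y ^ (k + 1) ≤ m ^ (5 * (k + 1)) * m.factorial := by
    have e3 : Y ^ (5 * (k + 1)) = Y ^ (k + 1) * Y ^ (4 * (k + 1)) := by
      rw [← pow_add]
      congr 1
      ring
    rw [e3] at h6
    exact Nat.le_of_mul_le_mul_right h6 (pow_pos hY0 _)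
  have h8 : Y ≤ Y ^ (k + 1) := Nat.le_self_pow (by omega) Y
  omega

/-- PROOF. `σ = Fin (k + 1) ⊕ Fin (k + 1)`, `m = card σ = 2 (k + 1)`, `τ = Fin k ⊕ Fin k`, `q`, `v0`
from `exists_W` for `x`.  `aux_poly` with `C0 = m ^ 2 + 2 m`: `R0`; take `R ≥ R0`, `R ≥ m! + 1`,
`D = R ^ (4 m (m - 1))`, `S0 = R ^ (4 (m - 1))`, `T = m * D + 1`, `P`.
`S = {∑ s i • η i : s i < S0}` (a finite set containing `0`).  The sum of `m` elements of `S` is
`∑ s i • η i` with `s i ≤ m S0`, and `m T ≤ C0 D`: the hypothesis of `zero_estimate` holds for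
`W = Wsub om` by `ders_span`.  Get `Λ`; `U = perp Λ`, `j = m - finrank U ≥ 1`,
`w = finrank W - finrank (W ⊓ U)`, `finrank W = m - 2`.
Case A: `U ⊔ W = ⊤`.  Then `w = j` (dimension formula) and with `S' = {0}`:
`T ^ j ≤ j! D ^ j`, but `T ^ j > (m D) ^ j ≥ j! D ^ j`.
Case B: `U ⊔ W ≠ ⊤`.  `core_form`, `core_rank`, `core_count` (`κ = 2 (k + 1)`, `card ρ = 7 (k + 1)`)
give `S' ⊆ S` with `S0 ^ (5 (k + 1)) ≤ card S'`, so
`S0 ^ (5 (k + 1)) * T ^ w ≤ j! D ^ j`.  As `w ≥ j - 2` and `T ≥ D`, `T ^ w ≥ D ^ (j - 2)`: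
`R ^ (10 m (m - 1)) = S0 ^ (5 (k + 1)) ≤ j! D ^ 2 ≤ m! R ^ (8 m (m - 1))`, false for
`R > m!` (`m ≥ 2`).  (If `j = 1` use `D ^ j ≤ D ^ 2 * 1`.) -/
theorem core {k : ℕ} (om : Fin (k + 1) → ℂ) (halg : ∀ i, IsAlgebraic ℚ (om i)) (h0 : om 0 ≠ 0)
    (x : ℂ) (hx : ¬ IsAlgebraic ℚ x)
    (η : Fin 7 × Fin (k + 1) → Fin (k + 1) ⊕ Fin (k + 1) → ℂ)
    (hexp : ∀ i j, IsAlgebraic ℚ (Complex.exp (η i j)))
    (hη : ∀ i, fR om (η i) = x * fL om (η i))
    (hind : LinearIndependent ℚ fun i => fL om (η i)) : False := by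
  classical
  obtain ⟨m, hm⟩ : ∃ m : ℕ, m = 2 * (k + 1) := ⟨_, rfl⟩
  have hcard : Fintype.card (Fin (k + 1) ⊕ Fin (k + 1)) = m := by
    rw [Fintype.card_sum, Fintype.card_fin, hm]
    ring
  obtain ⟨q, hq, hspan, v0, hv0⟩ := exists_W om halg h0 x
  obtain ⟨q', hq'⟩ : ∃ q' : Fin (k + k) → Fin (k + 1) ⊕ Fin (k + 1) → ℂ,
      q' = q ∘ finSumFinEquiv.symm := ⟨_, rfl⟩
  have hrange : Set.range q' = Set.range q := by
    rw [hq', EquivLike.range_comp]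
  have hy : ∀ j, η j ∈ Submodule.span ℂ (insert v0 (Set.range q')) := by
    intro j
    obtain ⟨ξ, ξ0, h⟩ := hv0 (η j) (hη j)
    rw [h, hrange]
    refine Submodule.add_mem _ (Submodule.sum_mem _ fun t _ => Submodule.smul_mem _ _ ?_)
      (Submodule.smul_mem _ _ ?_)
    · exact Submodule.subset_span (Set.mem_insert_of_mem _ ⟨t, rfl⟩)
    · exact Submodule.subset_span (Set.mem_insert _ _)
  obtain ⟨t0, ht0⟩ := exists_aux (n := k + k) (by rw [hcard, hm]; ring) q'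
    (fun j i => by rw [hq']; exact hq _ i) v0 η hy hexp (m ^ 2 + m)
  -- the parameters
  obtain ⟨r, hr⟩ : ∃ r : ℕ, r = t0 + m ^ (5 * (k + 1)) * m.factorial + 1 := ⟨_, rfl⟩
  obtain ⟨t, ht⟩ : ∃ t : ℕ, t = m * r := ⟨_, rfl⟩
  have hm1 : 1 ≤ m := by omega
  have hrt : r ≤ t := by
    rw [ht]
    exact Nat.le_mul_of_pos_left r hm1
  obtain ⟨Y, hY⟩ : ∃ Y : ℕ, Y = t ^ (4 * (k + k + 1)) := ⟨_, rfl⟩
  obtain ⟨D, hD⟩ : ∃ D : ℕ, D = t ^ (4 * (k + k + 2) * (k + k + 1)) := ⟨_, rfl⟩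
  have hDY : D = Y ^ m := by
    rw [hD, hY, ← pow_mul, hm]
    congr 1
    ring
  obtain ⟨S1, hS1⟩ : ∃ S1 : ℕ, S1 = r * t ^ (4 * (k + k) + 3) := ⟨_, rfl⟩
  have hYS : m * S1 = Y := by
    rw [hS1, hY, ← mul_assoc, ← ht, ← pow_succ']
    congr 1
  have htpos : 0 < t := by omega
  have hS1pos : 1 ≤ S1 := by
    rw [hS1]
    exact Nat.mul_pos (by omega) (pow_pos htpos _)
  have hD1 : 1 ≤ D := by
    rw [hD]
    exact pow_pos htpos _
  have htY : t ≤ Y := by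
    rw [hY]
    exact Nat.le_self_pow (by omega) t
  have hYbig : m ^ (5 * (k + 1)) * m.factorial < Y := by omega
  obtain ⟨P, hP, hPB, hPv⟩ := ht0 t (by omega)
  rw [← hD] at hPB hPv
  rw [← hY] at hPv
  obtain ⟨T, hT⟩ : ∃ T : ℕ, T = m * D + 1 := ⟨_, rfl⟩
  -- the finite set
  obtain ⟨S, hS⟩ : ∃ S : Finset (Fin (k + 1) ⊕ Fin (k + 1) → ℂ), S =
      Finset.univ.image (fun s : Fin 7 × Fin (k + 1) → Fin S1 =>
        ∑ i, ((s i : ℕ) : ℂ) • η i) := ⟨_, rfl⟩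
  have hmemS : ∀ y, y ∈ S ↔ ∃ s : Fin 7 × Fin (k + 1) → ℕ, (∀ i, s i < S1) ∧
      y = ∑ i, (s i : ℂ) • η i := by
    intro y
    rw [hS, Finset.mem_image]
    constructor
    · rintro ⟨s, -, rfl⟩
      exact ⟨fun i => s i, fun i => (s i).2, rfl⟩
    · rintro ⟨s, hs, rfl⟩
      exact ⟨fun i => ⟨s i, hs i⟩, Finset.mem_univ _, rfl⟩
  have h0S : (0 : Fin (k + 1) ⊕ Fin (k + 1) → ℂ) ∈ S := by
    rw [hmemS]
    refine ⟨fun _ => 0, fun _ => hS1pos, ?_⟩
    simp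
  obtain ⟨Λ, hΛ, hest⟩ := zero_estimate (D := D) (T := T) (by omega) P hP hPB S h0S (Wsub om) (by
    intro y hyS ws hws hl
    rw [hcard] at hl
    choose s hs hsy using fun i => (hmemS (y i)).1 (hyS i)
    have hsum : ∑ i, y i = ∑ j, ((∑ i, s i j : ℕ) : ℂ) • η j := by
      simp_rw [hsy]
      rw [Finset.sum_comm]
      refine Finset.sum_congr rfl fun j _ => ?_
      rw [← Finset.sum_smul]
      push_cast
      rfl
    rw [hsum]
    refine hPv (fun j => ∑ i, s i j) (fun j => ?_) ws ?_ ?_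
    · rw [← hYS]
      refine le_trans (le_of_lt ?_) (Nat.le_mul_of_pos_left (m * S1)
        (by positivity : 0 < m ^ 2 + m))
      calc ∑ i, s i j < ∑ _i : Fin (Fintype.card (Fin (k + 1) ⊕ Fin (k + 1))), S1 := by
            refine Finset.sum_lt_sum_of_nonempty ?_ fun i _ => hs i j
            rw [Finset.univ_nonempty_iff, hcard]
            exact ⟨⟨0, hm1⟩⟩
        _ = m * S1 := by
            rw [Finset.sum_const, Finset.card_univ, Fintype.card_fin, hcard, smul_eq_mul]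
    · intro w hw
      rw [hrange, hspan]
      exact hws w hw
    · refine hl.trans ?_
      rw [hT]
      have : m * (m * D + 1) = m ^ 2 * D + m * 1 := by ring
      rw [this, add_mul]
      exact Nat.add_le_add_left (Nat.mul_le_mul_left m hD1) _)
  rw [hcard] at hest
  -- dimensions
  have hW2 := finrank_Wsub om h0
  rw [hcard] at hW2
  have htop : finrank ℂ (Fin (k + 1) ⊕ Fin (k + 1) → ℂ) = m := by
    rw [finrank_fintype_fun_eq_card, hcard]
  have hUlt : finrank ℂ (perp Λ) < m := by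
    rw [← htop]
    exact Submodule.finrank_lt hΛ
  have hdim := Submodule.finrank_sup_add_finrank_inf_eq (perp Λ) (Wsub om)
  have hsupm : finrank ℂ (perp Λ ⊔ Wsub om : Submodule ℂ (Fin (k + 1) ⊕ Fin (k + 1) → ℂ)) ≤ m := by
    rw [← htop]
    exact Submodule.finrank_le _
  have hWle : finrank ℂ (Wsub om) ≤
      finrank ℂ (perp Λ ⊔ Wsub om : Submodule ℂ (Fin (k + 1) ⊕ Fin (k + 1) → ℂ)) :=
    Submodule.finrank_mono le_sup_right
  have hinf : finrank ℂ (Wsub om ⊓ perp Λ : Submodule ℂ (Fin (k + 1) ⊕ Fin (k + 1) → ℂ)) =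
      finrank ℂ (perp Λ ⊓ Wsub om : Submodule ℂ (Fin (k + 1) ⊕ Fin (k + 1) → ℂ)) := by
    rw [inf_comm]
  by_cases hUW : perp Λ ⊔ Wsub om = ⊤
  · have hsup : finrank ℂ (perp Λ ⊔ Wsub om : Submodule ℂ (Fin (k + 1) ⊕ Fin (k + 1) → ℂ)) = m := by
      rw [hUW, finrank_top, htop]
    have h1 := hest {0} (Finset.singleton_subset_iff.2 h0S) (by
      intro y hy' z hz hyz
      rw [Finset.mem_singleton] at hy' hz
      exact absurd (hy'.trans hz.symm) hyz)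
    rw [Finset.card_singleton, one_mul] at h1
    have h2 : finrank ℂ (Wsub om) - finrank ℂ (Wsub om ⊓ perp Λ : Submodule ℂ
        (Fin (k + 1) ⊕ Fin (k + 1) → ℂ)) = m - finrank ℂ (perp Λ) := by omega
    rw [h2] at h1
    exact caseA (by omega) (by omega) hT h1
  · obtain ⟨α, β, hab, hform⟩ := core_form om halg x hx Λ hUW
    have hrank := core_rank om x α β hab Λ hform η hη hind
    obtain ⟨S', hS'1, hS'2, hS'3⟩ := core_count Λ η (2 * (k + 1)) hrank S1 hS1pos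
    have h1 := hest S' (fun y hy' => (hmemS y).2 (hS'2 y hy')) hS'3
    have hcρ : Fintype.card (Fin 7 × Fin (k + 1)) - 2 * (k + 1) = 5 * (k + 1) := by
      rw [Fintype.card_prod, Fintype.card_fin, Fintype.card_fin]
      omega
    rw [hcρ] at hS'1
    exact caseB hm (by omega) (by omega) hD1 hDY hYS hYbig
      (by rw [hT]; exact (Nat.le_mul_of_pos_left D hm1).trans (Nat.le_succ _)) hS'1 h1

end MP60829e.ST
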