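import Mathlib
import Pool.Agent.Lib.MP_60829e_nt.ST.Core
import Pool.Agent.Lib.MP_60829e_nt.ST.StrField

/-! # The seven column theorem -/

open Module

namespace MP60829e.ST

/-- PROOF. `mem_log_span` for the `z j` and the `x * z j`, `numfield` for the union of the 14 sets:
`om`, `mult`, `z j = ∑ om i * lam i j`, `x * z j = ∑ om i * mu i j`.  Put
`η (j, l) (inl i') = ∑ i, mult l i i' * lam i j`, `η (j, l) (inr i') = ∑ i, mult l i i' * mu i j`:
`fL om (η (j, l)) = om l * z j`, `fR om (η (j, l)) = om l * (x * z j)`, exponentials algebraic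
(`SE.Lg` is a group).  The numbers `om l * z j` are linearly independent over `ℚ`: the `om l` are
over `ℚ` and the `z j` over `Qa` (`LinearIndependent.smul` or directly).  `core`. -/
theorem seven (x : ℂ) (hx : ¬ IsAlgebraic ℚ x) (z : Fin 7 → ℂ)
    (hz : ∀ j, z j ∈ Submodule.span (algebraicClosure ℚ ℂ) {w : ℂ | IsAlgebraic ℚ (Complex.exp w)})
    (hli : LinearIndependent (algebraicClosure ℚ ℂ) z)
    (hw : ∀ j, x * z j ∈
      Submodule.span (algebraicClosure ℚ ℂ) {w : ℂ | IsAlgebraic ℚ (Complex.exp w)}) : False := by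
  classical
  have hA : ∀ j, ∃ A : Finset ℂ, (∀ a ∈ A, IsAlgebraic ℚ a) ∧ ∀ (k : ℕ) (om : Fin (k + 1) → ℂ),
      (∀ a ∈ A, ∃ r : Fin (k + 1) → ℚ, a = ∑ i, (r i : ℂ) * om i) →
      ∃ lam : Fin (k + 1) → ℂ, (∀ i, IsAlgebraic ℚ (Complex.exp (lam i))) ∧
        z j = ∑ i, om i * lam i := fun j => mem_log_span (z j) (hz j)
  have hB : ∀ j, ∃ A : Finset ℂ, (∀ a ∈ A, IsAlgebraic ℚ a) ∧ ∀ (k : ℕ) (om : Fin (k + 1) → ℂ),
      (∀ a ∈ A, ∃ r : Fin (k + 1) → ℚ, a = ∑ i, (r i : ℂ) * om i) →
      ∃ lam : Fin (k + 1) → ℂ, (∀ i, IsAlgebraic ℚ (Complex.exp (lam i))) ∧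
        x * z j = ∑ i, om i * lam i := fun j => mem_log_span (x * z j) (hw j)
  choose A hAalg hAlam using hA
  choose B hBalg hBlam using hB
  obtain ⟨k, om, mult, hom, hind, hmul, hrep⟩ := numfield
    ((Finset.univ.biUnion A) ∪ (Finset.univ.biUnion B)) (by
      intro a ha
      rw [Finset.mem_union, Finset.mem_biUnion, Finset.mem_biUnion] at ha
      rcases ha with ⟨j, -, h⟩ | ⟨j, -, h⟩
      · exact hAalg j a h
      · exact hBalg j a h)
  have hlam : ∀ j, ∃ lam : Fin (k + 1) → ℂ, (∀ i, IsAlgebraic ℚ (Complex.exp (lam i))) ∧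
        z j = ∑ i, om i * lam i := fun j => hAlam j k om fun a ha => hrep a (by
      rw [Finset.mem_union, Finset.mem_biUnion]
      exact Or.inl ⟨j, Finset.mem_univ j, ha⟩)
  have hmu : ∀ j, ∃ lam : Fin (k + 1) → ℂ, (∀ i, IsAlgebraic ℚ (Complex.exp (lam i))) ∧
        x * z j = ∑ i, om i * lam i := fun j => hBlam j k om fun a ha => hrep a (by
      rw [Finset.mem_union, Finset.mem_biUnion (s := Finset.univ) (t := B)]
      exact Or.inr ⟨j, Finset.mem_univ j, ha⟩)
  choose lam hlexp hlz using hlam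
  choose mu hmexp hmz using hmu
  have hprod : ∀ (l : Fin (k + 1)) (c : Fin (k + 1) → ℂ),
      ∑ i', om i' * ∑ i, (mult l i i' : ℂ) * c i = om l * ∑ i, om i * c i := by
    intro l c
    calc ∑ i', om i' * ∑ i, (mult l i i' : ℂ) * c i
        = ∑ i', ∑ i, om i' * ((mult l i i' : ℂ) * c i) :=
          Finset.sum_congr rfl fun i' _ => by rw [Finset.mul_sum]
      _ = ∑ i, ∑ i', om i' * ((mult l i i' : ℂ) * c i) := Finset.sum_comm
      _ = ∑ i, (om l * om i) * c i := by
          refine Finset.sum_congr rfl fun i _ => ?_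
          rw [hmul l i, Finset.sum_mul]
          exact Finset.sum_congr rfl fun i' _ => by ring
      _ = om l * ∑ i, om i * c i := by
          rw [Finset.mul_sum]
          exact Finset.sum_congr rfl fun i _ => by ring
  have hexp : ∀ (l i' : Fin (k + 1)) (c : Fin (k + 1) → ℂ),
      (∀ i, IsAlgebraic ℚ (Complex.exp (c i))) →
      IsAlgebraic ℚ (Complex.exp (∑ i, (mult l i i' : ℂ) * c i)) := by
    intro l i' c hc
    have h1 : (∑ i, (mult l i i' : ℂ) * c i) ∈ SE.Lg := by
      apply Submodule.sum_mem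
      intro i _
      have h2 : (mult l i i' : ℂ) * c i = (mult l i i' : ℚ) • c i := by
        rw [Rat.smul_def]
        push_cast
        rfl
      rw [h2]
      exact SE.Lg.smul_mem _ (hc i)
    exact h1
  refine core (k := k) om hom (hind.ne_zero 0) x hx
    (fun p => Sum.elim (fun i' => ∑ i, (mult p.2 i i' : ℂ) * lam p.1 i)
      (fun i' => ∑ i, (mult p.2 i i' : ℂ) * mu p.1 i)) ?_ ?_ ?_
  · rintro p (i' | i')
    · exact hexp p.2 i' (lam p.1) (hlexp p.1)
    · exact hexp p.2 i' (mu p.1) (hmexp p.1)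
  · intro p
    rw [fR_apply, fL_apply]
    simp only [Sum.elim_inl, Sum.elim_inr]
    rw [hprod, hprod, ← hlz, ← hmz]
    ring
  · have h1 : (fun p : Fin 7 × Fin (k + 1) => fL om (Sum.elim
        (fun i' => ∑ i, (mult p.2 i i' : ℂ) * lam p.1 i)
        (fun i' => ∑ i, (mult p.2 i i' : ℂ) * mu p.1 i))) = fun p => om p.2 * z p.1 := by
      funext p
      rw [fL_apply]
      simp only [Sum.elim_inl]
      rw [hprod, ← hlz]
    rw [h1]
    set b : Fin (k + 1) → algebraicClosure ℚ ℂ := fun l =>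
      ⟨om l, (mem_algebraicClosure_iff).2 (hom l)⟩ with hb
    have hbind : LinearIndependent ℚ b := by
      apply LinearIndependent.of_comp (algebraicClosure ℚ ℂ).val.toLinearMap
      exact hind
    have h2 := linearIndependent_smul hbind hli
    have h3 := h2.comp (fun p : Fin 7 × Fin (k + 1) => (p.2, p.1))
      (fun p q h => by
        rw [Prod.mk.injEq] at h
        exact Prod.ext h.2 h.1)
    exact h3

end MP60829e.ST
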