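import Mathlib
import Pool.Agent.Lib.MP_60829e_nt.ST.Defs

/-! # The values are values of integral polynomials -/

open MvPolynomial Module

namespace MP60829e.ST

section nrm

variable {ι : Type}

/-- The sum of the absolute values of the coefficients. -/
private noncomputable def nrm (F : MvPolynomial ι ℤ) : ℝ :=
  ∑ a ∈ F.support, |((coeff a F : ℤ) : ℝ)|

private theorem nrm_eq (F : MvPolynomial ι ℤ) (s : Finset (ι →₀ ℕ)) (h : F.support ⊆ s) :
    nrm F = ∑ a ∈ s, |((coeff a F : ℤ) : ℝ)| := by
  unfold nrm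
  refine Finset.sum_subset h fun a _ ha => ?_
  rw [MvPolynomial.notMem_support_iff] at ha
  rw [ha, Int.cast_zero, abs_zero]

private theorem nrm_nonneg (F : MvPolynomial ι ℤ) : 0 ≤ nrm F :=
  Finset.sum_nonneg fun _ _ => abs_nonneg _

private theorem nrm_zero : nrm (0 : MvPolynomial ι ℤ) = 0 := by
  unfold nrm
  rw [support_zero, Finset.sum_empty]

private theorem nrm_add (F G : MvPolynomial ι ℤ) : nrm (F + G) ≤ nrm F + nrm G := by
  classical
  have h1 : F.support ⊆ F.support ∪ G.support := Finset.subset_union_left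
  have h2 : G.support ⊆ F.support ∪ G.support := Finset.subset_union_right
  rw [nrm_eq F _ h1, nrm_eq G _ h2, nrm_eq (F + G) _ support_add, ← Finset.sum_add_distrib]
  refine Finset.sum_le_sum fun a _ => ?_
  rw [coeff_add, Int.cast_add]
  exact abs_add_le _ _

private theorem nrm_sum {κ : Type*} (s : Finset κ) (f : κ → MvPolynomial ι ℤ) :
    nrm (∑ k ∈ s, f k) ≤ ∑ k ∈ s, nrm (f k) := by
  classical
  induction s using Finset.induction_on with
  | empty => rw [Finset.sum_empty, Finset.sum_empty, nrm_zero]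
  | insert k s hk ih =>
    rw [Finset.sum_insert hk, Finset.sum_insert hk]
    exact (nrm_add _ _).trans (by linarith)

private theorem nrm_monomial (a : ι →₀ ℕ) (c : ℤ) : nrm (monomial a c) ≤ |(c : ℝ)| := by
  classical
  rw [nrm_eq (monomial a c) {a} support_monomial_subset, Finset.sum_singleton, coeff_monomial,
    if_pos rfl]

private theorem nrm_mul (F G : MvPolynomial ι ℤ) : nrm (F * G) ≤ nrm F * nrm G := by
  classical
  have h1 : F * G = ∑ a ∈ F.support, ∑ b ∈ G.support, monomial (a + b) (coeff a F * coeff b G) := by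
    conv_lhs => rw [F.as_sum, G.as_sum]
    rw [Finset.sum_mul_sum]
    refine Finset.sum_congr rfl fun a _ => Finset.sum_congr rfl fun b _ => ?_
    rw [monomial_mul]
  rw [h1]
  refine (nrm_sum _ _).trans ?_
  unfold nrm
  rw [Finset.sum_mul_sum]
  refine Finset.sum_le_sum fun a _ => (nrm_sum _ _).trans (Finset.sum_le_sum fun b _ => ?_)
  refine (nrm_monomial _ _).trans (le_of_eq ?_)
  rw [Int.cast_mul, abs_mul]

private theorem nrm_C (c : ℤ) : nrm (C c : MvPolynomial ι ℤ) ≤ |(c : ℝ)| := nrm_monomial 0 c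

private theorem nrm_one : nrm (1 : MvPolynomial ι ℤ) ≤ 1 := by
  have h := nrm_C (ι := ι) 1
  rw [C_1, Int.cast_one, abs_one] at h
  exact h

private theorem nrm_X (i : ι) : nrm (X i : MvPolynomial ι ℤ) ≤ 1 := by
  have h := nrm_monomial (Finsupp.single i 1) (1 : ℤ)
  rw [Int.cast_one, abs_one] at h
  exact h

private theorem nrm_pow_le_one (F : MvPolynomial ι ℤ) (hF : nrm F ≤ 1) (n : ℕ) :
    nrm (F ^ n) ≤ 1 := by
  induction n with
  | zero =>
    rw [pow_zero]
    exact nrm_one
  | succ n ih =>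
    rw [pow_succ]
    exact (nrm_mul _ _).trans (mul_le_one₀ ih (nrm_nonneg _) hF)

private theorem nrm_prod_le_one {κ : Type*} (s : Finset κ) (f : κ → MvPolynomial ι ℤ)
    (hf : ∀ k ∈ s, nrm (f k) ≤ 1) : nrm (∏ k ∈ s, f k) ≤ 1 := by
  classical
  induction s using Finset.induction_on with
  | empty =>
    rw [Finset.prod_empty]
    exact nrm_one
  | insert k s hk ih =>
    rw [Finset.prod_insert hk]
    exact (nrm_mul _ _).trans (mul_le_one₀ (hf k (Finset.mem_insert_self k s)) (nrm_nonneg _)
      (ih fun l hl => hf l (Finset.mem_insert_of_mem hl)))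

private theorem nrm_list (l : List (MvPolynomial ι ℤ)) (c : ℝ) (hc : 0 ≤ c)
    (hl : ∀ F ∈ l, nrm F ≤ c) : nrm l.prod ≤ c ^ l.length := by
  induction l with
  | nil =>
    rw [List.prod_nil, List.length_nil, pow_zero]
    exact nrm_one
  | cons F l ih =>
    rw [List.prod_cons, List.length_cons, pow_succ']
    exact (nrm_mul _ _).trans (mul_le_mul (hl F (List.mem_cons_self))
      (ih fun G hG => hl G (List.mem_cons_of_mem F hG)) (nrm_nonneg _) hc)

private theorem totalDegree_list (l : List (MvPolynomial ι ℤ)) (hl : ∀ F ∈ l, F.totalDegree ≤ 1) :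
    l.prod.totalDegree ≤ l.length := by
  induction l with
  | nil =>
    rw [List.prod_nil, totalDegree_one]
    exact Nat.zero_le _
  | cons F l ih =>
    rw [List.prod_cons, List.length_cons]
    have h1 := totalDegree_mul F l.prod
    have h2 := hl F List.mem_cons_self
    have h3 := ih fun G hG => hl G (List.mem_cons_of_mem F hG)
    omega

end nrm

/-- PROOF. `F = ∑ a ∈ A, C (p a) * (ks.map fun k => ∑ j, C (a j) * X (inl (k, j))).prod *
∏ i, ∏ j, X (inr (i, j)) ^ (a j * s i)`.  Degree: `≤ ks.length + ∑ i j, a j * s i`.  The sum of the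
absolute values of the coefficients is subadditive and submultiplicative, for
`∑ j, C (a j) * X (inl (k, j))` it is `∑ j, a j ≤ card σ * D`. -/
theorem int_value {σ τ ρ : Type} [Fintype σ] [Fintype τ] [Fintype ρ] (q : τ → σ → ℂ)
    (η : ρ → σ → ℂ) (A : Finset (σ →₀ ℕ)) (p : (σ →₀ ℕ) → ℤ) (D T S Q : ℕ)
    (hD : 1 ≤ Fintype.card σ * D) (hA : ∀ a ∈ A, ∀ i, a i ≤ D) (hp : ∀ a ∈ A, |p a| ≤ Q)
    (s : ρ → ℕ) (hs : ∀ i, s i ≤ S) (ks : List τ) (hks : ks.length ≤ T) :
    ∃ F : MvPolynomial ((τ × σ) ⊕ (ρ × σ)) ℤ,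
      F.totalDegree ≤ T + Fintype.card ρ * Fintype.card σ * (D * S) ∧
      (∑ a ∈ F.support, |((coeff a F : ℤ) : ℝ)|) ≤ A.card * Q * ((Fintype.card σ : ℝ) * D) ^ T ∧
      aeval (Sum.elim (fun x : τ × σ => q x.1 x.2) fun x : ρ × σ => Complex.exp (η x.1 x.2)) F =
        ∑ a ∈ A, (p a : ℂ) * (ks.map fun k => pr (q k) a).prod *
          Complex.exp (pr (∑ i, (s i : ℂ) • η i) a) := by
  classical
  set L : (σ →₀ ℕ) → τ → MvPolynomial ((τ × σ) ⊕ (ρ × σ)) ℤ := fun a k =>
    ∑ j, C (a j : ℤ) * X (Sum.inl (k, j)) with hL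
  set M : (σ →₀ ℕ) → MvPolynomial ((τ × σ) ⊕ (ρ × σ)) ℤ := fun a =>
    ∏ i, ∏ j, X (Sum.inr (i, j)) ^ (a j * s i) with hM
  refine ⟨∑ a ∈ A, C (p a) * (ks.map (L a)).prod * M a, ?_, ?_, ?_⟩
  · refine (totalDegree_finsetSum _ _).trans (Finset.sup_le fun a ha => ?_)
    have h1 : (ks.map (L a)).prod.totalDegree ≤ ks.length := by
      have h := totalDegree_list (ks.map (L a)) (by
        intro F hF
        rw [List.mem_map] at hF
        obtain ⟨k, _, rfl⟩ := hF
        refine (totalDegree_finsetSum _ _).trans (Finset.sup_le fun j _ => ?_)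
        refine (totalDegree_mul _ _).trans ?_
        rw [totalDegree_C, totalDegree_X, zero_add])
      rwa [List.length_map] at h
    have h2 : (M a).totalDegree ≤ Fintype.card ρ * Fintype.card σ * (D * S) := by
      refine (totalDegree_finsetProd _ _).trans ?_
      have h3 : ∀ i ∈ (Finset.univ : Finset ρ), (∏ j, (X (Sum.inr (i, j)) :
          MvPolynomial ((τ × σ) ⊕ (ρ × σ)) ℤ) ^ (a j * s i)).totalDegree ≤
          Fintype.card σ * (D * S) := by
        intro i _
        refine (totalDegree_finsetProd _ _).trans ?_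
        refine (Finset.sum_le_card_nsmul _ _ (D * S) fun j _ => ?_).trans (le_of_eq ?_)
        · rw [totalDegree_X_pow]
          exact Nat.mul_le_mul (hA a ha j) (hs i)
        · rw [smul_eq_mul, Finset.card_univ]
      refine (Finset.sum_le_card_nsmul _ _ _ h3).trans (le_of_eq ?_)
      rw [smul_eq_mul, Finset.card_univ]
      ring
    have h4 := totalDegree_mul (C (p a) * (ks.map (L a)).prod) (M a)
    have h5 := totalDegree_mul (C (p a) : MvPolynomial ((τ × σ) ⊕ (ρ × σ)) ℤ) (ks.map (L a)).prod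
    rw [totalDegree_C] at h5
    omega
  · have h0 : nrm (∑ a ∈ A, C (p a) * (ks.map (L a)).prod * M a) ≤
        ∑ _a ∈ A, (Q * ((Fintype.card σ : ℝ) * D) ^ T) := by
      refine (nrm_sum _ _).trans (Finset.sum_le_sum fun a ha => ?_)
      have hD' : (1 : ℝ) ≤ (Fintype.card σ : ℝ) * D := by exact_mod_cast hD
      have h1 : nrm (ks.map (L a)).prod ≤ ((Fintype.card σ : ℝ) * D) ^ T := by
        have h := nrm_list (ks.map (L a)) ((Fintype.card σ : ℝ) * D) (by linarith) (by
          intro F hF
          rw [List.mem_map] at hF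
          obtain ⟨k, _, rfl⟩ := hF
          refine (nrm_sum _ _).trans ?_
          have h2 : ∀ j ∈ (Finset.univ : Finset σ), nrm (C (a j : ℤ) *
              X (Sum.inl (k, j)) : MvPolynomial ((τ × σ) ⊕ (ρ × σ)) ℤ) ≤ (D : ℝ) := by
            intro j _
            refine (nrm_mul _ _).trans ?_
            refine (mul_le_mul (nrm_C _) (nrm_X _) (nrm_nonneg _) (abs_nonneg _)).trans ?_
            rw [mul_one, Int.cast_natCast, Nat.abs_cast]
            exact_mod_cast hA a ha j
          refine (Finset.sum_le_card_nsmul _ _ _ h2).trans (le_of_eq ?_)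
          rw [nsmul_eq_mul, Finset.card_univ])
        rw [List.length_map] at h
        exact h.trans (pow_le_pow_right₀ hD' hks)
      have h2 : nrm (M a) ≤ 1 := nrm_prod_le_one _ _ fun i _ => nrm_prod_le_one _ _ fun j _ =>
        nrm_pow_le_one _ (nrm_X _) _
      have h3 : nrm (C (p a) : MvPolynomial ((τ × σ) ⊕ (ρ × σ)) ℤ) ≤ (Q : ℝ) := by
        refine (nrm_C _).trans ?_
        exact_mod_cast hp a ha
      have h4 : nrm (C (p a) * (ks.map (L a)).prod) ≤ Q * ((Fintype.card σ : ℝ) * D) ^ T :=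
        (nrm_mul _ _).trans (mul_le_mul h3 h1 (nrm_nonneg _) (by positivity))
      calc nrm (C (p a) * (ks.map (L a)).prod * M a)
          ≤ nrm (C (p a) * (ks.map (L a)).prod) * nrm (M a) := nrm_mul _ _
        _ ≤ (Q * ((Fintype.card σ : ℝ) * D) ^ T) * 1 :=
            mul_le_mul h4 h2 (nrm_nonneg _) (by positivity)
        _ = Q * ((Fintype.card σ : ℝ) * D) ^ T := mul_one _
    refine h0.trans (le_of_eq ?_)
    rw [Finset.sum_const, nsmul_eq_mul, mul_assoc]
  · rw [map_sum]
    refine Finset.sum_congr rfl fun a _ => ?_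
    rw [map_mul, map_mul]
    congr 1
    · congr 1
      · rw [aeval_C]
        simp
      · rw [map_list_prod, List.map_map]
        congr 1
        refine List.map_congr_left fun k _ => ?_
        rw [Function.comp_apply, hL]
        simp only
        rw [map_sum, pr]
        refine Finset.sum_congr rfl fun j _ => ?_
        rw [map_mul, aeval_C, aeval_X, Sum.elim_inl, mul_comm]
        simp
    · rw [hM]
      simp only
      rw [map_prod, pr, Complex.exp_sum]
      rw [Finset.prod_congr rfl fun i _ => map_prod _ _ _, Finset.prod_comm]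
      refine Finset.prod_congr rfl fun j _ => ?_
      rw [Finset.sum_apply, Finset.sum_mul, Complex.exp_sum]
      refine Finset.prod_congr rfl fun i _ => ?_
      rw [map_pow, aeval_X, Sum.elim_inr, ← Complex.exp_nat_mul]
      congr 1
      rw [Pi.smul_apply, smul_eq_mul]
      push_cast
      ring

end MP60829e.ST
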