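import Mathlib
import Pool.Agent.Lib.MP_60829e_nt.ST.AuxMain

/-! # The auxiliary polynomial -/

open MvPolynomial Module

namespace MP60829e.ST

/-- The auxiliary polynomial, in the form used by the core. -/
theorem aux_poly {σ τ ρ : Type} [Fintype σ] [Fintype τ] [Fintype ρ]
    (hm : Fintype.card τ + 2 = Fintype.card σ) (q : τ → σ → ℂ)
    (hq : ∀ t i, IsAlgebraic ℚ (q t i)) (v0 : σ → ℂ) (η : ρ → σ → ℂ)
    (hη : ∀ i j, IsAlgebraic ℚ (Complex.exp (η i j)))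
    (hspan : ∀ i, ∃ ξ : τ → ℂ, ∃ ξ0 : ℂ, η i = (∑ t, ξ t • q t) + ξ0 • v0) (C0 : ℕ) :
    ∃ R0 : ℕ, 1 ≤ R0 ∧ ∀ R ≥ R0, ∃ P : MvPolynomial σ ℂ, P ≠ 0 ∧
      P ∈ Bx σ (R ^ (4 * Fintype.card σ * (Fintype.card σ - 1))) ∧
      ∀ s : ρ → ℕ, (∀ i, s i ≤ C0 * R ^ (4 * (Fintype.card σ - 1))) → ∀ ks : List τ,
        ks.length ≤ C0 * R ^ (4 * Fintype.card σ * (Fintype.card σ - 1)) →
        ev (∑ i, (s i : ℂ) • η i) (ders (ks.map q) P) = 0 := by
  obtain ⟨e⟩ : Nonempty (τ ≃ Fin (Fintype.card τ)) := ⟨Fintype.equivFin τ⟩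
  have hr : Set.range (fun i => q (e.symm i)) = Set.range q := e.symm.surjective.range_comp q
  obtain ⟨t0, ht0⟩ := exists_aux hm (fun i => q (e.symm i)) (fun i j => hq _ _) v0 η (by
    intro i
    rw [hr]
    obtain ⟨ξ, ξ0, h⟩ := hspan i
    rw [h]
    refine Submodule.add_mem _ (Submodule.sum_mem _ fun t _ => Submodule.smul_mem _ _ ?_)
      (Submodule.smul_mem _ _ ?_)
    · exact Submodule.subset_span (Set.mem_insert_of_mem _ ⟨t, rfl⟩)
    · exact Submodule.subset_span (Set.mem_insert _ _)) hη C0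
  refine ⟨t0 + 1, Nat.le_add_left _ _, fun R hR => ?_⟩
  obtain ⟨P, hP0, hPD, hP⟩ := ht0 R (by omega)
  have h1 : Fintype.card σ - 1 = Fintype.card τ + 1 := by omega
  rw [h1, ← hm]
  refine ⟨P, hP0, hPD, ?_⟩
  intro s hs ks hks
  refine hP s hs (ks.map q) ?_ (by rw [List.length_map]; exact hks)
  intro w hw
  obtain ⟨t, _, rfl⟩ := List.mem_map.1 hw
  rw [hr]
  exact Submodule.subset_span ⟨t, rfl⟩

end MP60829e.ST
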