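import Mathlib

/-! # The box principle for complex linear forms -/

namespace MP60829e.ST

private theorem dirich_abs_sub_lt {x y ε : ℝ} (hε : 0 < ε) (h : ⌊x / ε⌋ = ⌊y / ε⌋) :
    |x - y| < ε := by
  have h1 := Int.abs_sub_lt_one_of_floor_eq_floor h
  rw [← sub_div, abs_div, abs_of_pos hε, div_lt_one hε] at h1
  exact h1

private theorem dirich_norm_lt {z w : ℂ} {ε : ℝ} (hε : 0 < ε) (h1 : ⌊z.re / ε⌋ = ⌊w.re / ε⌋)
    (h2 : ⌊z.im / ε⌋ = ⌊w.im / ε⌋) : ‖z - w‖ ≤ 2 * ε := by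
  have h3 := Complex.norm_le_abs_re_add_abs_im (z - w)
  rw [Complex.sub_re, Complex.sub_im] at h3
  have h4 := dirich_abs_sub_lt hε h1
  have h5 := dirich_abs_sub_lt hε h2
  linarith

private theorem dirich_card {x : ℝ} :
    ((Finset.Icc ⌊-x⌋ ⌊x⌋).card : ℝ) ≤ 2 * x + 2 ∨ ⌊x⌋ + 1 < ⌊-x⌋ := by
  by_cases h : ⌊x⌋ + 1 < ⌊-x⌋
  · exact Or.inr h
  · left
    rw [Int.card_Icc]
    have h1 : ((⌊x⌋ + 1 - ⌊-x⌋).toNat : ℤ) = ⌊x⌋ + 1 - ⌊-x⌋ :=
      Int.toNat_of_nonneg (by omega)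
    have h2 : ((⌊x⌋ + 1 - ⌊-x⌋).toNat : ℝ) = (⌊x⌋ : ℝ) + 1 - (⌊-x⌋ : ℝ) := by
      exact_mod_cast congrArg (Int.cast (R := ℝ)) h1
    rw [h2]
    have h3 := Int.floor_le x
    have h4 := Int.lt_floor_add_one (-x)
    linarith

/-- PROOF. Pigeonhole for the `(Q + 1) ^ card α` functions `p : α → {0, .., Q}`: the integers
`⌊re (∑ p a c b a) / ε⌋`, `⌊im .. / ε⌋`, `b : β`, take at most `2 X / ε + 2` values each,
`X = card α * Q * H`.  The difference of two functions with the same integers has real and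
imaginary parts smaller than `ε`. -/
theorem dirichlet {α β : Type} [Fintype α] [Fintype β] (c : β → α → ℂ) (H : ℝ) (hH : 0 ≤ H)
    (hc : ∀ b a, ‖c b a‖ ≤ H) (Q : ℕ) (ε : ℝ) (hε : 0 < ε)
    (hcount : (2 * (Fintype.card α * Q * H) / ε + 2) ^ (2 * Fintype.card β) <
      ((Q : ℝ) + 1) ^ Fintype.card α) :
    ∃ p : α → ℤ, p ≠ 0 ∧ (∀ a, |p a| ≤ Q) ∧ ∀ b, ‖∑ a, (p a : ℂ) * c b a‖ ≤ 2 * ε := by
  classical
  set X : ℝ := Fintype.card α * Q * H with hX
  have hX0 : 0 ≤ X := by positivity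
  let L : β → (α → Fin (Q + 1)) → ℂ := fun b p => ∑ a, ((p a : ℕ) : ℂ) * c b a
  have hL : ∀ b p, ‖L b p‖ ≤ X := by
    intro b p
    calc ‖L b p‖ ≤ ∑ a, ‖((p a : ℕ) : ℂ) * c b a‖ := norm_sum_le _ _
      _ ≤ ∑ _a : α, (Q : ℝ) * H := by
        apply Finset.sum_le_sum
        intro a _
        rw [norm_mul, Complex.norm_natCast]
        apply mul_le_mul _ (hc b a) (norm_nonneg _) (Nat.cast_nonneg _)
        have := (p a).is_lt
        exact_mod_cast Nat.lt_succ_iff.1 this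
      _ = X := by
        rw [Finset.sum_const, Finset.card_univ, nsmul_eq_mul, hX]
        ring
  -- the boxes
  let f : (α → Fin (Q + 1)) → (β × Bool → ℤ) := fun p t =>
    if t.2 then ⌊(L t.1 p).re / ε⌋ else ⌊(L t.1 p).im / ε⌋
  let T : Finset (β × Bool → ℤ) := Fintype.piFinset fun _ => Finset.Icc ⌊-(X / ε)⌋ ⌊X / ε⌋
  have hf : ∀ p, f p ∈ T := by
    intro p
    rw [Fintype.mem_piFinset]
    intro t
    have hb : ∀ r : ℝ, |r| ≤ X → ⌊r / ε⌋ ∈ Finset.Icc ⌊-(X / ε)⌋ ⌊X / ε⌋ := by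
      intro r hr
      rw [Finset.mem_Icc]
      rw [abs_le] at hr
      constructor
      · apply Int.floor_mono
        rw [← neg_div]
        exact div_le_div_of_nonneg_right hr.1 hε.le
      · exact Int.floor_mono (div_le_div_of_nonneg_right hr.2 hε.le)
    show (if t.2 then ⌊(L t.1 p).re / ε⌋ else ⌊(L t.1 p).im / ε⌋) ∈ _
    split_ifs
    · exact hb _ ((Complex.abs_re_le_norm _).trans (hL _ _))
    · exact hb _ ((Complex.abs_im_le_norm _).trans (hL _ _))
  have hT : (T.card : ℝ) < ((Finset.univ : Finset (α → Fin (Q + 1))).card : ℝ) := by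
    have e1 : T.card = (Finset.Icc ⌊-(X / ε)⌋ ⌊X / ε⌋).card ^ (2 * Fintype.card β) := by
      show (Fintype.piFinset fun _ : β × Bool => Finset.Icc ⌊-(X / ε)⌋ ⌊X / ε⌋).card = _
      rw [Fintype.card_piFinset, Finset.prod_const, Finset.card_univ, Fintype.card_prod,
        Fintype.card_bool, mul_comm]
    have e2 : (Finset.univ : Finset (α → Fin (Q + 1))).card = (Q + 1) ^ Fintype.card α := by
      rw [Finset.card_univ, Fintype.card_fun, Fintype.card_fin]
    rw [e1, e2]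
    push_cast
    refine lt_of_le_of_lt (pow_le_pow_left₀ (Nat.cast_nonneg _) ?_ _) hcount
    have hx0 : 0 ≤ X / ε := div_nonneg hX0 hε.le
    rcases dirich_card (x := X / ε) with h | h
    · have e3 : 2 * X / ε + 2 = 2 * (X / ε) + 2 := by ring
      rw [e3]
      exact h
    · exfalso
      have h1 : 0 ≤ ⌊X / ε⌋ := Int.floor_nonneg.2 hx0
      have h2 : ⌊-(X / ε)⌋ ≤ 0 := by
        have := Int.floor_mono (show -(X / ε) ≤ 0 by linarith)
        simpa using this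
      omega
  obtain ⟨p1, -, p2, -, hne, heq⟩ := Finset.exists_ne_map_eq_of_card_lt_of_maps_to
    (by exact_mod_cast hT) (fun p _ => hf p)
  refine ⟨fun a => ((p1 a : ℕ) : ℤ) - ((p2 a : ℕ) : ℤ), ?_, ?_, ?_⟩
  · intro h
    apply hne
    funext a
    have := congrFun h a
    simp only [Pi.zero_apply] at this
    apply Fin.ext
    omega
  · intro a
    have h1 := (p1 a).is_lt
    have h2 := (p2 a).is_lt
    simp only [abs_le]
    constructor <;> omega
  · intro b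
    have e : ∑ a, (((((p1 a : ℕ) : ℤ) - ((p2 a : ℕ) : ℤ) : ℤ)) : ℂ) * c b a = L b p1 - L b p2 := by
      show _ = ∑ a, ((p1 a : ℕ) : ℂ) * c b a - ∑ a, ((p2 a : ℕ) : ℂ) * c b a
      rw [← Finset.sum_sub_distrib]
      apply Finset.sum_congr rfl
      intro a _
      push_cast
      ring
    rw [e]
    have h1 := congrFun heq (b, true)
    have h2 := congrFun heq (b, false)
    exact dirich_norm_lt hε (by simpa [f] using h1) (by simpa [f] using h2)

end MP60829e.ST
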