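import Mathlib
import Pool.Agent.Lib.MP_60829e_nt.ST.Defs

/-! # Small values from small moments -/

open MvPolynomial Module

namespace MP60829e.ST

/-- Tail of the exponential series. -/
theorem exp_tail (u : ℂ) (N : ℕ) :
    ‖Complex.exp u - ∑ t ∈ Finset.range N, u ^ t / (t.factorial : ℂ)‖ ≤
      ‖u‖ ^ N / (N.factorial : ℝ) * Real.exp ‖u‖ := by
  open Finset in
  rw [← CauSeq.lim_const (abv := norm) (∑ m ∈ range N, _), Complex.exp, sub_eq_add_neg,
    ← CauSeq.lim_neg, CauSeq.lim_add, ← Complex.lim_norm]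
  refine CauSeq.lim_le (CauSeq.le_of_exists ⟨N, fun j hj => ?_⟩)
  change ‖(∑ m ∈ Finset.range j, u ^ m / m.factorial) - ∑ m ∈ Finset.range N, u ^ m / m.factorial‖
    ≤ _
  rw [← Finset.sum_Ico_eq_sub _ hj]
  calc ‖∑ m ∈ Finset.Ico N j, (u ^ m / m.factorial : ℂ)‖
      ≤ ∑ m ∈ Finset.Ico N j, ‖(u ^ m / m.factorial : ℂ)‖ := norm_sum_le _ _
    _ ≤ ∑ m ∈ Finset.Ico N j, ‖u‖ ^ N / (N.factorial : ℝ) *
          (‖u‖ ^ (m - N) / ((m - N).factorial : ℝ)) := by
        refine Finset.sum_le_sum fun m hm => ?_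
        rw [Finset.mem_Ico] at hm
        rw [norm_div, norm_pow, Complex.norm_natCast, div_mul_div_comm, ← pow_add,
          Nat.add_sub_cancel' hm.1]
        apply div_le_div_of_nonneg_left (by positivity) (by positivity)
        have h1 : N.factorial * (m - N).factorial ∣ m.factorial :=
          Nat.factorial_mul_factorial_dvd_factorial hm.1
        exact_mod_cast Nat.le_of_dvd (Nat.factorial_pos m) h1
    _ = ‖u‖ ^ N / (N.factorial : ℝ) *
          ∑ m ∈ Finset.range (j - N), (‖u‖ ^ m / (m.factorial : ℝ)) := by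
        rw [← Finset.mul_sum, Finset.sum_Ico_eq_sum_range]
        congr 1
        refine Finset.sum_congr rfl fun m _ => ?_
        rw [Nat.add_sub_cancel_left]
    _ ≤ ‖u‖ ^ N / (N.factorial : ℝ) * Real.exp ‖u‖ := by
        apply mul_le_mul_of_nonneg_left _ (by positivity)
        exact Real.sum_le_exp_of_nonneg (norm_nonneg _) _


private theorem exn_prod_sub {τ : Type} (s : Finset τ) (f g : τ → ℂ) (B δ : ℝ) (hB : 0 ≤ B)
    (hδ : 0 ≤ δ) (hf : ∀ i, ‖f i‖ ≤ B) (hg : ∀ i, ‖g i‖ ≤ B) (h : ∀ i, ‖f i - g i‖ ≤ δ * B) :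
    ‖∏ i ∈ s, f i - ∏ i ∈ s, g i‖ ≤ s.card * δ * B ^ s.card := by
  classical
  induction s using Finset.induction_on with
  | empty => simp
  | insert a s ha ih =>
    rw [Finset.prod_insert ha, Finset.prod_insert ha, Finset.card_insert_of_notMem ha]
    have h1 : f a * ∏ i ∈ s, f i - g a * ∏ i ∈ s, g i =
        f a * (∏ i ∈ s, f i - ∏ i ∈ s, g i) + (f a - g a) * ∏ i ∈ s, g i := by ring
    have h2 : ‖∏ i ∈ s, g i‖ ≤ B ^ s.card := by
      rw [norm_prod]
      refine (Finset.prod_le_prod (fun i _ => norm_nonneg _) fun i _ => hg i).trans ?_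
      rw [Finset.prod_const]
    rw [h1]
    calc _ ≤ ‖f a * (∏ i ∈ s, f i - ∏ i ∈ s, g i)‖ + ‖(f a - g a) * ∏ i ∈ s, g i‖ :=
          norm_add_le _ _
      _ ≤ B * (s.card * δ * B ^ s.card) + (δ * B) * B ^ s.card := by
          rw [norm_mul, norm_mul]
          exact add_le_add (mul_le_mul (hf a) ih (norm_nonneg _) hB)
            (mul_le_mul (h a) h2 (norm_nonneg _) (by positivity))
      _ = ((s.card + 1 : ℕ) : ℝ) * δ * B ^ (s.card + 1) := by
          push_cast
          ring

private theorem exn_list_prod_le {τ : Type} (ks : List τ) (c : τ → ℂ) (U : ℝ) (hU : 1 ≤ U)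
    (h : ∀ i, ‖c i‖ ≤ U) : ‖(ks.map c).prod‖ ≤ U ^ ks.length := by
  induction ks with
  | nil => simp
  | cons k ks ih =>
    rw [List.map_cons, List.prod_cons, List.length_cons, pow_succ, mul_comm (U ^ _), norm_mul]
    exact mul_le_mul (h k) ih (norm_nonneg _) (by linarith)

private theorem exn_list_prod_eq {τ : Type} [Fintype τ] [DecidableEq τ] (ks : List τ)
    (c : τ → ℂ) : (ks.map c).prod = ∏ i, c i ^ ks.count i := by
  induction ks with
  | nil => simp
  | cons k ks ih =>
    rw [List.map_cons, List.prod_cons, ih]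
    have h1 : ∀ i, c i ^ (k :: ks).count i = (if k = i then c i else 1) * c i ^ ks.count i := by
      intro i
      rw [List.count_cons]
      by_cases h : k = i
      · subst h
        simp [pow_succ, mul_comm]
      · simp [h]
    rw [Finset.prod_congr rfl fun i _ => h1 i, Finset.prod_mul_distrib]
    congr 1
    rw [Finset.prod_ite_eq]
    simp

/-- PROOF. `exp (pr (∑ ξ i • q i) a) = ∏ i, exp (u i)`, `u i = ξ i * pr (q i) a`,
`‖u i‖ ≤ X U`.  Replace every factor by the partial sum `E (u i) = ∑_{t < N'} u i ^ t / t!`: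
telescoping, `‖exp‖, ‖E‖ ≤ e ^ (X U)` and `exp_tail` give
`‖∏ exp (u i) - ∏ E (u i)‖ ≤ card τ * e ^ (card τ * X U) * (X U) ^ N' / N'!`.  Expand `∏ E (u i)`
(`Finset.prod_univ_sum`): the sum over `a` becomes
`∑_t ∏ ξ i ^ t i / (t i)! * ∑ a, p a * ∏ pr (q i) a ^ (t i + ks.count i)`, with
`t i + ks.count i < N' + T ≤ N`, of norm `≤ ε * ∏ i ∑_t X ^ t / t! ≤ ε * e ^ (card τ * X)`. -/
theorem expand {σ τ : Type} [Fintype σ] [Fintype τ] (q : τ → σ → ℂ) (A : Finset (σ →₀ ℕ))
    (p : (σ →₀ ℕ) → ℂ) (N N' T : ℕ) (hN : N' + T ≤ N) (ε X U : ℝ) (hε : 0 ≤ ε) (hX : 1 ≤ X)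
    (hU : 1 ≤ U)
    (h1 : ∀ t : τ → ℕ, (∀ i, t i < N) → ‖∑ a ∈ A, p a * ∏ i, pr (q i) a ^ t i‖ ≤ ε)
    (h2 : ∀ a ∈ A, ∀ i, ‖pr (q i) a‖ ≤ U) (ξ : τ → ℂ) (hξ : ∀ i, ‖ξ i‖ ≤ X) (ks : List τ)
    (hks : ks.length ≤ T) :
    ‖∑ a ∈ A, p a * (ks.map fun k => pr (q k) a).prod *
        Complex.exp (pr (∑ i, ξ i • q i) a)‖ ≤
      ε * Real.exp (Fintype.card τ * X) + (∑ a ∈ A, ‖p a‖) * U ^ T *
        (Fintype.card τ * Real.exp (Fintype.card τ * (X * U)) * (X * U) ^ N' /
          (N'.factorial : ℝ)) := by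
  classical
  have hU0 : 0 ≤ U := by linarith
  have hX0 : 0 ≤ X := by linarith
  set E : ℂ → ℂ := fun u => ∑ t ∈ Finset.range N', u ^ t / (t.factorial : ℂ) with hE
  set u : (σ →₀ ℕ) → τ → ℂ := fun a i => ξ i * pr (q i) a with hu
  have hule : ∀ a ∈ A, ∀ i, ‖u a i‖ ≤ X * U := by
    intro a ha i
    rw [hu]
    simp only [norm_mul]
    exact mul_le_mul (hξ i) (h2 a ha i) (norm_nonneg _) hX0
  have hpr : ∀ a, pr (∑ i, ξ i • q i) a = ∑ i, u a i := by
    intro a
    rw [hu]
    simp only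
    unfold pr
    simp only [Finset.sum_apply, Pi.smul_apply, smul_eq_mul, Finset.sum_mul, Finset.mul_sum]
    rw [Finset.sum_comm]
    refine Finset.sum_congr rfl fun i _ => Finset.sum_congr rfl fun j _ => by ring
  have hexp : ∀ a, Complex.exp (pr (∑ i, ξ i • q i) a) = ∏ i, Complex.exp (u a i) := by
    intro a
    rw [hpr, Complex.exp_sum]
  set w : (σ →₀ ℕ) → ℂ := fun a => (ks.map fun k => pr (q k) a).prod with hw
  have hwle : ∀ a ∈ A, ‖w a‖ ≤ U ^ T := by
    intro a ha
    refine (exn_list_prod_le ks (fun k => pr (q k) a) U hU (h2 a ha)).trans ?_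
    exact pow_le_pow_right₀ hU hks
  have hsplit : ∑ a ∈ A, p a * w a * Complex.exp (pr (∑ i, ξ i • q i) a) =
      ∑ a ∈ A, p a * w a * ∏ i, E (u a i) +
      ∑ a ∈ A, p a * w a * (∏ i, Complex.exp (u a i) - ∏ i, E (u a i)) := by
    rw [← Finset.sum_add_distrib]
    refine Finset.sum_congr rfl fun a _ => ?_
    rw [hexp a]
    ring
  have hEle : ∀ v : ℂ, ‖v‖ ≤ X * U → ‖E v‖ ≤ Real.exp (X * U) := by
    intro v hv
    calc ‖E v‖ ≤ ∑ t ∈ Finset.range N', ‖v ^ t / (t.factorial : ℂ)‖ := norm_sum_le _ _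
      _ = ∑ t ∈ Finset.range N', ‖v‖ ^ t / (t.factorial : ℝ) := by
          refine Finset.sum_congr rfl fun t _ => ?_
          rw [norm_div, norm_pow, Complex.norm_natCast]
      _ ≤ Real.exp ‖v‖ := Real.sum_le_exp_of_nonneg (norm_nonneg _) _
      _ ≤ Real.exp (X * U) := Real.exp_le_exp.2 hv
  have hexple : ∀ v : ℂ, ‖v‖ ≤ X * U → ‖Complex.exp v‖ ≤ Real.exp (X * U) := by
    intro v hv
    refine (Complex.norm_exp_le_exp_norm v).trans (Real.exp_le_exp.2 hv)
  have htail : ∀ v : ℂ, ‖v‖ ≤ X * U → ‖Complex.exp v - E v‖ ≤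
      (X * U) ^ N' / (N'.factorial : ℝ) * Real.exp (X * U) := by
    intro v hv
    refine (exp_tail v N').trans ?_
    apply mul_le_mul _ (Real.exp_le_exp.2 hv) (Real.exp_pos _).le (by positivity)
    exact div_le_div_of_nonneg_right (pow_le_pow_left₀ (norm_nonneg _) hv _) (by positivity)
  have hsecond : ‖∑ a ∈ A, p a * w a * (∏ i, Complex.exp (u a i) - ∏ i, E (u a i))‖ ≤
      (∑ a ∈ A, ‖p a‖) * U ^ T *
        (Fintype.card τ * Real.exp (Fintype.card τ * (X * U)) * (X * U) ^ N' /
          (N'.factorial : ℝ)) := by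
    rw [Finset.sum_mul, Finset.sum_mul]
    refine (norm_sum_le _ _).trans (Finset.sum_le_sum fun a ha => ?_)
    rw [norm_mul, norm_mul]
    have h3 := exn_prod_sub (Finset.univ : Finset τ) (fun i => Complex.exp (u a i))
      (fun i => E (u a i)) (Real.exp (X * U)) ((X * U) ^ N' / (N'.factorial : ℝ))
      (Real.exp_pos _).le (by positivity) (fun i => hexple _ (hule a ha i))
      (fun i => hEle _ (hule a ha i)) (fun i => htail _ (hule a ha i))
    have h4 : ((Finset.univ : Finset τ).card : ℝ) * ((X * U) ^ N' / (N'.factorial : ℝ)) *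
        Real.exp (X * U) ^ (Finset.univ : Finset τ).card =
        Fintype.card τ * Real.exp (Fintype.card τ * (X * U)) * (X * U) ^ N' /
          (N'.factorial : ℝ) := by
      rw [Finset.card_univ, ← Real.exp_nat_mul]
      ring
    rw [h4] at h3
    exact mul_le_mul (mul_le_mul_of_nonneg_left (hwle a ha) (norm_nonneg _)) h3
      (norm_nonneg _) (by positivity)
  have hfirst : ‖∑ a ∈ A, p a * w a * ∏ i, E (u a i)‖ ≤ ε * Real.exp (Fintype.card τ * X) := by
    have h3 : ∀ a, ∏ i, E (u a i) = ∑ t ∈ Fintype.piFinset fun _ : τ => Finset.range N',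
        (∏ i, (ξ i ^ t i / ((t i).factorial : ℂ))) * ∏ i, pr (q i) a ^ t i := by
      intro a
      rw [hE]
      simp only
      rw [Finset.prod_univ_sum]
      refine Finset.sum_congr rfl fun t _ => ?_
      rw [← Finset.prod_mul_distrib]
      refine Finset.prod_congr rfl fun i _ => ?_
      rw [hu]
      simp only
      rw [mul_pow]
      ring
    have h4 : ∑ a ∈ A, p a * w a * ∏ i, E (u a i) =
        ∑ t ∈ Fintype.piFinset fun _ : τ => Finset.range N',
          (∏ i, (ξ i ^ t i / ((t i).factorial : ℂ))) *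
            ∑ a ∈ A, p a * ∏ i, pr (q i) a ^ (t i + ks.count i) := by
      calc _ = ∑ a ∈ A, ∑ t ∈ Fintype.piFinset fun _ : τ => Finset.range N',
            (∏ i, (ξ i ^ t i / ((t i).factorial : ℂ))) *
            (p a * ∏ i, pr (q i) a ^ (t i + ks.count i)) := by
            refine Finset.sum_congr rfl fun a _ => ?_
            rw [h3 a, Finset.mul_sum]
            refine Finset.sum_congr rfl fun t _ => ?_
            have h5 : w a = ∏ i, pr (q i) a ^ ks.count i :=
              exn_list_prod_eq ks fun k => pr (q k) a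
            have h6 : ∏ i, pr (q i) a ^ (t i + ks.count i) =
                (∏ i, pr (q i) a ^ t i) * ∏ i, pr (q i) a ^ ks.count i := by
              rw [← Finset.prod_mul_distrib]
              exact Finset.prod_congr rfl fun i _ => pow_add _ _ _
            rw [h5, h6]
            ring
        _ = _ := by
            rw [Finset.sum_comm]
            refine Finset.sum_congr rfl fun t _ => ?_
            rw [Finset.mul_sum]
    rw [h4]
    calc _ ≤ ∑ t ∈ Fintype.piFinset fun _ : τ => Finset.range N',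
          ‖(∏ i, (ξ i ^ t i / ((t i).factorial : ℂ))) *
            ∑ a ∈ A, p a * ∏ i, pr (q i) a ^ (t i + ks.count i)‖ := norm_sum_le _ _
      _ ≤ ∑ t ∈ Fintype.piFinset fun _ : τ => Finset.range N',
          (∏ i, (X ^ t i / ((t i).factorial : ℝ))) * ε := by
          refine Finset.sum_le_sum fun t ht => ?_
          rw [norm_mul]
          apply mul_le_mul _ _ (norm_nonneg _) (Finset.prod_nonneg fun i _ => by positivity)
          · rw [norm_prod]
            refine Finset.prod_le_prod (fun i _ => norm_nonneg _) fun i _ => ?_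
            rw [norm_div, norm_pow, Complex.norm_natCast]
            exact div_le_div_of_nonneg_right (pow_le_pow_left₀ (norm_nonneg _) (hξ i) _)
              (by positivity)
          · apply h1
            intro i
            have h5 := Finset.mem_range.1 (Fintype.mem_piFinset.1 ht i)
            have h6 : ks.count i ≤ T := (List.count_le_length).trans hks
            omega
      _ = (∏ _i : τ, ∑ t ∈ Finset.range N', X ^ t / (t.factorial : ℝ)) * ε := by
          rw [← Finset.sum_mul, Finset.prod_univ_sum]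
      _ ≤ (∏ _i : τ, Real.exp X) * ε := by
          apply mul_le_mul_of_nonneg_right _ hε
          refine Finset.prod_le_prod (fun i _ => Finset.sum_nonneg fun t _ => by positivity)
            fun i _ => Real.sum_le_exp_of_nonneg hX0 _
      _ = ε * Real.exp (Fintype.card τ * X) := by
          rw [Finset.prod_const, Finset.card_univ, ← Real.exp_nat_mul, mul_comm]
  rw [hsplit]
  exact (norm_add_le _ _).trans (add_le_add hfirst hsecond)

end MP60829e.ST
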