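import Mathlib
import Pool.Agent.Lib.MP_60829e_nt.BAlg

/-! # Liouville's inequality for polynomials in fixed algebraic numbers -/

open MvPolynomial

namespace MP60829e.ST

private theorem aeval_eq_sum {ι K : Type} [Fintype ι] [Field K] (t : ι → K)
    (F : MvPolynomial ι ℤ) :
    aeval t F = ∑ a ∈ F.support, ((coeff a F : ℤ) : K) * ∏ i, t i ^ a i := by
  rw [aeval_def, eval₂_eq']
  rfl

private theorem degree_le {ι : Type} [Fintype ι] {F : MvPolynomial ι ℤ} {δ : ℕ}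
    (h : F.totalDegree ≤ δ) {a : ι →₀ ℕ} (ha : a ∈ F.support) : ∑ i, a i ≤ δ := by
  have h1 := (le_totalDegree ha).trans h
  rwa [Finsupp.sum_fintype _ _ (fun _ => rfl)] at h1

/-- a common denominator -/
private theorem exists_denominator {ι K : Type} [Fintype ι] [Field K] [NumberField K] (t : ι → K) :
    ∃ N : ℕ, 1 ≤ N ∧ ∀ i, IsIntegral ℤ ((N : K) * t i) := by
  classical
  have h1 : ∀ i, ∃ n : ℕ, 1 ≤ n ∧ IsIntegral ℤ ((n : K) * t i) := by
    intro i
    have h2 : IsAlgebraic ℤ (t i) :=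
      (IsFractionRing.isAlgebraic_iff ℤ ℚ K).2 (Algebra.IsAlgebraic.isAlgebraic (t i))
    obtain ⟨y, hy, hint⟩ := h2.exists_integral_multiple
    refine ⟨y.natAbs, Int.natAbs_pos.2 hy, ?_⟩
    rcases Int.natAbs_eq y with h3 | h3
    · have h4 : ((y.natAbs : ℕ) : K) * t i = y • t i := by
        rw [zsmul_eq_mul]
        conv_rhs => rw [h3]
        simp
      rw [h4]
      exact hint
    · have h4 : ((y.natAbs : ℕ) : K) * t i = -(y • t i) := by
        rw [zsmul_eq_mul]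
        conv_rhs => rw [h3]
        simp
      rw [h4]
      exact hint.neg
  choose n hn hint using h1
  refine ⟨∏ i, n i, Finset.one_le_prod' fun i _ => hn i, fun i => ?_⟩
  rw [← Finset.mul_prod_erase _ _ (Finset.mem_univ i)]
  push_cast
  have h5 : (n i : K) * (∏ j ∈ Finset.univ.erase i, (n j : K)) * t i =
      (∏ j ∈ Finset.univ.erase i, (n j : K)) * ((n i : K) * t i) := by ring
  rw [h5]
  refine IsIntegral.mul ?_ (hint i)
  refine IsIntegral.prod _ fun j _ => ?_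
  exact isIntegral_algebraMap (R := ℤ) (A := K) (x := (n j : ℤ)) |> fun h => by simpa using h

private theorem integral_value {ι K : Type} [Fintype ι] [Field K] {t : ι → K} {N : ℕ}
    (hN : ∀ i, IsIntegral ℤ ((N : K) * t i)) {F : MvPolynomial ι ℤ} {δ : ℕ}
    (hδ : F.totalDegree ≤ δ) : IsIntegral ℤ (((N ^ δ : ℕ) : K) * aeval t F) := by
  rw [aeval_eq_sum, Finset.mul_sum]
  refine IsIntegral.sum _ fun a ha => ?_
  have h1 := degree_le hδ ha
  have hnat : ∀ n : ℕ, IsIntegral ℤ (n : K) := fun n => by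
    simpa using (isIntegral_algebraMap (R := ℤ) (A := K) (x := (n : ℤ)))
  have hz : ∀ z : ℤ, IsIntegral ℤ (z : K) := fun z => by
    simpa using (isIntegral_algebraMap (R := ℤ) (A := K) (x := z))
  have h2 : ((N ^ δ : ℕ) : K) * (((coeff a F : ℤ) : K) * ∏ i, t i ^ a i) =
      ((N ^ (δ - ∑ i, a i) : ℕ) : K) * (((coeff a F : ℤ) : K) * ∏ i, ((N : K) * t i) ^ a i) := by
    have h3 : (N : K) ^ δ = (N : K) ^ (δ - ∑ i, a i) * ∏ i, (N : K) ^ a i := by
      rw [Finset.prod_pow_eq_pow_sum, ← pow_add, Nat.sub_add_cancel h1]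
    push_cast
    simp only [mul_pow, Finset.prod_mul_distrib]
    rw [h3]
    ring
  rw [h2]
  exact (hnat _).mul ((hz _).mul (IsIntegral.prod _ fun i _ => (hN i).pow _))

private theorem value_bound {ι K : Type} [Fintype ι] [Field K] {t : ι → K} {A : ℝ} (hA : 1 ≤ A)
    (φ : K →+* ℂ) (ht : ∀ i, ‖φ (t i)‖ ≤ A) {F : MvPolynomial ι ℤ} {δ : ℕ} {H : ℝ}
    (hδ : F.totalDegree ≤ δ) (hH : (∑ a ∈ F.support, |((coeff a F : ℤ) : ℝ)|) ≤ H) :
    ‖φ (aeval t F)‖ ≤ H * A ^ δ := by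
  rw [aeval_eq_sum, map_sum]
  refine (norm_sum_le _ _).trans ?_
  have h1 : ∀ a ∈ F.support, ‖φ (((coeff a F : ℤ) : K) * ∏ i, t i ^ a i)‖ ≤
      |((coeff a F : ℤ) : ℝ)| * A ^ δ := by
    intro a ha
    have h2 := degree_le hδ ha
    rw [map_mul, norm_mul, map_intCast, Complex.norm_intCast, map_prod, norm_prod]
    refine mul_le_mul_of_nonneg_left ?_ (abs_nonneg _)
    calc ∏ i, ‖φ (t i ^ a i)‖ ≤ ∏ i, A ^ a i := by
          refine Finset.prod_le_prod (fun i _ => norm_nonneg _) fun i _ => ?_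
          rw [map_pow, norm_pow]
          exact pow_le_pow_left₀ (norm_nonneg _) (ht i) _
      _ = A ^ ∑ i, a i := Finset.prod_pow_eq_pow_sum _ _ _
      _ ≤ A ^ δ := pow_le_pow_right₀ hA h2
  refine (Finset.sum_le_sum h1).trans ?_
  rw [← Finset.sum_mul]
  exact mul_le_mul_of_nonneg_right hH (by positivity)

/-- PROOF. `K = ℚ(θ)`, a number field of degree `d` (`IntermediateField.adjoin ℚ (Set.range θ)`);
`N ≥ 1` an integer with all `N θ i` integral; `A ≥ 1` a bound for all conjugates of all `θ i`.  Let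
`α ∈ K` be the value of `F`, `α ≠ 0`: `N ^ δ α` is a nonzero algebraic integer, so the product of its
`d` conjugates (`Algebra.norm`, `Algebra.norm_eq_prod_embeddings`) is a nonzero integer; every
conjugate of `α` has absolute value at most `H A ^ δ`.  So
`1 ≤ ‖α‖ N ^ δ (N ^ δ H A ^ δ) ^ (d - 1)`, `‖α‖ ≥ (N A) ^ (- d δ) H ^ (-(d - 1))`;
`C = max (d * log (N A)) d` or larger. -/
theorem liouville {ι : Type} [Fintype ι] (θ : ι → ℂ) (h : ∀ i, IsAlgebraic ℚ (θ i)) :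
    ∃ C : ℝ, 1 ≤ C ∧ ∀ (F : MvPolynomial ι ℤ) (δ : ℕ) (H : ℝ), 1 ≤ H → F.totalDegree ≤ δ →
      (∑ a ∈ F.support, |((coeff a F : ℤ) : ℝ)|) ≤ H → aeval θ F ≠ 0 →
      Real.exp (-(C * (δ + Real.log H))) ≤ ‖aeval θ F‖ := by
  classical
  obtain ⟨K, hK⟩ : ∃ K : IntermediateField ℚ ℂ, K = IntermediateField.adjoin ℚ (Set.range θ) :=
    ⟨_, rfl⟩
  have hfin : FiniteDimensional ℚ K := by
    rw [hK]
    refine IntermediateField.finiteDimensional_adjoin ?_
    rintro _ ⟨i, rfl⟩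
    exact (h i).isIntegral
  have hnf : NumberField K := { to_charZero := inferInstance, to_finiteDimensional := hfin }
  have hmem : ∀ i, θ i ∈ K := by
    intro i
    rw [hK]
    exact IntermediateField.subset_adjoin ℚ _ ⟨i, rfl⟩
  let t : ι → K := fun i => ⟨θ i, hmem i⟩
  obtain ⟨N, hN1, hN⟩ := exists_denominator t
  obtain ⟨A, hA1, hA⟩ : ∃ A : ℝ, 1 ≤ A ∧ ∀ (φ : K →+* ℂ) (i : ι), ‖φ (t i)‖ ≤ A := by
    refine ⟨1 + ∑ φ : K →+* ℂ, ∑ i, ‖φ (t i)‖, ?_, ?_⟩
    · have : 0 ≤ ∑ φ : K →+* ℂ, ∑ i, ‖φ (t i)‖ := by positivity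
      linarith
    · intro φ i
      have h1 : ‖φ (t i)‖ ≤ ∑ i, ‖φ (t i)‖ :=
        Finset.single_le_sum (f := fun i => ‖φ (t i)‖) (fun _ _ => norm_nonneg _)
          (Finset.mem_univ i)
      have h2 : ∑ i, ‖φ (t i)‖ ≤ ∑ φ : K →+* ℂ, ∑ i, ‖φ (t i)‖ :=
        Finset.single_le_sum (f := fun φ : K →+* ℂ => ∑ i, ‖φ (t i)‖)
          (fun _ _ => by positivity) (Finset.mem_univ φ)
      linarith
  set d := Module.finrank ℚ K with hd
  have hd1 : 1 ≤ d := Module.finrank_pos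
  have hN0 : (1 : ℝ) ≤ N := by exact_mod_cast hN1
  have hlN : 0 ≤ Real.log N := Real.log_nonneg hN0
  have hlA : 0 ≤ Real.log A := Real.log_nonneg hA1
  have hdr : (1 : ℝ) ≤ d := by exact_mod_cast hd1
  refine ⟨d * (Real.log N + Real.log A) + d, ?_, ?_⟩
  · have : 0 ≤ (d : ℝ) * (Real.log N + Real.log A) := by positivity
    linarith
  intro F δ H hH1 hδ hH hne
  set ξ : K := aeval t F with hξ
  have hval : (ξ : ℂ) = aeval θ F := by
    have h1 : (K.val : K →ₐ[ℚ] ℂ) ξ = aeval θ F := by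
      rw [hξ, aeval_eq_sum, aeval_eq_sum, map_sum]
      refine Finset.sum_congr rfl fun a _ => ?_
      rw [map_mul, map_intCast, map_prod]
      congr 1
    exact h1
  have hξ0 : ξ ≠ 0 := by
    intro h0
    apply hne
    rw [← hval, h0]
    rfl
  have hlH : 0 ≤ Real.log H := Real.log_nonneg hH1
  have hliou := Pool.Agent.Lib.MP_60829e_nt.Bk.liouville (K.val : K →+* ℂ) ξ hξ0 (N ^ δ)
    (Nat.one_le_pow _ _ hN1) (integral_value hN hδ)
    (fun φ => value_bound hA1 φ (hA φ) hδ hH)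
  rw [← hd] at hliou
  have hσ : (K.val : K →+* ℂ) ξ = aeval θ F := hval
  rw [hσ] at hliou
  have hP : ((N ^ δ : ℕ) : ℝ) ^ d * (H * A ^ δ) ^ (d - 1) =
      Real.exp (d * (δ * Real.log N) + ((d - 1 : ℕ) : ℝ) * (Real.log H + δ * Real.log A)) := by
    rw [Real.exp_add, Real.exp_nat_mul, Real.exp_nat_mul, Real.exp_nat_mul, Real.exp_add,
      Real.exp_nat_mul, Real.exp_log (by linarith), Real.exp_log (by linarith),
      Real.exp_log (by linarith)]
    push_cast
    ring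
  have hle : d * (δ * Real.log N) + ((d - 1 : ℕ) : ℝ) * (Real.log H + δ * Real.log A) ≤
      (d * (Real.log N + Real.log A) + d) * (δ + Real.log H) := by
    have e1 : ((d - 1 : ℕ) : ℝ) ≤ d := by exact_mod_cast Nat.sub_le _ _
    have e2 : 0 ≤ Real.log H + δ * Real.log A := by positivity
    have e3 := mul_le_mul_of_nonneg_right e1 e2
    have e4 : 0 ≤ (d : ℝ) * Real.log N * Real.log H := by positivity
    have e5 : 0 ≤ (d : ℝ) * Real.log A * Real.log H := by positivity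
    have e6 : 0 ≤ (d : ℝ) * δ := by positivity
    nlinarith
  have h1 : 1 ≤ Real.exp ((d * (Real.log N + Real.log A) + d) * (δ + Real.log H)) *
      ‖aeval θ F‖ := by
    refine hliou.trans ?_
    have e1 : ((N ^ δ : ℕ) : ℝ) ^ d * ‖aeval θ F‖ * (H * A ^ δ) ^ (d - 1) =
        (((N ^ δ : ℕ) : ℝ) ^ d * (H * A ^ δ) ^ (d - 1)) * ‖aeval θ F‖ := by ring
    rw [e1, hP]
    exact mul_le_mul_of_nonneg_right (Real.exp_le_exp.2 hle) (norm_nonneg _)
  rw [Real.exp_neg, inv_le_iff_one_le_mul₀ (Real.exp_pos _), mul_comm]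
  exact h1

end MP60829e.ST
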