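import Mathlib

/-! # The choice of the parameters

`m ≥ 2`, `D = R ^ (4 m (m - 1))`, `N = R ^ (4 m ^ 2 - 2)`, `S = R ^ (4 (m - 1))`, so that
`N = R ^ 2 D S`, `D ^ m = R ^ (2 m - 2) N ^ (m - 1)`; `Q` is the integral part of `exp (N / R)`. -/

namespace MP60829e.ST

private theorem log_small (c : ℝ) (hc : 0 < c) :
    ∃ R0 : ℕ, 1 ≤ R0 ∧ ∀ R : ℕ, R0 ≤ R → Real.log R ≤ c * R := by
  have h1 := (Real.isLittleO_log_id_atTop.def hc)
  have h2 := (tendsto_natCast_atTop_atTop (R := ℝ)).eventually h1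
  obtain ⟨R0, hR0⟩ := Filter.eventually_atTop.1 h2
  refine ⟨max R0 1, le_max_right _ _, fun R hR => ?_⟩
  have h3 := hR0 R ((le_max_left _ _).trans hR)
  rw [id, Real.norm_natCast] at h3
  exact (le_abs_self _).trans h3

private theorem exp1 (m : ℕ) (hm : 2 ≤ m) : 4 * m ^ 2 - 2 = 4 * m * (m - 1) + (4 * m - 8) + 6 := by
  obtain ⟨k, rfl⟩ : ∃ k, m = k + 2 := ⟨m - 2, by omega⟩
  have h1 : k + 2 - 1 = k + 1 := rfl
  have h2 : 4 * (k + 2) ^ 2 = 4 * (k + 2) * (k + 1) + 4 * k + 8 := by ring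
  rw [h1, h2]
  omega

private theorem exp2 (m : ℕ) (hm : 2 ≤ m) :
    4 * m ^ 2 - 2 = 4 * m * (m - 1) + 4 * (m - 1) + 2 := by
  obtain ⟨k, rfl⟩ : ∃ k, m = k + 2 := ⟨m - 2, by omega⟩
  have h1 : k + 2 - 1 = k + 1 := rfl
  have h2 : 4 * (k + 2) ^ 2 = 4 * (k + 2) * (k + 1) + 4 * k + 8 := by ring
  rw [h1, h2]
  omega

private theorem exp3 (m : ℕ) (hm : 2 ≤ m) :
    4 * m * (m - 1) * m = (4 * m ^ 2 - 2) * (m - 1) + (2 * m - 4) + 2 := by
  obtain ⟨k, rfl⟩ : ∃ k, m = k + 2 := ⟨m - 2, by omega⟩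
  have h1 : k + 2 - 1 = k + 1 := rfl
  have h2 : 4 * (k + 2) ^ 2 - 2 = 4 * k ^ 2 + 16 * k + 14 := by
    have h3 : 4 * (k + 2) ^ 2 = 4 * k ^ 2 + 16 * k + 14 + 2 := by ring
    rw [h3, Nat.add_sub_cancel]
  have h4 : 2 * (k + 2) - 4 = 2 * k := by omega
  rw [h1, h2, h4]
  ring

/-- the facts about the parameters which are used -/
private theorem facts (m : ℕ) (hm : 2 ≤ m) (R : ℕ) (hR : 1 ≤ R) (D N S : ℕ)
    (hD : D = R ^ (4 * m * (m - 1))) (hN : N = R ^ (4 * m ^ 2 - 2)) (hS : S = R ^ (4 * (m - 1))) :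
    1 ≤ D ∧ 1 ≤ S ∧ R ≤ N ∧ D * R ^ 6 ≤ N ∧ S * R ≤ N ∧ D * S * R ^ 2 = N ∧
      R ^ 2 * N ^ (m - 1) ≤ D ^ m := by
  refine ⟨?_, ?_, ?_, ?_, ?_, ?_, ?_⟩
  · rw [hD]; exact Nat.one_le_pow _ _ hR
  · rw [hS]; exact Nat.one_le_pow _ _ hR
  · rw [hN, exp1 m hm]
    calc R = R ^ 1 := (pow_one R).symm
      _ ≤ _ := Nat.pow_le_pow_right hR (by omega)
  · rw [hN, hD, exp1 m hm, ← pow_add]
    exact Nat.pow_le_pow_right hR (by omega)
  · rw [hN, hS, exp2 m hm]
    calc R ^ (4 * (m - 1)) * R = R ^ (4 * (m - 1) + 1) := (pow_succ _ _).symm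
      _ ≤ _ := Nat.pow_le_pow_right hR (by omega)
  · rw [hN, hS, hD, exp2 m hm, ← pow_add, ← pow_add]
  · rw [hN, hD, ← pow_mul, ← pow_mul, exp3 m hm, ← pow_add]
    exact Nat.pow_le_pow_right hR (by omega)

private theorem D_exp (e R D : ℕ) (hR : 1 ≤ R) (hD : D = R ^ e) :
    (D : ℝ) = Real.exp (e * Real.log R) := by
  rw [mul_comm, ← Real.rpow_def_of_pos (by exact_mod_cast hR), Real.rpow_natCast, hD]
  push_cast
  rfl

/-- PROOF. Take logarithms.  Left: at most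
`2 N ^ (m - 1) * (log 4 + m log (D + 1) + N / R + N (m - 1) log (C D) + N)
 ≤ C' N ^ m log R` (`C'` depending on `m, C`).  Right:
`(D + 1) ^ m log (Q + 1) ≥ D ^ m N / R = R ^ (2 m - 3) N ^ m ≥ R N ^ m`, because
`Q + 1 ≥ exp (N / R)`. -/
theorem param_count (m : ℕ) (hm : 2 ≤ m) (C : ℕ) (hC : 1 ≤ C) :
    ∃ R0 : ℕ, 1 ≤ R0 ∧ ∀ R ≥ R0, ∀ D N Q : ℕ, D = R ^ (4 * m * (m - 1)) →
      N = R ^ (4 * m ^ 2 - 2) → Q = ⌊Real.exp ((N : ℝ) / R)⌋₊ →
      (2 * (((D : ℝ) + 1) ^ m * Q * ((C : ℝ) * D) ^ (N * (m - 1))) / Real.exp (-(N : ℝ)) + 2) ^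
          (2 * N ^ (m - 1)) < ((Q : ℝ) + 1) ^ ((D + 1) ^ m) := by
  set e1 : ℕ := 4 * m * (m - 1) with he1
  set K : ℝ := ((m - 1 : ℕ) : ℝ) * e1 + 1 with hK
  have hKpos : 0 < K := by positivity
  obtain ⟨R1, hR1, hlog⟩ := log_small (1 / (8 * K)) (by positivity)
  refine ⟨max R1 (8 * (m + 4 + (m - 1) * C)), hR1.trans (le_max_left _ _), ?_⟩
  intro R hR D N Q hD hN hQ
  have hRR1 : R1 ≤ R := (le_max_left _ _).trans hR
  have hRR2 : 8 * (m + 4 + (m - 1) * C) ≤ R := (le_max_right _ _).trans hR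
  have hRpos : 1 ≤ R := hR1.trans hRR1
  obtain ⟨f1, -, f3, f4, -, -, f7⟩ := facts m hm R hRpos D N _ hD hN rfl
  have hRr : (1 : ℝ) ≤ R := by exact_mod_cast hRpos
  have hR0 : (0 : ℝ) < R := by linarith
  have hNr : (1 : ℝ) ≤ N := by exact_mod_cast hRpos.trans f3
  have hDr : (1 : ℝ) ≤ D := by exact_mod_cast f1
  have hCr : (1 : ℝ) ≤ C := by exact_mod_cast hC
  have hDN : (D : ℝ) ≤ N := by
    have h1 : D ≤ N := (Nat.le_mul_of_pos_right D (by positivity)).trans f4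
    exact_mod_cast h1
  have hNR : (N : ℝ) / R ≤ N := div_le_self (by linarith) hRr
  have hQ1 : (Q : ℝ) ≤ Real.exp ((N : ℝ) / R) := by
    rw [hQ]; exact Nat.floor_le (Real.exp_pos _).le
  have hQ2 : Real.exp ((N : ℝ) / R) ≤ (Q : ℝ) + 1 := by
    rw [hQ]; exact (Nat.lt_floor_add_one _).le
  set lam : ℝ := C + e1 * Real.log R with hlam
  have hlogR : 0 ≤ Real.log R := Real.log_nonneg hRr
  have hlam0 : 0 ≤ lam := by positivity
  have hCD : (C : ℝ) * D ≤ Real.exp lam := by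
    rw [hlam, Real.exp_add, ← D_exp e1 R D hRpos hD]
    have h1 : (C : ℝ) ≤ Real.exp C := by linarith [Real.add_one_le_exp (C : ℝ)]
    exact mul_le_mul_of_nonneg_right h1 (by linarith)
  -- the key bound of the exponent
  have hkey : ((m : ℝ) + 4) + ((m - 1 : ℕ) : ℝ) * lam ≤ R / 4 := by
    have h1 := hlog R hRR1
    have h2 : ((m - 1 : ℕ) : ℝ) * e1 * Real.log R ≤ R / 8 := by
      have h3 : ((m - 1 : ℕ) : ℝ) * e1 ≤ K := by rw [hK]; linarith
      calc ((m - 1 : ℕ) : ℝ) * e1 * Real.log R ≤ K * Real.log R :=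
            mul_le_mul_of_nonneg_right h3 hlogR
        _ ≤ K * (1 / (8 * K) * R) := mul_le_mul_of_nonneg_left h1 hKpos.le
        _ = R / 8 := by field_simp
    have h4 : (8 : ℝ) * (m + 4 + ((m - 1 : ℕ) : ℝ) * C) ≤ R := by exact_mod_cast hRR2
    rw [hlam]
    nlinarith
  have hbase : 2 * (((D : ℝ) + 1) ^ m * Q * ((C : ℝ) * D) ^ (N * (m - 1))) / Real.exp (-(N : ℝ)) + 2
      ≤ Real.exp (N * (R / 4)) := by
    have g1 : ((D : ℝ) + 1) ^ m ≤ Real.exp (m * N) := by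
      rw [Real.exp_nat_mul]
      refine pow_le_pow_left₀ (by linarith) ?_ m
      exact (Real.add_one_le_exp _).trans (Real.exp_le_exp.2 hDN)
    have g2 : (Q : ℝ) ≤ Real.exp N := hQ1.trans (Real.exp_le_exp.2 hNR)
    have g3 : ((C : ℝ) * D) ^ (N * (m - 1)) ≤ Real.exp (N * (((m - 1 : ℕ) : ℝ) * lam)) := by
      have h1 : (N : ℝ) * (((m - 1 : ℕ) : ℝ) * lam) = ((N * (m - 1) : ℕ) : ℝ) * lam := by
        push_cast; ring
      rw [h1, Real.exp_nat_mul]
      exact pow_le_pow_left₀ (by positivity) hCD _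
    have g4 : ((D : ℝ) + 1) ^ m * Q * ((C : ℝ) * D) ^ (N * (m - 1))
        ≤ Real.exp (m * N + N + N * (((m - 1 : ℕ) : ℝ) * lam)) := by
      rw [Real.exp_add, Real.exp_add]
      gcongr
    have g5 : (4 : ℝ) ≤ Real.exp (2 * N) := by
      have h1 : (4 : ℝ) ≤ Real.exp 2 := by
        have h2 := Real.add_one_le_exp (1 : ℝ)
        have h3 : Real.exp 2 = Real.exp 1 * Real.exp 1 := by rw [← Real.exp_add]; norm_num
        rw [h3]
        nlinarith
      exact h1.trans (Real.exp_le_exp.2 (by linarith))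
    have g6 : (1 : ℝ) ≤ Real.exp (m * N + N + N * (((m - 1 : ℕ) : ℝ) * lam)) * Real.exp N := by
      rw [← Real.exp_add]
      exact Real.one_le_exp (by positivity)
    rw [Real.exp_neg, div_inv_eq_mul]
    calc 2 * (((D : ℝ) + 1) ^ m * Q * ((C : ℝ) * D) ^ (N * (m - 1))) * Real.exp N + 2
        ≤ 2 * Real.exp (m * N + N + N * (((m - 1 : ℕ) : ℝ) * lam)) * Real.exp N + 2 := by
          gcongr
      _ ≤ 4 * (Real.exp (m * N + N + N * (((m - 1 : ℕ) : ℝ) * lam)) * Real.exp N) := by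
          linarith
      _ ≤ Real.exp (2 * N) *
            (Real.exp (m * N + N + N * (((m - 1 : ℕ) : ℝ) * lam)) * Real.exp N) := by
          gcongr
      _ = Real.exp (N * (((m : ℝ) + 4) + ((m - 1 : ℕ) : ℝ) * lam)) := by
          rw [← Real.exp_add, ← Real.exp_add]
          congr 1
          ring
      _ ≤ Real.exp (N * (R / 4)) := Real.exp_le_exp.2 (by gcongr)
  calc (2 * (((D : ℝ) + 1) ^ m * Q * ((C : ℝ) * D) ^ (N * (m - 1))) / Real.exp (-(N : ℝ)) + 2) ^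
          (2 * N ^ (m - 1))
      ≤ (Real.exp (N * (R / 4))) ^ (2 * N ^ (m - 1)) := by
        refine pow_le_pow_left₀ (by positivity) hbase _
    _ = Real.exp (((2 * N ^ (m - 1) : ℕ) : ℝ) * (N * (R / 4))) := (Real.exp_nat_mul _ _).symm
    _ < Real.exp ((((D + 1) ^ m : ℕ) : ℝ) * (N / R)) := by
        apply Real.exp_lt_exp.2
        have h7 : (R : ℝ) ^ 2 * (N : ℝ) ^ (m - 1) ≤ ((D : ℝ) + 1) ^ m := by
          have h8 : (R : ℝ) ^ 2 * (N : ℝ) ^ (m - 1) ≤ (D : ℝ) ^ m := by exact_mod_cast f7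
          exact h8.trans (pow_le_pow_left₀ (by linarith) (by linarith) m)
        push_cast
        have h9 : (0 : ℝ) < (N : ℝ) ^ (m - 1) * N * R := by positivity
        calc 2 * (N : ℝ) ^ (m - 1) * (N * (R / 4)) = (N : ℝ) ^ (m - 1) * N * R / 2 := by ring
          _ < (N : ℝ) ^ (m - 1) * N * R := by linarith
          _ = (R : ℝ) ^ 2 * (N : ℝ) ^ (m - 1) * (N / R) := by field_simp
          _ ≤ ((D : ℝ) + 1) ^ m * (N / R) := by gcongr
    _ = (Real.exp ((N : ℝ) / R)) ^ ((D + 1) ^ m) := Real.exp_nat_mul _ _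
    _ ≤ ((Q : ℝ) + 1) ^ ((D + 1) ^ m) := pow_le_pow_left₀ (Real.exp_pos _).le hQ2 _

/-- PROOF. Everything is compared with `N`: `D S = N / R ^ 2`, `D log (C D) ≤ N / R` for large `R`
(`N / D = R ^ (4 m - 2)`), `log Q ≤ N / R`.  The exponent on the right is
`≥ - C'' N / R ≥ - N / 4`.  First term on the left: `exp (- N + m C S + log 2) ≤ exp (- N / 2)`.
Second term: `N' = N - C D ≥ N / 2`, `N'! ≥ (N' / e) ^ N'`, so
`(C ^ 2 D S) ^ N' / N'! ≤ (2 e C ^ 2 / R ^ 2) ^ N' ≤ exp (- 4 N')` for large `R`, and the other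
factors are at most `exp (N / 2)`. -/
theorem param_small (m : ℕ) (hm : 2 ≤ m) (C : ℕ) (hC : 1 ≤ C) :
    ∃ R0 : ℕ, 1 ≤ R0 ∧ ∀ R ≥ R0, ∀ D N S Q : ℕ, D = R ^ (4 * m * (m - 1)) →
      N = R ^ (4 * m ^ 2 - 2) → S = R ^ (4 * (m - 1)) → Q = ⌊Real.exp ((N : ℝ) / R)⌋₊ →
      C * D ≤ N ∧
      2 * Real.exp (-(N : ℝ)) * Real.exp (m * ((C : ℝ) * S)) +
        (((D : ℝ) + 1) ^ m * Q) * ((C : ℝ) * D) ^ (C * D) *
          (m * Real.exp (m * ((C : ℝ) * S * (C * D))) * ((C : ℝ) * S * (C * D)) ^ (N - C * D) /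
            ((N - C * D).factorial : ℝ)) <
        Real.exp (-(C * ((C * D * S : ℕ) +
          Real.log (((D : ℝ) + 1) ^ m * Q * ((C : ℝ) * D) ^ (C * D))))) := by
  set e1 : ℕ := 4 * m * (m - 1) with he1
  obtain ⟨R1, hR1, hlog⟩ := log_small (1 / (2 * (e1 + 1))) (by positivity)
  refine ⟨max R1 (max (8 * (m * C * C + C * (m + 2) + C * C) + 8 * m + 8)
    ⌈8 * Real.exp 4 * C ^ 2⌉₊), hR1.trans (le_max_left _ _), ?_⟩
  intro R hR D N S Q hD hN hS hQ
  have hRR1 : R1 ≤ R := (le_max_left _ _).trans hR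
  have hRR2 : 8 * (m * C * C + C * (m + 2) + C * C) + 8 * m + 8 ≤ R :=
    ((le_max_left _ _).trans (le_max_right _ _)).trans hR
  have hRR3 : ⌈8 * Real.exp 4 * (C : ℝ) ^ 2⌉₊ ≤ R :=
    ((le_max_right _ _).trans (le_max_right _ _)).trans hR
  have hRR4 : 8 * Real.exp 4 * (C : ℝ) ^ 2 ≤ R := Nat.ceil_le.1 hRR3
  have hRpos : 1 ≤ R := hR1.trans hRR1
  obtain ⟨f1, f2, f3, f4, f5, f6, -⟩ := facts m hm R hRpos D N S hD hN hS
  have hRr : (1 : ℝ) ≤ R := by exact_mod_cast hRpos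
  have hR0 : (0 : ℝ) < R := by linarith
  have hRN : (R : ℝ) ≤ N := by exact_mod_cast f3
  have hN0 : (0 : ℝ) < N := by linarith
  have hDr : (1 : ℝ) ≤ D := by exact_mod_cast f1
  have hSr : (1 : ℝ) ≤ S := by exact_mod_cast f2
  have hCr : (1 : ℝ) ≤ C := by exact_mod_cast hC
  have hmr : (2 : ℝ) ≤ m := by exact_mod_cast hm
  have hRR5 : 8 * ((m : ℝ) * C * C + C * (m + 2) + C * C) + 8 * m + 8 ≤ R := by
    exact_mod_cast hRR2
  have hDR6 : (D : ℝ) * R ^ 6 ≤ N := by exact_mod_cast f4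
  have hSR : (S : ℝ) * R ≤ N := by exact_mod_cast f5
  have hDS : (D : ℝ) * S * R ^ 2 = N := by exact_mod_cast f6
  have hR6 : (R : ℝ) ≤ R ^ 6 := by
    calc (R : ℝ) = R ^ 1 := (pow_one _).symm
      _ ≤ R ^ 6 := pow_le_pow_right₀ hRr (by norm_num)
  have hR3 : (R : ℝ) ^ 3 ≤ R ^ 6 := pow_le_pow_right₀ hRr (by norm_num)
  have hR2 : (R : ℝ) ≤ R ^ 2 := by
    calc (R : ℝ) = R ^ 1 := (pow_one _).symm
      _ ≤ R ^ 2 := pow_le_pow_right₀ hRr (by norm_num)
  have hNR0 : 0 ≤ (N : ℝ) / R := by positivity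
  have hNR1 : (1 : ℝ) ≤ N / R := by rw [le_div_iff₀ hR0]; linarith
  have hDNR : (D : ℝ) ≤ N / R := by
    rw [le_div_iff₀ hR0]
    calc (D : ℝ) * R ≤ D * R ^ 6 := by gcongr
      _ ≤ N := hDR6
  have hDNR3 : (D : ℝ) * R ^ 2 ≤ N / R := by
    rw [le_div_iff₀ hR0]
    calc (D : ℝ) * (R : ℝ) ^ 2 * (R : ℝ) = (D : ℝ) * (R : ℝ) ^ 3 := by ring
      _ ≤ (D : ℝ) * (R : ℝ) ^ 6 := by gcongr
      _ ≤ (N : ℝ) := hDR6
  have hSNR : (S : ℝ) ≤ N / R := by rw [le_div_iff₀ hR0]; exact hSR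
  have hDSNR : (D : ℝ) * S ≤ N / R := by
    rw [le_div_iff₀ hR0]
    calc (D : ℝ) * S * R ≤ D * S * R ^ 2 := by gcongr
      _ = N := hDS
  -- `2 C D ≤ N`
  have hCD2 : 2 * (C * D) ≤ N := by
    have h1 : 2 * C ≤ R := by nlinarith
    have h2 : D * R ≤ N := by
      calc D * R ≤ D * R ^ 6 := Nat.mul_le_mul_left D (Nat.le_self_pow (by norm_num) R)
        _ ≤ N := f4
    calc 2 * (C * D) = D * (2 * C) := by ring
      _ ≤ D * R := Nat.mul_le_mul_left D h1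
      _ ≤ N := h2
  have hCDN : C * D ≤ N := by omega
  refine ⟨hCDN, ?_⟩
  have hQ1 : (Q : ℝ) ≤ Real.exp ((N : ℝ) / R) := by
    rw [hQ]; exact Nat.floor_le (Real.exp_pos _).le
  have hQpos : (1 : ℝ) ≤ Q := by
    have h1 : 1 ≤ Q := by
      rw [hQ]
      apply Nat.le_floor
      rw [Nat.cast_one]
      exact Real.one_le_exp hNR0
    exact_mod_cast h1
  set lam : ℝ := C + e1 * Real.log R with hlam
  have hlogR : 0 ≤ Real.log R := Real.log_nonneg hRr
  have hlam0 : 0 ≤ lam := by positivity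
  have hCD : (C : ℝ) * D ≤ Real.exp lam := by
    rw [hlam, Real.exp_add, ← D_exp e1 R D hRpos hD]
    have h1 : (C : ℝ) ≤ Real.exp C := by linarith [Real.add_one_le_exp (C : ℝ)]
    exact mul_le_mul_of_nonneg_right h1 (by linarith)
  have hlamR : lam ≤ R := by
    have h1 := hlog R hRR1
    have h2 : (e1 : ℝ) * Real.log R ≤ R / 2 := by
      calc (e1 : ℝ) * Real.log R ≤ (e1 + 1) * Real.log R :=
            mul_le_mul_of_nonneg_right (by linarith) hlogR
        _ ≤ (e1 + 1) * (1 / (2 * (e1 + 1)) * R) := mul_le_mul_of_nonneg_left h1 (by positivity)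
        _ = R / 2 := by field_simp
    have h3 : (C : ℝ) ≤ R / 2 := by nlinarith
    rw [hlam]
    linarith
  have hCR : (C : ℝ) ≤ R := by nlinarith
  -- the product `W`
  set W : ℝ := ((D : ℝ) + 1) ^ m * Q * ((C : ℝ) * D) ^ (C * D) with hW
  have hWpos : 0 < W := by positivity
  have hWle : W ≤ Real.exp (((m : ℝ) + 2) * (N / R)) := by
    have g1 : ((D : ℝ) + 1) ^ m ≤ Real.exp (m * (N / R)) := by
      rw [Real.exp_nat_mul]
      refine pow_le_pow_left₀ (by linarith) ?_ m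
      exact (Real.add_one_le_exp _).trans (Real.exp_le_exp.2 hDNR)
    have g3 : ((C : ℝ) * D) ^ (C * D) ≤ Real.exp (N / R) := by
      calc ((C : ℝ) * D) ^ (C * D) ≤ (Real.exp lam) ^ (C * D) :=
            pow_le_pow_left₀ (by positivity) hCD _
        _ = Real.exp (((C * D : ℕ) : ℝ) * lam) := (Real.exp_nat_mul _ _).symm
        _ ≤ Real.exp (N / R) := by
            apply Real.exp_le_exp.2
            push_cast
            calc (C : ℝ) * D * lam ≤ R * D * R := by gcongr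
              _ = D * R ^ 2 := by ring
              _ ≤ N / R := hDNR3
    calc W ≤ Real.exp (m * (N / R)) * Real.exp (N / R) * Real.exp (N / R) := by
          rw [hW]; gcongr
      _ = Real.exp (((m : ℝ) + 2) * (N / R)) := by
          rw [← Real.exp_add, ← Real.exp_add]; congr 1; ring
  have hlogW : Real.log W ≤ ((m : ℝ) + 2) * (N / R) := by
    rw [Real.log_le_iff_le_exp hWpos]; exact hWle
  -- comparison of `N / R` with `N`
  have hcmp : ∀ k : ℝ, 8 * k ≤ R → k * (N / R) ≤ N / 8 := by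
    intro k hk
    rw [mul_div_assoc', div_le_iff₀ hR0]
    nlinarith
  have hN8 : (1 : ℝ) ≤ N / 8 := by
    have : (8 : ℝ) ≤ R := by nlinarith
    linarith
  have h2exp : (2 : ℝ) ≤ Real.exp (N / 8) := by
    have h1 := Real.add_one_le_exp ((N : ℝ) / 8)
    linarith
  -- right side
  have hright : Real.exp (-((N : ℝ) / 8)) ≤
      Real.exp (-(C * ((C * D * S : ℕ) + Real.log W))) := by
    apply Real.exp_le_exp.2
    apply neg_le_neg
    push_cast
    calc (C : ℝ) * (C * D * S + Real.log W) ≤ C * (C * (N / R) + (m + 2) * (N / R)) := by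
          have : (C : ℝ) * D * S ≤ C * (N / R) := by
            rw [mul_assoc]; gcongr
          gcongr
      _ = (C * C + C * (m + 2)) * (N / R) := by ring
      _ ≤ N / 8 := hcmp _ (by nlinarith)
  -- first term
  have hfirst : 2 * Real.exp (-(N : ℝ)) * Real.exp (m * ((C : ℝ) * S)) ≤
      Real.exp (-(3 / 4 * N)) := by
    have h1 : (m : ℝ) * (C * S) ≤ N / 8 := by
      calc (m : ℝ) * (C * S) ≤ m * (C * (N / R)) := by gcongr
        _ = (m * C) * (N / R) := by ring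
        _ ≤ N / 8 := hcmp _ (by nlinarith)
    calc 2 * Real.exp (-(N : ℝ)) * Real.exp (m * ((C : ℝ) * S))
        ≤ Real.exp (N / 8) * Real.exp (-(N : ℝ)) * Real.exp (N / 8) := by gcongr
      _ = Real.exp (-(3 / 4 * N)) := by
          rw [← Real.exp_add, ← Real.exp_add]; congr 1; ring
  -- second term
  have hsecond : (((D : ℝ) + 1) ^ m * Q) * ((C : ℝ) * D) ^ (C * D) *
          (m * Real.exp (m * ((C : ℝ) * S * (C * D))) * ((C : ℝ) * S * (C * D)) ^ (N - C * D) /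
            ((N - C * D).factorial : ℝ)) ≤ Real.exp (-(3 / 2 * N)) := by
    set x : ℝ := (C : ℝ) * S * (C * D) with hx
    have hx0 : 0 ≤ x := by positivity
    set n : ℕ := N - C * D with hn
    have hn2 : (N : ℝ) / 2 ≤ n := by
      have h1 : N ≤ 2 * n := by omega
      have h2 : (N : ℝ) ≤ 2 * n := by exact_mod_cast h1
      linarith
    have hxR : x ≤ C ^ 2 * (N / R) := by
      calc x = C ^ 2 * (D * S) := by rw [hx]; ring
        _ ≤ C ^ 2 * (N / R) := by gcongr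
    have s1 : x ^ n / (n.factorial : ℝ) ≤ Real.exp (-(2 * N)) * Real.exp (N / 8) := by
      have h1 := Real.pow_div_factorial_le_exp (Real.exp 4 * x) (by positivity) n
      have h2 : x ^ n / (n.factorial : ℝ)
          = Real.exp (-(4 * n)) * ((Real.exp 4 * x) ^ n / (n.factorial : ℝ)) := by
        have h3 : Real.exp (-(4 * (n : ℝ))) * (Real.exp 4) ^ n = 1 := by
          rw [← Real.exp_nat_mul, ← Real.exp_add]
          rw [show -(4 * (n : ℝ)) + n * 4 = 0 by ring, Real.exp_zero]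
        have h3' : (Real.exp 4 * x) ^ n = Real.exp 4 ^ n * x ^ n := mul_pow _ _ _
        rw [h3', mul_div_assoc (Real.exp 4 ^ n) (x ^ n), ← mul_assoc, h3, one_mul]
      rw [h2]
      have h4 : Real.exp (-(4 * (n : ℝ))) ≤ Real.exp (-(2 * N)) :=
        Real.exp_le_exp.2 (by linarith)
      have h5 : Real.exp 4 * x ≤ N / 8 := by
        calc Real.exp 4 * x ≤ Real.exp 4 * (C ^ 2 * (N / R)) := by gcongr
          _ = (Real.exp 4 * C ^ 2) * (N / R) := by ring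
          _ ≤ N / 8 := hcmp _ (by linarith)
      have h6 := h1.trans (Real.exp_le_exp.2 h5)
      gcongr
    have s2 : W ≤ Real.exp (N / 8) :=
      hWle.trans (Real.exp_le_exp.2 (hcmp _ (by nlinarith)))
    have s3 : (m : ℝ) ≤ Real.exp (N / 8) := by
      have h1 := Real.add_one_le_exp ((N : ℝ) / 8)
      have h2 : 8 * (m : ℝ) ≤ R := by nlinarith
      linarith
    have s4 : Real.exp (m * x) ≤ Real.exp (N / 8) := by
      apply Real.exp_le_exp.2
      calc (m : ℝ) * x ≤ m * (C ^ 2 * (N / R)) := by gcongr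
        _ = (m * C * C) * (N / R) := by ring
        _ ≤ N / 8 := hcmp _ (by nlinarith)
    calc W * (m * Real.exp (m * x) * x ^ n / (n.factorial : ℝ))
        = W * (m * Real.exp (m * x) * (x ^ n / (n.factorial : ℝ))) := by ring
      _ ≤ Real.exp (N / 8) * (Real.exp (N / 8) * Real.exp (N / 8) *
            (Real.exp (-(2 * N)) * Real.exp (N / 8))) := by gcongr
      _ = Real.exp (-(3 / 2 * N)) := by
          rw [← Real.exp_add, ← Real.exp_add, ← Real.exp_add, ← Real.exp_add]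
          congr 1
          ring
  refine lt_of_lt_of_le ?_ hright
  calc _ ≤ Real.exp (-(3 / 4 * N)) + Real.exp (-(3 / 2 * N)) := add_le_add hfirst hsecond
    _ ≤ Real.exp (-(3 / 4 * N)) + Real.exp (-(3 / 4 * N)) := by
        gcongr
        linarith
    _ = 2 * Real.exp (-(3 / 4 * N)) := by ring
    _ ≤ Real.exp (N / 8) * Real.exp (-(3 / 4 * N)) := by gcongr
    _ = Real.exp (-(5 / 8 * N)) := by rw [← Real.exp_add]; congr 1; ring
    _ < Real.exp (-(N / 8)) := Real.exp_lt_exp.2 (by linarith)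

end MP60829e.ST
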